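import Pool.Agent.ZR.OA.St

/-!
# [ALQ] the two forms of `defined over the algebraic numbers`
-/

set_option autoImplicit false

open scoped BigOperators
open Filter Topology

namespace Pool.Agent.ZR

open Pool.Agent.ZPT (Qb hQ trd rsp)
open Pool.Agent.ZPE (IsTorCoset IsSubvar IsComp kdim)

theorem mem_kQ_iff (z : ℂ) : z ∈ kQ ↔ IsAlgebraic ℚ z := by
  constructor
  · intro h
    obtain ⟨x, rfl⟩ := RingHom.mem_fieldRange.1 h
    exact mem_algebraicClosure_iff.1 x.2
  · intro h
    exact RingHom.mem_fieldRange.2 ⟨⟨z, mem_algebraicClosure_iff.2 h⟩, rfl⟩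

theorem thm_ALQ : St_ALQ := by
  intro n V
  unfold IsAlg ClO
  simp only [mem_kQ_iff]

end Pool.Agent.ZR
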