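import Pool.Agent.ZPT.CPT
import Pool.Agent.ZR.CH.KEY

/-!
# ZR, block OA: the comparison for families with any number of relations (helper70)
-/

set_option autoImplicit false

open scoped BigOperators
open Filter Topology Module

namespace Pool.Agent.ZR

open Pool.Agent.ZPT Pool.Agent.ZPE

/-- THE COMPARISON for families with at least `ρ` independent relations in each member: the number
of relations is at most the transcendence degree plus the number of the common relations, or there
are combinations which are so small that they have a small transcendence degree. -/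
def ComparisonG : Prop :=
  ∀ (N Q : Type) [Fintype N] (U : Ultrafilter Q) (p : PreF N Q) (d ρ : ℕ), p.ALG U d → p.NC U →
    (∀ᶠ k in (U : Filter Q), ρ ≤ Module.finrank ℝ (rsp (p.rl k : Set (N → ℤ)))) →
    (ρ ≤ d + Module.finrank ℝ (rsp (p.er U : Set (N → ℤ))) ∧
      (Tendsto (fun k => hQ (p.t k)) U atTop →
        ρ + 1 ≤ d + Module.finrank ℝ (rsp (p.er U : Set (N → ℤ))))) ∨
    ∃ (r : ℕ) (e : Fin r → N → ℤ), LinearIndependent ℤ e ∧
      trd (FCst U) ((p.sub e).co U Set.univ ∪ {p.tg U}) + 1 ≤ d ∧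
      trd (FCst U) ((p.sub e).co U Set.univ ∪ {p.tg U}) + ρ + 1 ≤ d + r

namespace CMG

open KEY

theorem sqrt_le {N : Type} [Fintype N] {t : Qb} (h : Fm t) (g : N → LPt t) (v : N → ℝ) :
    Real.sqrt (QJ g v) ≤ ∑ i, |v i| * Real.sqrt (hcJ (g i)) := by
  classical
  have h1 : ∀ s : Finset N, Real.sqrt (QJ g (∑ i ∈ s, v i • (Pi.single i 1 : N → ℝ))) ≤
      ∑ i ∈ s, |v i| * Real.sqrt (hcJ (g i)) := by
    intro s
    induction s using Finset.induction_on with
    | empty => simp [h.zero]
    | insert i s hi ih =>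
      rw [Finset.sum_insert hi, Finset.sum_insert hi]
      refine (h.tri N g _ _).trans (add_le_add ?_ ih)
      have h2 := h.int N g (Pi.single i 1)
      rw [cb_single] at h2
      have h3 : (fun ν => ((Pi.single i 1 : N → ℤ) ν : ℝ)) = (Pi.single i 1 : N → ℝ) := by
        funext ν
        by_cases hν : ν = i
        · subst hν
          simp
        · simp [Pi.single_eq_of_ne hν]
      rw [h3] at h2
      rw [h.smul, h2, Real.sqrt_mul (sq_nonneg _), Real.sqrt_sq_eq_abs]
  have h2 := h1 Finset.univ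
  have h3 : ∑ i, v i • (Pi.single i 1 : N → ℝ) = v := by
    funext j
    rw [Finset.sum_apply, Finset.sum_eq_single j]
    · simp
    · intro i _ hi
      simp [Pi.single_eq_of_ne hi.symm]
    · intro h'
      exact absurd (Finset.mem_univ _) h'
  rwa [h3] at h2

/-- if the root of the quotient is at most a function which tends to `0`, so does the quotient -/
theorem tend_of {Q : Type} {U : Ultrafilter Q} {q l f : Q → ℝ} (hl : ∀ k, 1 ≤ l k)
    (hq : ∀ k, 0 ≤ q k) (h : ∀ᶠ k in (U : Filter Q), Real.sqrt (q k) ≤ f k * Real.sqrt (l k))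
    (hf : Tendsto f U (𝓝 0)) : Tendsto (fun k => q k / l k) U (𝓝 0) := by
  have h1 : Tendsto (fun k => f k ^ 2) U (𝓝 0) := by
    have := hf.pow 2
    simpa using this
  refine squeeze_zero' (Eventually.of_forall fun k => div_nonneg (hq k)
    (zero_le_one.trans (hl k))) ?_ h1
  filter_upwards [h] with k hk
  have h2 : 0 < l k := zero_lt_one.trans_le (hl k)
  rw [div_le_iff₀ h2]
  have h3 := Real.sqrt_nonneg (q k)
  have h4 : Real.sqrt (q k) ^ 2 ≤ (f k * Real.sqrt (l k)) ^ 2 := pow_le_pow_left₀ h3 hk 2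
  rwa [Real.sq_sqrt (hq k), mul_pow, Real.sq_sqrt h2.le] at h4

/-- a subspace of a given dimension -/
theorem exists_sub {M : Type} [Fintype M] {ρ : ℕ} (Y : Submodule ℝ (M → ℝ))
    (h : ρ ≤ finrank ℝ Y) : ∃ X : Submodule ℝ (M → ℝ), finrank ℝ X = ρ ∧ X ≤ Y := by
  classical
  obtain ⟨s, hs1, hs2⟩ := exists_finset_linearIndependent_of_le_finrank (R := ℝ) h
  have hs3 : LinearIndependent ℝ (fun x : s => ((x : Y) : M → ℝ)) :=
    hs2.map' Y.subtype (Submodule.ker_subtype _)
  refine ⟨Submodule.span ℝ (Set.range fun x : s => ((x : Y) : M → ℝ)), ?_, ?_⟩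
  · rw [finrank_span_eq_card hs3, Fintype.card_coe, hs1]
  · rw [Submodule.span_le]
    rintro _ ⟨x, rfl⟩
    exact x.1.2

/-- the limit of the spaces of relations -/
theorem lim_rel {M Q : Type} [Fintype M] (U : Ultrafilter Q) (p : PreF M Q)
    (hF : ∀ k, Fm (p.t k)) (l : Q → ℝ) (h1 : ∀ k, 1 ≤ l k)
    (hB : ∃ B : ℝ, ∀ᶠ k in (U : Filter Q), ∀ i, hcJ (p.P k i) ≤ B * l k) (ρ : ℕ)
    (hρ : ∀ᶠ k in (U : Filter Q), ρ ≤ finrank ℝ (rsp (p.rl k : Set (M → ℤ)))) :
    ∃ W : Submodule ℝ (M → ℝ), finrank ℝ W = ρ ∧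
      ∀ w ∈ W, Tendsto (fun k => QJ (p.P k) w / l k) U (𝓝 0) := by
  classical
  obtain ⟨k₀, hk₀⟩ := hρ.exists
  have hsub : ∀ k, ∃ X : Submodule ℝ (M → ℝ), finrank ℝ X = ρ ∧
      (ρ ≤ finrank ℝ (rsp (p.rl k : Set (M → ℤ))) → X ≤ rsp (p.rl k : Set (M → ℤ))) := by
    intro k
    by_cases h : ρ ≤ finrank ℝ (rsp (p.rl k : Set (M → ℤ)))
    · obtain ⟨X, hX, hX'⟩ := exists_sub _ h
      exact ⟨X, hX, fun _ => hX'⟩
    · obtain ⟨X, hX, -⟩ := exists_sub _ hk₀
      exact ⟨X, hX, fun h' => absurd h' h⟩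
  choose X hX hXr using hsub
  obtain ⟨F, L, hFX, hFL, hL⟩ := CPT U ρ X hX
  refine ⟨Submodule.span ℝ (Set.range L), ?_, fun w hw => ?_⟩
  · rw [finrank_span_eq_card hL, Fintype.card_fin]
  obtain ⟨c, rfl⟩ := (Submodule.mem_span_range_iff_exists_fun ℝ).1 hw
  obtain ⟨B, hB⟩ := hB
  have hlim : ∀ i, Tendsto (fun k => (∑ s, c s • L s - ∑ s, c s • F k s) i) U (𝓝 0) := by
    intro i
    have h2 : Tendsto (fun k => ∑ s, c s * (L s i - F k s i)) U (𝓝 (∑ s, c s * (L s i - L s i))) :=
      tendsto_finsetSum _ fun s _ => ((tendsto_const_nhds.sub (hFL s i)).const_mul (c s))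
    have h3 : ∑ s, c s * (L s i - L s i) = 0 := by simp
    rw [h3] at h2
    refine h2.congr fun k => ?_
    simp only [Pi.sub_apply, Finset.sum_apply, Pi.smul_apply, smul_eq_mul, mul_sub,
      Finset.sum_sub_distrib]
  refine tend_of (f := fun k => ∑ i, |(∑ s, c s • L s - ∑ s, c s • F k s) i| *
    Real.sqrt (max B 0)) h1 (fun k => (hF k).nn M _ _) ?_ ?_
  · filter_upwards [hρ, hB] with k hk hk'
    have h2 : (∑ s, c s • F k s) ∈ rsp (p.rl k : Set (M → ℤ)) :=
      Submodule.sum_mem _ fun s _ => Submodule.smul_mem _ _ (hXr k hk (hFX k s))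
    have h3 : QJ (p.P k) (∑ s, c s • F k s) = 0 := rsp_le_ker p k (hF k) h2
    have h4 := (hF k).tri M (p.P k) (∑ s, c s • F k s) (∑ s, c s • L s - ∑ s, c s • F k s)
    rw [add_sub_cancel, h3, Real.sqrt_zero, zero_add] at h4
    refine h4.trans ((sqrt_le (hF k) (p.P k) _).trans ?_)
    rw [Finset.sum_mul]
    refine Finset.sum_le_sum fun i _ => ?_
    rw [mul_assoc]
    refine mul_le_mul_of_nonneg_left ?_ (abs_nonneg _)
    rw [← Real.sqrt_mul (le_max_right _ _)]
    refine Real.sqrt_le_sqrt ((hk' i).trans ?_)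
    exact mul_le_mul_of_nonneg_right (le_max_left _ _) (zero_le_one.trans (h1 k))
  · have h2 : Tendsto (fun k => ∑ i, |(∑ s, c s • L s - ∑ s, c s • F k s) i| *
        Real.sqrt (max B 0)) U (𝓝 (∑ _i : M, |(0 : ℝ)| * Real.sqrt (max B 0))) :=
      tendsto_finsetSum _ fun i _ => ((hlim i).abs.mul_const _)
    have h3 : ∑ _i : M, |(0 : ℝ)| * Real.sqrt (max B 0) = 0 := by simp
    rwa [h3] at h2

/-! ### the top block -/

section top

variable {M Q : Type} [Fintype M]

/-- the restriction to a block -/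
noncomputable def res (blk : M → ℕ) (j : ℕ) : (M → ℝ) →ₗ[ℝ] ({i // blk i = j} → ℝ) :=
  LinearMap.funLeft ℝ ℝ Subtype.val

omit [Fintype M] in
theorem res_apply (blk : M → ℕ) (j : ℕ) (w : M → ℝ) (i : {i // blk i = j}) :
    res blk j w i = w i.1 := rfl

/-- the dimension of the image in a block -/
theorem fin_res (blk : M → ℕ) (j : ℕ) (W : Submodule ℝ (M → ℝ)) :
    finrank ℝ W ≤ finrank ℝ (W.map (res blk j)) + (Finset.univ.filter fun i => blk i ≠ j).card := by
  classical
  have h1 := LinearMap.finrank_range_add_finrank_ker ((res blk j).domRestrict W)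
  have h2 : LinearMap.range ((res blk j).domRestrict W) = W.map (res blk j) :=
    LinearMap.range_domRestrict W _
  rw [h2] at h1
  have h3 : finrank ℝ (LinearMap.ker ((res blk j).domRestrict W)) ≤
      (Finset.univ.filter fun i => blk i ≠ j).card := by
    let g : LinearMap.ker ((res blk j).domRestrict W) →ₗ[ℝ]
        ((Finset.univ.filter fun i => blk i ≠ j) → ℝ) :=
      ((LinearMap.funLeft ℝ ℝ Subtype.val).comp W.subtype).comp (Submodule.subtype _)
    have hg : Function.Injective g := by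
      intro x y hxy
      apply Subtype.ext
      apply Subtype.ext
      funext i
      by_cases hi : blk i = j
      · have h4 : x.1.1 i = 0 := congrFun (LinearMap.mem_ker.1 x.2) ⟨i, hi⟩
        have h5 : y.1.1 i = 0 := congrFun (LinearMap.mem_ker.1 y.2) ⟨i, hi⟩
        rw [h4, h5]
      · exact congrFun hxy ⟨i, by simp [hi]⟩
    have h5 := LinearMap.finrank_le_finrank_of_injective hg
    rwa [Module.finrank_fintype_fun_eq_card, Fintype.card_coe] at h5
  omega

/-- the form of the restriction to a block -/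
theorem QJ_res {t : Qb} (h : Fm t) (blk : M → ℕ) (j : ℕ) (g : M → LPt t) (w : M → ℝ) :
    Real.sqrt (QJ (fun i : {i // blk i = j} => g i.1) (res blk j w)) ≤ Real.sqrt (QJ g w) +
      ∑ i ∈ Finset.univ.filter (fun i => blk i ≠ j), |w i| * Real.sqrt (hcJ (g i)) := by
  classical
  have h1 := h.comb M {i // blk i = j} g (fun i => Pi.single i.1 1) (res blk j w)
  simp only [cb_single] at h1
  set v : M → ℝ := fun ν => ∑ i : {i // blk i = j}, res blk j w i *
    (((Pi.single i.1 1 : M → ℤ) ν : ℤ) : ℝ) with hv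
  have h2 : ∀ ν, v ν = if blk ν = j then w ν else 0 := by
    intro ν
    rw [hv]
    simp only
    split_ifs with hν
    · rw [Finset.sum_eq_single (⟨ν, hν⟩ : {i // blk i = j})]
      · rw [Pi.single_eq_same, res_apply]
        simp
      · intro i _ hi
        rw [Pi.single_eq_of_ne]
        · simp
        · intro hx
          exact hi (Subtype.ext hx.symm)
      · intro h'
        exact absurd (Finset.mem_univ _) h'
    · refine Finset.sum_eq_zero fun i _ => ?_
      rw [Pi.single_eq_of_ne]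
      · simp
      · intro hx
        exact hν (hx ▸ i.2)
  rw [h1]
  have h3 := h.tri M g w (v - w)
  rw [add_sub_cancel] at h3
  refine h3.trans (add_le_add le_rfl ((sqrt_le h g _).trans (le_of_eq ?_)))
  rw [← Finset.sum_filter_add_sum_filter_not Finset.univ (fun i => blk i ≠ j)]
  have h4 : ∑ i ∈ Finset.univ.filter (fun i => ¬ blk i ≠ j), |(v - w) i| *
      Real.sqrt (hcJ (g i)) = 0 := by
    refine Finset.sum_eq_zero fun i hi => ?_
    have h5 : blk i = j := by simpa using hi
    rw [Pi.sub_apply, h2, if_pos h5, sub_self, abs_zero, zero_mul]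
  rw [h4, add_zero]
  refine Finset.sum_congr rfl fun i hi => ?_
  have h5 : blk i ≠ j := by simpa using hi
  rw [Pi.sub_apply, h2, if_neg h5, zero_sub, abs_neg]

theorem lam_lt {lam : ℕ → Q → ℝ} {U : Ultrafilter Q} (h1 : ∀ j k, 1 ≤ lam j k)
    (hr : ∀ j, Tendsto (fun k => lam j k / lam (j + 1) k) U (𝓝 0)) (i j : ℕ) (hij : i < j) :
    Tendsto (fun k => lam i k / lam j k) U (𝓝 0) := by
  obtain ⟨n, rfl⟩ : ∃ n, j = i + 1 + n := ⟨j - (i + 1), by omega⟩
  clear hij
  induction n with
  | zero => exact hr i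
  | succ n ih =>
    have h2 := ih.mul (hr (i + 1 + n))
    rw [mul_zero] at h2
    refine h2.congr fun k => ?_
    have : lam (i + 1 + n) k ≠ 0 := (zero_lt_one.trans_le (h1 _ k)).ne'
    have h3 : i + 1 + (n + 1) = i + 1 + n + 1 := by omega
    rw [h3]
    field_simp

end top

/-- The chain for a family with growth classes. -/
theorem chainG (hACX : St_ACX) (hTWR : St_TWR) (hH : HTF)
    (hIV : CoreIV) (hF : ∀ t : Qb, t ≠ 0 → t ≠ 1 → Fm t) {M Q : Type} [Fintype M]
    (U : Ultrafilter Q) (p : PreF M Q) (blk : M → ℕ) (lam : ℕ → Q → ℝ) (d ρ ε : ℕ)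
    (hNC : p.NC U) (h1 : ∀ j k, 1 ≤ lam j k)
    (hr : ∀ j, Tendsto (fun k => lam j k / lam (j + 1) k) U (𝓝 0))
    (hB : ∃ B : ℝ, ∀ᶠ k in (U : Filter Q), hQ (p.t k) ≤ B * lam 0 k ∧
      ∀ i, hcJ (p.P k i) ≤ B * lam (blk i) k)
    (hlow : ∀ j, 0 < j → ∀ m : M → ℤ, m ≠ 0 → (∀ i, m i ≠ 0 → blk i = j) → ∃ c > (0 : ℝ),
      ∀ᶠ k in (U : Filter Q), c * lam j k ≤ hcJ (cb (p.P k) m))
    (htrd : trd (FCst U) (p.co U Set.univ ∪ {p.tg U}) ≤ d)
    (hcore : (∀ i, blk i = 0) → ∀ W : Submodule ℝ (M → ℝ),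
      (∀ w ∈ W, Tendsto (fun k => QJ (p.P k) w / lam 0 k) U (𝓝 0)) →
      finrank ℝ W + ε ≤ trd (FCst U) (p.co U Set.univ ∪ {p.tg U}))
    (hrk : ∀ᶠ k in (U : Filter Q), ρ ≤ finrank ℝ (rsp (p.rl k : Set (M → ℤ)))) :
    ρ + ε ≤ d ∨ ∃ A : Finset M, trd (FCst U) (p.co U A ∪ {p.tg U}) + 1 ≤ d ∧
      trd (FCst U) (p.co U A ∪ {p.tg U}) + ρ + 1 ≤ d + A.card := by
  classical
  have hFk : ∀ k, Fm (p.t k) := fun k => hF _ (p.t0 k) (p.t1 k)
  set J := Finset.univ.sup blk with hJ
  have hle : ∀ i, blk i ≤ J := fun i => Finset.le_sup (Finset.mem_univ i)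
  have hlam : ∀ i j, i ≤ j → ∀ᶠ k in (U : Filter Q), lam i k ≤ lam j k := by
    intro i j hij
    rcases hij.eq_or_lt with rfl | h
    · exact Eventually.of_forall fun k => le_rfl
    · filter_upwards [(lam_lt h1 hr i j h).eventually_le_const zero_lt_one] with k hk
      rwa [div_le_one (zero_lt_one.trans_le (h1 j k))] at hk
  have hup : ∃ B : ℝ, 0 ≤ B ∧ (∀ᶠ k in (U : Filter Q), hQ (p.t k) ≤ B * lam 0 k) ∧
      (∀ᶠ k in (U : Filter Q), ∀ i, hcJ (p.P k i) ≤ B * lam (blk i) k) ∧
      ∀ f : M → ℕ, (∀ i, blk i ≤ f i) → ∀ᶠ k in (U : Filter Q), ∀ i,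
        hcJ (p.P k i) ≤ B * lam (f i) k := by
    obtain ⟨B, hB⟩ := hB
    have h3 : ∀ᶠ k in (U : Filter Q), ∀ i, hcJ (p.P k i) ≤ max B 0 * lam (blk i) k := by
      filter_upwards [hB] with k hk i
      exact (hk.2 i).trans (mul_le_mul_of_nonneg_right (le_max_left _ _)
        (zero_le_one.trans (h1 _ k)))
    refine ⟨max B 0, le_max_right _ _, ?_, h3, fun f hf => ?_⟩
    · filter_upwards [hB] with k hk
      exact hk.1.trans (mul_le_mul_of_nonneg_right (le_max_left _ _)
        (zero_le_one.trans (h1 _ k)))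
    · have h4 : ∀ᶠ k in (U : Filter Q), ∀ i, lam (blk i) k ≤ lam (f i) k :=
        eventually_all.2 fun i => hlam _ _ (hf i)
      filter_upwards [h3, h4] with k hk hk' i
      exact (hk i).trans (mul_le_mul_of_nonneg_left (hk' i) (le_max_right _ _))
  obtain ⟨B, hB0, hBt, hBP, hBf⟩ := hup
  obtain ⟨W, hW1, hW2⟩ := lim_rel U p hFk (lam J) (h1 J) ⟨B, hBf (fun _ => J) hle⟩ ρ hrk
  rcases Nat.eq_zero_or_pos J with hJ0 | hJ0
  · left
    have h2 := hcore (fun i => Nat.le_zero.1 (hJ0 ▸ hle i)) W (by rw [hJ0] at hW2; exact hW2)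
    omega
  · right
    have hne : Nonempty {i // blk i = J} := by
      have h2 : (Finset.univ : Finset M).Nonempty := by
        by_contra h
        rw [Finset.not_nonempty_iff_eq_empty] at h
        rw [hJ, h] at hJ0
        simp at hJ0
      obtain ⟨i, -, hi⟩ := Finset.exists_mem_eq_sup Finset.univ h2 blk
      exact ⟨⟨i, hi.symm⟩⟩
    have hts := t_small (U := U) p blk lam h1 hr hB J hJ0
    set A : Finset M := Finset.univ.filter fun i => blk i ≠ J with hA
    have hIVJ := hIV {i // blk i = J} Q U (bb (U := U) p blk lam h1 hB J)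
      ⟨(tendsto_lam h1 hr J hJ0).1, hts, hNC⟩ (by
        intro m hm
        obtain ⟨c, hc, h3⟩ := hlow J hJ0 (∑ i, m i • (Pi.single i.1 1 : M → ℤ)) (by
          intro h
          apply hm
          funext x
          have h4 := congrFun h x.1
          rw [ext_apply, dif_pos x.2] at h4
          exact h4) (by
          intro x hx
          by_contra hne
          apply hx
          rw [ext_apply, dif_neg hne])
        refine ⟨c, hc, ?_⟩
        filter_upwards [h3] with k hk
        rw [← bf_low blk J (p.P k) m] at hk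
        exact hk) (W.map (res blk J)) (by
        rintro _ ⟨w, hw, rfl⟩
        show Tendsto (fun k => QJ ((bf p blk J).P k) (res blk J w) / lam J k) U (𝓝 0)
        refine tend_of (f := fun k => Real.sqrt (QJ (p.P k) w / lam J k) +
          ∑ i ∈ A, |w i| * Real.sqrt (B * (lam (blk i) k / lam J k))) (h1 J)
          (fun k => (hFk k).nn _ _ _) ?_ ?_
        · filter_upwards [hBP] with k hk
          refine (QJ_res (hFk k) blk J (p.P k) w).trans ?_
          have hp : 0 < lam J k := zero_lt_one.trans_le (h1 J k)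
          rw [add_mul, Finset.sum_mul]
          refine add_le_add ?_ (Finset.sum_le_sum fun i _ => ?_)
          · rw [← Real.sqrt_mul (div_nonneg ((hFk k).nn _ _ _) hp.le),
              div_mul_cancel₀ _ hp.ne']
          · rw [mul_assoc]
            refine mul_le_mul_of_nonneg_left ?_ (abs_nonneg _)
            rw [← Real.sqrt_mul (mul_nonneg hB0 (div_nonneg (zero_le_one.trans (h1 _ k)) hp.le))]
            refine Real.sqrt_le_sqrt ((hk i).trans (le_of_eq ?_))
            field_simp
        · have h3 : Tendsto (fun k => Real.sqrt (QJ (p.P k) w / lam J k)) U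
              (𝓝 (Real.sqrt 0)) := (Real.continuous_sqrt.tendsto _).comp (hW2 w hw)
          have h4 : Tendsto (fun k => ∑ i ∈ A, |w i| * Real.sqrt (B * (lam (blk i) k / lam J k)))
              U (𝓝 (∑ i ∈ A, |w i| * Real.sqrt (B * 0))) := by
            refine tendsto_finsetSum _ fun i hi => ?_
            have h5 : blk i ≠ J := by simpa [hA] using hi
            have h6 := lam_lt h1 hr (blk i) J (lt_of_le_of_ne (hle i) h5)
            exact ((Real.continuous_sqrt.tendsto _).comp (h6.const_mul B)).const_mul _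
          have h5 := h3.add h4
          simpa using h5)
    have h3 := (trd_core hACX (bb (U := U) p blk lam h1 hB J) ⊤).1 ⟨p.t, rfl, hts⟩
    have h4 : (bb (U := U) p blk lam h1 hB J).toPreF.co U Set.univ = p.co U {i | blk i = J} :=
      bf_co p U blk J
    rw [h4] at h3
    have h6 : (bb (U := U) p blk lam h1 hB J).lam = lam J := rfl
    rw [h6] at h3
    have h7 : finrank ℝ W ≤ finrank ℝ (W.map (res blk J)) + A.card := by
      convert fin_res blk J W
    have h8 := hTWR hH M Q U p (fun i => if blk i = J then 1 else 0) (fun j => lam (J - 1 + j)) d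
      (fun j k => h1 _ k) (fun j => hr (J - 1 + j)) ⟨B, by
        have h9 := hBf (fun i => J - 1 + if blk i = J then 1 else 0) (fun i => by
          have := hle i
          split_ifs with h
          · omega
          · omega)
        filter_upwards [hBt, hlam 0 (J - 1) (Nat.zero_le _), h9] with k hk hk' hk''
        exact ⟨hk.trans (mul_le_mul_of_nonneg_left hk' hB0), hk''⟩⟩ htrd
    have h9 : {i | (if blk i = J then 1 else 0) = 0} = (A : Set M) := by
      ext i
      simp [hA]
    have h10 : {i | (if blk i = J then 1 else 0) = 1} = {i | blk i = J} := by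
      ext i
      simp
    rw [h9] at h8
    have h11 : (1 : ℕ) ∈ (Finset.univ.image fun i => if blk i = J then 1 else 0).erase 0 := by
      rw [Finset.mem_erase]
      obtain ⟨i, hi⟩ := hne
      exact ⟨one_ne_zero, Finset.mem_image.2 ⟨i, Finset.mem_univ _, if_pos hi⟩⟩
    have h12 := Finset.single_le_sum (f := fun j => trd (FLo U (lam (J - 1 + j)))
      (p.co U {i | (if blk i = J then 1 else 0) = j})) (fun _ _ => Nat.zero_le _) h11
    rw [h10] at h12
    have h13 : J - 1 + 1 = J := by omega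
    rw [h13] at h12
    refine ⟨A, ?_, ?_⟩
    · omega
    · omega

/-- integral vectors which are independent over `ℝ` and span the real space of a subgroup -/
theorem basis_rsp {N : Type} [Fintype N] (L : AddSubgroup (N → ℤ)) :
    ∃ b : Fin (finrank ℝ (rsp (L : Set (N → ℤ)))) → N → ℤ, (∀ i, b i ∈ L) ∧
      LinearIndependent ℤ b := by
  classical
  unfold rsp
  obtain ⟨f, hf1, -, hf3⟩ := Submodule.exists_fun_fin_finrank_span_eq ℝ (ca '' (L : Set (N → ℤ)))
  choose b hb1 hb2 using hf1
  refine ⟨b, hb1, ?_⟩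
  rw [Fintype.linearIndependent_iff]
  intro c hc i
  have h1 : ∑ i, (c i : ℝ) • f i = 0 := by
    funext ν
    have h2 := congrFun hc ν
    rw [Finset.sum_apply] at h2 ⊢
    have h3 : ∑ i, ((c i : ℝ) • f i) ν = ((∑ i, (c i • b i) ν : ℤ) : ℝ) := by
      push_cast
      refine Finset.sum_congr rfl fun i _ => ?_
      rw [← hb2 i]
      simp [ca]
    rw [h3, h2]
    simp
  have h2 := Fintype.linearIndependent_iff.1 hf3 _ h1 i
  exact_mod_cast h2

/-- both types at once -/
theorem mainG (hCHE : St_CHE) (hALB : St_ALB) (hACX : St_ACX) (hTWR : St_TWR)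
    (hGRW : St_GRC) (hRDE : St_RDE) (hRLB : St_RLB) (hH : HTF) (hIV : CoreIV)
    {N Q : Type} [Fintype N] (U : Ultrafilter Q) (p : PreF N Q) (d ρ ε : ℕ) (hd : p.ALG U d)
    (hNC : p.NC U)
    (hrk : ∀ᶠ k in (U : Filter Q), ρ ≤ finrank ℝ (rsp (p.rl k : Set (N → ℤ))))
    (lam0 : Q → ℝ) (hl1 : ∀ k, 1 ≤ lam0 k)
    (hlB : ∃ B : ℝ, ∀ᶠ k in (U : Filter Q), hQ (p.t k) ≤ B * lam0 k)
    (hcore : ∀ (M : Type) [Fintype M] (s : BlkF M U), s.t = p.t → s.lam = lam0 → s.Ind →
      ∀ W : Submodule ℝ (M → ℝ), (∀ w ∈ W, s.Rel w) →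
      finrank ℝ W + ε ≤ trd (FCst U) (s.toPreF.co U Set.univ ∪ {s.toPreF.tg U})) :
    ρ + ε ≤ d + finrank ℝ (rsp (p.er U : Set (N → ℤ))) ∨
    ∃ (r : ℕ) (e : Fin r → N → ℤ), LinearIndependent ℤ e ∧
      trd (FCst U) ((p.sub e).co U Set.univ ∪ {p.tg U}) + 1 ≤ d ∧
      trd (FCst U) ((p.sub e).co U Set.univ ∪ {p.tg U}) + ρ + 1 ≤ d + r := by
  classical
  obtain ⟨C, hC0, hC⟩ := hCHE hH
  have hF : ∀ t : Qb, t ≠ 0 → t ≠ 1 → Fm t := fun t h0 h1 =>
    ⟨(hC t h0 h1).1, (hC t h0 h1).2.1, (hC t h0 h1).2.2.1,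
      fun N _ g w w' => ((hC t h0 h1).2.2.2.1 N g w w').2, (hC t h0 h1).2.2.2.2.1⟩
  obtain ⟨M1, _, e1, hc1, hi1, hr1⟩ := hRDE N Q U p
  obtain ⟨M2, _, e2, blk, lam, hli, hcard, hl0, hone, hratio, ⟨B2, hB2⟩, hlow⟩ :=
    hGRW hH M1 Q U (p.sub e1) lam0 hNC hl1
  obtain ⟨B1, hB1⟩ := hlB
  set p2 : PreF M2 Q := (p.sub e1).sub e2 with hp2
  have hB : ∃ B : ℝ, ∀ᶠ k in (U : Filter Q), hQ (p2.t k) ≤ B * lam 0 k ∧
      ∀ i, hcJ (p2.P k i) ≤ B * lam (blk i) k := by
    refine ⟨max B1 B2, ?_⟩
    filter_upwards [hB1, hB2] with k h1 h2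
    refine ⟨?_, fun i => ?_⟩
    · refine le_trans h1 ?_
      rw [hl0]
      exact mul_le_mul_of_nonneg_right (le_max_left _ _) (zero_le_one.trans (hl1 k))
    · refine le_trans (h2 i) ?_
      exact mul_le_mul_of_nonneg_right (le_max_right _ _) (zero_le_one.trans (hone _ k))
  have hind : ∀ m : M2 → ℤ, m ≠ 0 → ∀ᶠ k in (U : Filter Q), cb (p2.P k) m ≠ 0 := by
    intro m hm
    have h1 : ∑ i, m i • e2 i ≠ 0 := by
      intro h0
      apply hm
      funext i
      exact (Fintype.linearIndependent_iff.1 hli) m h0 i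
    filter_upwards [hi1 _ h1] with k hk
    have h2 : cb (p2.P k) m = cb ((p.sub e1).P k) (∑ i, m i • e2 i) := cb_cb _ _ _
    rw [h2]
    exact hk
  have htrd : trd (FCst U) (p2.co U Set.univ ∪ {p2.tg U}) ≤ d := by
    refine le_trans (trd_le_of_sub (Y := p.co U Set.univ ∪ {p.tg U})
      ((co_finite p U _).union (Set.finite_singleton _)) ?_) (hALB N Q U p d hd)
    set F : Subfield (LL U) := Subfield.closure (FCst U ∪ {p.tg U}) with hFdef
    have htg : p.tg U ∈ F := Subfield.subset_closure (Or.inr rfl)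
    have h1 := (hACX N Q U p F htg).1 M1 e1
    have h2 := (hACX M1 Q U (p.sub e1) F htg).1 M2 e2
    have h3 : F ≤ Subfield.closure (FCst U ∪ (p.co U Set.univ ∪ {p.tg U})) :=
      Subfield.closure_mono (Set.union_subset_union_right _ Set.subset_union_right)
    have h4 : Subfield.closure ((F : Set (LL U)) ∪ p.co U Set.univ) ≤
        Subfield.closure (FCst U ∪ (p.co U Set.univ ∪ {p.tg U})) := by
      rw [Subfield.closure_le]
      exact Set.union_subset h3 fun y hy => Subfield.subset_closure (Or.inr (Or.inl hy))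
    have h5 : Subfield.closure ((F : Set (LL U)) ∪ (p.sub e1).co U Set.univ) ≤
        Subfield.closure (FCst U ∪ (p.co U Set.univ ∪ {p.tg U})) := by
      rw [Subfield.closure_le]
      exact Set.union_subset h3 fun y hy => h4 (h1 hy)
    refine Set.union_subset (fun y hy => h5 (h2 hy)) ?_
    rintro z rfl
    exact Subfield.subset_closure (Or.inr (Or.inr rfl))
  set R := finrank ℝ (rsp (p.er U : Set (N → ℤ))) with hR
  have hkey := chainG hACX hTWR hH hIV hF U p2 blk lam d (ρ - R) ε hNC hone hratio hB hlow htrd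
    (by
      intro hb W hW
      obtain ⟨B, hB'⟩ := id hB
      let s : BlkF M2 U :=
        { toPreF := p2
          lam := lam 0
          one_le := hone 0
          upper := ⟨B, by
            filter_upwards [hB'] with k hk i
            have := hk.2 i
            rwa [hb i] at this⟩ }
      exact hcore M2 s rfl (funext hl0) hind W hW)
    (by
      filter_upwards [hrk] with k hk
      have h1 := hr1 k
      have h2 := hRLB M1 M2 Q (p.sub e1) e2 hli hcard k
      rw [h2]
      omega)
  rcases hkey with hkey | ⟨A, hA1, hA2⟩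
  · left
    omega
  right
  obtain ⟨b, hb1, hb2⟩ := basis_rsp (p.er U)
  have hNB : (U : Filter Q).NeBot := U.neBot
  let el : A → N → ℤ := fun i => ∑ j, e2 i.1 j • e1 j
  have hP2 : ∀ k (i : A), p2.P k i.1 = cb (p.P k) (el i) := fun k i => cb_cb _ _ _
  -- independence
  have hlie : LinearIndependent ℤ (Sum.elim el b) := by
    rw [Fintype.linearIndependent_iff]
    intro c hc
    rw [Fintype.sum_sum_type] at hc
    simp only [Sum.elim_inl, Sum.elim_inr] at hc
    have h1 : ∀ᶠ k in (U : Filter Q), cb (p.P k) (∑ i, c (Sum.inl i) • el i) = 0 := by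
      have h2 : (∑ i, c (Sum.inl i) • el i) = -∑ j, c (Sum.inr j) • b j :=
        eq_neg_of_add_eq_zero_left hc
      have h3 : (∑ i, c (Sum.inl i) • el i) ∈ p.er U := by
        rw [h2]
        exact neg_mem (sum_mem fun j _ => zsmul_mem (hb1 j) _)
      exact h3
    let m : M2 → ℤ := fun i => if h : i ∈ A then c (Sum.inl ⟨i, h⟩) else 0
    have h2 : ∀ k, cb (p2.P k) m = cb (p.P k) (∑ i, c (Sum.inl i) • el i) := by
      intro k
      have h3 : cb (p2.P k) m = ∑ i : A, c (Sum.inl i) • p2.P k i.1 := by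
        unfold cb
        have h4 : ∀ i ∉ A, m i • p2.P k i = 0 := by
          intro i hi
          show (if h : i ∈ A then c (Sum.inl ⟨i, h⟩) else 0) • p2.P k i = 0
          rw [dif_neg hi, zero_smul]
        rw [← Finset.sum_subset (Finset.subset_univ A) (fun i _ hi => h4 i hi),
          ← Finset.sum_coe_sort]
        refine Finset.sum_congr rfl fun i _ => ?_
        show (if h : i.1 ∈ A then c (Sum.inl ⟨i.1, h⟩) else 0) • p2.P k i.1 = _
        rw [dif_pos i.2]
      rw [h3, ← cb_cb]
      exact Finset.sum_congr rfl fun i _ => congrArg (fun x => c (Sum.inl i) • x) (hP2 k i)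
    have h3 : m = 0 := by
      by_contra hm
      obtain ⟨k, hk1, hk2⟩ := ((hind m hm).and h1).exists
      exact hk1 ((h2 k).trans hk2)
    have h4 : ∀ i, c (Sum.inl i) = 0 := by
      intro i
      have h5 := congrFun h3 i.1
      have h6 : m i.1 = c (Sum.inl i) := dif_pos i.2
      rw [← h6]
      exact h5
    have h5 : ∑ j, c (Sum.inr j) • b j = 0 := by
      have h0 : ∑ i, c (Sum.inl i) • el i = 0 :=
        Finset.sum_eq_zero fun i _ => by rw [h4, zero_smul]
      rw [h0, zero_add] at hc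
      exact hc
    have h6 := Fintype.linearIndependent_iff.1 hb2 _ h5
    rintro (i | j)
    · exact h4 i
    · exact h6 j
  have hcr : Fintype.card (A ⊕ Fin R) = A.card + R := by
    rw [Fintype.card_sum, Fintype.card_coe, Fintype.card_fin]
  let eq : Fin (A.card + R) ≃ A ⊕ Fin R := (finCongr hcr.symm).trans (Fintype.equivFin _).symm
  have hco : (p.sub (fun i => Sum.elim el b (eq i))).co U Set.univ ∪ {p.tg U} ⊆
      Subfield.closure (FCst U ∪ (p2.co U A ∪ {p2.tg U})) := by
    refine Set.union_subset ?_ ?_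
    · rintro z ⟨i, -, hz⟩
      rcases hi : eq i with a | j
      · have h1 : ∀ k, (p.sub (fun i => Sum.elim el b (eq i))).P k i = p2.P k a.1 := by
          intro k
          show cb (p.P k) (Sum.elim el b (eq i)) = _
          rw [hi, hP2]
          rfl
        simp only [h1] at hz
        exact Subfield.subset_closure (Or.inr (Or.inl ⟨a.1, a.2, hz⟩))
      · have h1 : ∀ᶠ k in (U : Filter Q),
            (p.sub (fun i => Sum.elim el b (eq i))).P k i = 0 := by
          have h2 : ∀ᶠ k in (U : Filter Q), cb (p.P k) (b j) = 0 := hb1 j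
          filter_upwards [h2] with k hk
          show cb (p.P k) (Sum.elim el b (eq i)) = _
          rw [hi]
          exact hk
        have h3 : z = 0 := by
          rcases hz with hz | hz
          · rw [hz]
            refine Filter.Germ.coe_eq.2 ?_
            filter_upwards [h1] with k hk
            rw [hk]
            rfl
          · rw [hz]
            refine Filter.Germ.coe_eq.2 ?_
            filter_upwards [h1] with k hk
            rw [hk]
            rfl
        rw [h3]
        exact zero_mem _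
    · rintro z rfl
      exact Subfield.subset_closure (Or.inr (Or.inr rfl))
  have hle := trd_le_of_sub (X := FCst U) ((co_finite p2 U A).union (Set.finite_singleton _)) hco
  refine ⟨A.card + R, fun i => Sum.elim el b (eq i), hlie.comp _ eq.injective, ?_, ?_⟩
  · omega
  · omega

theorem FCst_anti {Q : Type} {U : Ultrafilter Q} {N : Type} [Fintype N] (p : PreF N Q)
    {lam : Q → ℝ} (h : Tendsto lam U atTop) :
    trd (FLo U lam) (p.co U Set.univ ∪ {p.tg U}) ≤ trd (FCst U) (p.co U Set.univ ∪ {p.tg U}) :=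
  trd_anti (fg_of_finite ((co_finite _ U _).union (Set.finite_singleton _))) (FCst_sub h)

end CMG

open KEY CMG in
/-- the comparison for families with any number of relations, from the cores -/
theorem comparisonG_of (hCHE : St_CHE) (hALB : St_ALB) (hACX : St_ACX) (hTWR : St_TWR)
    (hGRW : St_GRC) (hRDE : St_RDE) (hRLB : St_RLB) (hH : HTF) (hIV : CoreIV) (hIU : CoreIU)
    (hII : CoreII) : ComparisonG := by
  intro N Q _ U p d ρ hd hNC hrk
  have hU : Tendsto (fun k => hQ (p.t k)) U atTop →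
      ρ + 1 ≤ d + finrank ℝ (rsp (p.er U : Set (N → ℤ))) ∨
      ∃ (r : ℕ) (e : Fin r → N → ℤ), LinearIndependent ℤ e ∧
        trd (FCst U) ((p.sub e).co U Set.univ ∪ {p.tg U}) + 1 ≤ d ∧
        trd (FCst U) ((p.sub e).co U Set.univ ∪ {p.tg U}) + ρ + 1 ≤ d + r := by
    intro hinf
    have hlam : Tendsto (fun k => max 1 (hQ (p.t k))) U atTop :=
      tendsto_atTop_mono (fun k => le_max_right _ _) hinf
    refine mainG hCHE hALB hACX hTWR hGRW hRDE hRLB hH hIV U p d ρ 1 hd hNC hrk
      (fun k => max 1 (hQ (p.t k))) (fun k => le_max_left _ _)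
      ⟨1, Eventually.of_forall fun k => by rw [one_mul]; exact le_max_right _ _⟩ ?_
    intro M _ s hst hsl hind W hW
    have hsl' : Tendsto s.lam U atTop := by
      rw [hsl]
      exact hlam
    have h1 := hIU M Q U s ⟨hsl', ⟨1, Eventually.of_forall fun k => by
      rw [one_mul, hsl, hst]
      exact le_max_right _ _⟩, ⟨1, one_pos, by
        filter_upwards [hinf.eventually_ge_atTop 1] with k hk
        rw [one_mul, hsl, hst]
        exact (max_eq_right hk).le⟩⟩ hind W hW
    have h2 := (trd_core hACX s ⊤).2.1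
    have h3 := FCst_anti s.toPreF hsl'
    omega
  rcases bounded_or (U := U) (fun k => hQ (p.t k)) with ⟨B, hB⟩ | hinf
  · have h0 := mainG hCHE hALB hACX hTWR hGRW hRDE hRLB hH hIV U p d ρ 0 hd hNC hrk
      (fun _ => 1) (fun _ => le_rfl) ⟨B, by simpa using hB⟩ (by
        intro M _ s hst hsl hind W hW
        have h1 := hII M Q U s ⟨fun k => by rw [hsl], ⟨B, by rw [hst]; exact hB⟩,
          fun z => by rw [hst]; exact hNC z⟩ hind W hW
        have h2 := (trd_core hACX s ⊤).2.2
        omega)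
    rcases h0 with h0 | h0
    · refine Or.inl ⟨h0, fun hinf => ?_⟩
      exfalso
      have hNB : (U : Filter Q).NeBot := U.neBot
      obtain ⟨k, hk1, hk2⟩ := (hB.and (hinf.eventually_ge_atTop (B + 1))).exists
      linarith
    · exact Or.inr h0
  · rcases hU hinf with h | h
    · exact Or.inl ⟨by omega, fun _ => h⟩
    · exact Or.inr h

end Pool.Agent.ZR
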