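import Pool.Agent.ZR.OA.CMG
import Pool.Agent.ZR.T3.Fin

/-!
# ZR, block OA: `ComparisonG` without hypotheses (helper70)
-/

set_option autoImplicit false

namespace Pool.Agent.ZR

/-- the comparison for families with any number of relations -/
theorem thm_comparisonG : ComparisonG :=
  comparisonG_of thm_CHE thm_ALB thm_ACX (thm_TWR (thm_FLH thm_CHE) thm_FLD) (thm_GRC thm_CHE)
    thm_RDE thm_RLB thm_HTF ((cores_of_min thm_HTF).1 (K1.minIV_of AX.thm_AXK))
    ((cores_of_min thm_HTF).2.1 (K1.minIU_of AX.thm_AXK QG.thm_MinIU1))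
    ((cores_of_min thm_HTF).2.2
      (EQ.thm_MII EQ.thm_main.1 (C2.minIIge_of (AX.thm_DFX EQ.thm_main.2))))

end Pool.Agent.ZR
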