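import Pool.Agent.ZR.OA.Defs
import Pool.Agent.ZR.T3.St
import Pool.Agent.ZR.T3.LOC
import Pool.Agent.ZR.St62

/-!
# ZR, block OA: the maps `p ↦ (t, e_i.P)` (helper70; the first part is from T3/REL.lean, helper60)
-/

set_option autoImplicit false

open scoped BigOperators

namespace Pool.Agent.ZR

open Pool.Agent.ZPT (Qb)

section

variable {n : ℕ}

/-! ### multihomogeneous components -/

/-- the multidegree of an exponent -/
private noncomputable def wt (e : Option (Fin n × Fin 3) →₀ ℕ) : Fin n →₀ ℕ :=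
  Finsupp.equivFunOnFinite.symm fun i => ∑ j, e (some (i, j))

private theorem wt_apply (e : Option (Fin n × Fin 3) →₀ ℕ) (i : Fin n) :
    wt e i = ∑ j, e (some (i, j)) := rfl

open Classical in
/-- a multihomogeneous component -/
private noncomputable def cmpn (H : MvPolynomial (Option (Fin n × Fin 3)) ℂ) (d : Fin n →₀ ℕ) :
    MvPolynomial (Option (Fin n × Fin 3)) ℂ :=
  ∑ e ∈ H.support.filter fun e => wt e = d, MvPolynomial.monomial e (H.coeff e)

open Classical in
private theorem cmpn_coeff (H : MvPolynomial (Option (Fin n × Fin 3)) ℂ) (d : Fin n →₀ ℕ)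
    (e : Option (Fin n × Fin 3) →₀ ℕ) :
    (cmpn H d).coeff e = if wt e = d then H.coeff e else 0 := by
  unfold cmpn
  rw [MvPolynomial.coeff_sum]
  simp only [MvPolynomial.coeff_monomial]
  rw [Finset.sum_ite_eq' (H.support.filter fun e => wt e = d) e fun e => H.coeff e]
  simp only [Finset.mem_filter, MvPolynomial.mem_support_iff]
  by_cases h1 : wt e = d
  · rw [if_pos h1]
    by_cases h2 : H.coeff e = 0
    · rw [if_neg (fun h => h.1 h2), h2]
    · rw [if_pos ⟨h2, h1⟩]
  · rw [if_neg h1, if_neg fun h => h1 h.2]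

private theorem cmpn_hom (H : MvPolynomial (Option (Fin n × Fin 3)) ℂ) (d : Fin n →₀ ℕ) :
    XHom (cmpn H d) := by
  classical
  refine ⟨d, fun e he i => ?_⟩
  rw [MvPolynomial.mem_support_iff, cmpn_coeff] at he
  by_cases h : wt e = d
  · rw [← h, wt_apply]
  · exact absurd (if_neg h) he

/-- the point with the scaled coordinates -/
private noncomputable def scl (p : LX n) (s : Fin n → ℂ) (o : Option (Fin n × Fin 3)) : ℂ :=
  o.elim p.t fun a => s a.1 * tri (p.P a.1) a.2

private theorem scl_prod (p : LX n) (s : Fin n → ℂ) (e : Option (Fin n × Fin 3) →₀ ℕ) :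
    ∏ o, scl p s o ^ e o = (∏ i, s i ^ wt e i) * ∏ o, scl p 1 o ^ e o := by
  rw [Fintype.prod_option, Fintype.prod_option, Fintype.prod_prod_type, Fintype.prod_prod_type]
  have h1 : ∀ i : Fin n, ∏ j : Fin 3, scl p s (some (i, j)) ^ e (some (i, j)) =
      s i ^ wt e i * ∏ j : Fin 3, scl p 1 (some (i, j)) ^ e (some (i, j)) := by
    intro i
    rw [wt_apply, ← Finset.prod_pow_eq_pow_sum, ← Finset.prod_mul_distrib]
    refine Finset.prod_congr rfl fun j _ => ?_
    rw [← mul_pow]
    simp [scl]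
  simp only [h1]
  rw [Finset.prod_mul_distrib]
  have h2 : scl p s none = scl p 1 none := rfl
  rw [h2]
  ring

private theorem scl_one (p : LX n) : scl p 1 = fun o : Option (Fin n × Fin 3) =>
    o.elim p.t (fun a => tri (p.P a.1) a.2) := by
  funext o
  rcases o with _ | a
  · rfl
  · simp [scl]

open Classical in
private theorem cmpn_eval (H : MvPolynomial (Option (Fin n × Fin 3)) ℂ) (p : LX n)
    (d : Fin n →₀ ℕ) : xval p (cmpn H d) =
      ∑ e ∈ H.support.filter fun e => wt e = d, H.coeff e * ∏ o, scl p 1 o ^ e o := by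
  unfold xval cmpn
  rw [← scl_one, map_sum]
  refine Finset.sum_congr rfl fun e _ => ?_
  rw [MvPolynomial.eval_monomial, Finsupp.prod_fintype _ _ fun i => pow_zero _]

/-- if `H` vanishes for all scalings, the components vanish -/
private theorem cmpn_zero (H : MvPolynomial (Option (Fin n × Fin 3)) ℂ) (p : LX n)
    (h : ∀ s : Fin n → ℂ, MvPolynomial.eval (scl p s) H = 0) (d : Fin n →₀ ℕ) :
    xval p (cmpn H d) = 0 := by
  classical
  set Ψ : MvPolynomial (Fin n) ℂ :=
    ∑ e ∈ H.support, MvPolynomial.monomial (wt e) (H.coeff e * ∏ o, scl p 1 o ^ e o) with hΨ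
  have h0 : Ψ = 0 := by
    apply MvPolynomial.funext
    intro s
    rw [map_zero, ← h s, hΨ, map_sum, MvPolynomial.eval_eq' (scl p s) H]
    refine Finset.sum_congr rfl fun e _ => ?_
    rw [MvPolynomial.eval_monomial, Finsupp.prod_fintype _ _ fun i => pow_zero _, scl_prod p s e]
    ring
  have h1 : Ψ.coeff d = 0 := by rw [h0, MvPolynomial.coeff_zero]
  rw [cmpn_eval, ← h1, hΨ, MvPolynomial.coeff_sum, Finset.sum_filter]
  refine Finset.sum_congr rfl fun e _ => ?_
  rw [MvPolynomial.coeff_monomial]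

/-- `H` is the sum of its components -/
private theorem cmpn_ne (H : MvPolynomial (Option (Fin n × Fin 3)) ℂ) (p : LX n)
    (h : MvPolynomial.eval (scl p 1) H ≠ 0) : ∃ d, xval p (cmpn H d) ≠ 0 := by
  classical
  by_contra hcon
  push Not at hcon
  apply h
  rw [MvPolynomial.eval_eq']
  have h1 := Finset.sum_fiberwise_of_maps_to (s := H.support) (t := H.support.image wt)
    (g := wt) (fun e he => Finset.mem_image_of_mem _ he)
    (fun e => H.coeff e * ∏ o, scl p 1 o ^ e o)
  rw [← h1]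
  refine Finset.sum_eq_zero fun d _ => ?_
  rw [← cmpn_eval]
  exact hcon d

/-! ### the vectors which represent the points -/

/-- the vector which does not vanish at the affine points -/
private noncomputable def vA {R : Type} [CommRing R] (t X Y Z : R) : Fin 4 → R :=
  ![2 * Y * Z, X ^ 2 - 2 * X * Z + t * Z ^ 2, X ^ 2 - 2 * t * X * Z + t * Z ^ 2,
    X ^ 2 - t * Z ^ 2]

/-- the vector which does not vanish at the origin -/
private noncomputable def vO {R : Type} [CommRing R] (t X Y Z : R) : Fin 4 → R :=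
  ![2 * X * Y, Y ^ 2 + (1 + t) * X ^ 2 - t * X * Z - 2 * X ^ 2 + t * X * Z,
    Y ^ 2 + (1 + t) * X ^ 2 - t * X * Z - 2 * t * X ^ 2 + t * X * Z,
    Y ^ 2 + (1 + t) * X ^ 2 - t * X * Z - t * X * Z]

private theorem vA_zero {t : ℂ} (s : ℂ) :
    vA t (s * tri (0 : LPt t) 0) (s * tri (0 : LPt t) 1) (s * tri (0 : LPt t) 2) =
      (0 : ℂ) • rp (0 : LPt t) := by
  have e0 : tri (0 : LPt t) 0 = 0 := rfl
  have e1 : tri (0 : LPt t) 1 = 1 := rfl
  have e2 : tri (0 : LPt t) 2 = 0 := rfl
  rw [e0, e1, e2, zero_smul]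
  funext i
  fin_cases i <;> simp [vA]

private theorem vO_zero {t : ℂ} (s : ℂ) :
    vO t (s * tri (0 : LPt t) 0) (s * tri (0 : LPt t) 1) (s * tri (0 : LPt t) 2) =
      s ^ 2 • rp (0 : LPt t) := by
  have e0 : tri (0 : LPt t) 0 = 0 := rfl
  have e1 : tri (0 : LPt t) 1 = 1 := rfl
  have e2 : tri (0 : LPt t) 2 = 0 := rfl
  have e3 : rp (0 : LPt t) = jo ℂ := rfl
  rw [e0, e1, e2, e3]
  funext i
  fin_cases i <;> simp [vO, jo]

private theorem vA_aff {t x y : ℂ} (h : (leg t).Nonsingular x y) (s : ℂ) :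
    vA t (s * tri (laff h) 0) (s * tri (laff h) 1) (s * tri (laff h) 2) =
      s ^ 2 • rp (laff h) := by
  have e0 : tri (laff h) 0 = x := rfl
  have e1 : tri (laff h) 1 = y := rfl
  have e2 : tri (laff h) 2 = 1 := rfl
  have e3 : rp (laff h) = jx t x y := rfl
  rw [e0, e1, e2, e3]
  funext i
  fin_cases i <;> simp [vA, jx] <;> ring

private theorem vO_aff {t x y : ℂ} (h : (leg t).Nonsingular x y) (s : ℂ) :
    vO t (s * tri (laff h) 0) (s * tri (laff h) 1) (s * tri (laff h) 2) =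
      (s ^ 2 * x) • rp (laff h) := by
  have e0 : tri (laff h) 0 = x := rfl
  have e1 : tri (laff h) 1 = y := rfl
  have e2 : tri (laff h) 2 = 1 := rfl
  have e3 : rp (laff h) = jx t x y := rfl
  have hy := (leg_eq_iff x y).1 h.1
  rw [e0, e1, e2, e3]
  funext i
  fin_cases i
  · show 2 * (s * x) * (s * y) = (s ^ 2 * x) * (2 * y)
    ring
  · show (s * y) ^ 2 + (1 + t) * (s * x) ^ 2 - t * (s * x) * (s * 1) - 2 * (s * x) ^ 2 +
      t * (s * x) * (s * 1) = (s ^ 2 * x) * (x ^ 2 - 2 * x + t)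
    linear_combination s ^ 2 * hy
  · show (s * y) ^ 2 + (1 + t) * (s * x) ^ 2 - t * (s * x) * (s * 1) - 2 * t * (s * x) ^ 2 +
      t * (s * x) * (s * 1) = (s ^ 2 * x) * (x ^ 2 - 2 * t * x + t)
    linear_combination s ^ 2 * hy
  · show (s * y) ^ 2 + (1 + t) * (s * x) ^ 2 - t * (s * x) * (s * 1) -
      t * (s * x) * (s * 1) = (s ^ 2 * x) * (x ^ 2 - t)
    linear_combination s ^ 2 * hy

private theorem vA_WR {t : ℂ} (P : LPt t) (s : ℂ) :
    WR (vA t (s * tri P 0) (s * tri P 1) (s * tri P 2)) P := by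
  rcases lpt_cases P with rfl | ⟨x, y, hh, rfl⟩
  · exact ⟨_, vA_zero s⟩
  · exact ⟨_, vA_aff hh s⟩

private theorem vO_WR {t : ℂ} (P : LPt t) (s : ℂ) :
    WR (vO t (s * tri P 0) (s * tri P 1) (s * tri P 2)) P := by
  rcases lpt_cases P with rfl | ⟨x, y, hh, rfl⟩
  · exact ⟨_, vO_zero s⟩
  · exact ⟨_, vO_aff hh s⟩

private theorem vA_map {R S : Type} [CommRing R] [CommRing S] (φ : R →+* S) (t X Y Z : R)
    (i : Fin 4) : φ (vA t X Y Z i) = vA (φ t) (φ X) (φ Y) (φ Z) i := by
  have h2 : φ 2 = 2 := map_ofNat φ 2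
  fin_cases i <;> simp [vA, h2]

private theorem vO_map {R S : Type} [CommRing R] [CommRing S] (φ : R →+* S) (t X Y Z : R)
    (i : Fin 4) : φ (vO t X Y Z i) = vO (φ t) (φ X) (φ Y) (φ Z) i := by
  have h2 : φ 2 = 2 := map_ofNat φ 2
  fin_cases i <;> simp [vO, h2]

open Classical in
/-- the vectors of polynomials, adapted to the point `q` -/
private noncomputable def vec (q : LX n) (i : Fin n) :
    Fin 4 → MvPolynomial (Option (Fin n × Fin 3)) Qb :=
  if q.P i = 0 then
    vO (MvPolynomial.X none) (MvPolynomial.X (some (i, 0))) (MvPolynomial.X (some (i, 1)))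
      (MvPolynomial.X (some (i, 2)))
  else
    vA (MvPolynomial.X none) (MvPolynomial.X (some (i, 0))) (MvPolynomial.X (some (i, 1)))
      (MvPolynomial.X (some (i, 2)))

private theorem vec_pos {q : LX n} {i : Fin n} (h : q.P i = 0) (p : LX n) (s : Fin n → ℂ) :
    (fun a => MvPolynomial.aeval (scl p s) (vec q i a)) =
      vO p.t (s i * tri (p.P i) 0) (s i * tri (p.P i) 1) (s i * tri (p.P i) 2) := by
  funext a
  have h1 : vec q i = vO (MvPolynomial.X none) (MvPolynomial.X (some (i, 0)))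
    (MvPolynomial.X (some (i, 1))) (MvPolynomial.X (some (i, 2))) := if_pos h
  rw [h1]
  have h2 := vO_map (MvPolynomial.aeval (R := Qb) (scl p s)).toRingHom (MvPolynomial.X none)
    (MvPolynomial.X (some (i, 0))) (MvPolynomial.X (some (i, 1)))
    (MvPolynomial.X (some (i, 2))) a
  simp only [AlgHom.toRingHom_eq_coe, RingHom.coe_coe, MvPolynomial.aeval_X] at h2
  rw [h2]
  rfl

private theorem vec_neg {q : LX n} {i : Fin n} (h : q.P i ≠ 0) (p : LX n) (s : Fin n → ℂ) :
    (fun a => MvPolynomial.aeval (scl p s) (vec q i a)) =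
      vA p.t (s i * tri (p.P i) 0) (s i * tri (p.P i) 1) (s i * tri (p.P i) 2) := by
  funext a
  have h1 : vec q i = vA (MvPolynomial.X none) (MvPolynomial.X (some (i, 0)))
    (MvPolynomial.X (some (i, 1))) (MvPolynomial.X (some (i, 2))) := if_neg h
  rw [h1]
  have h2 := vA_map (MvPolynomial.aeval (R := Qb) (scl p s)).toRingHom (MvPolynomial.X none)
    (MvPolynomial.X (some (i, 0))) (MvPolynomial.X (some (i, 1)))
    (MvPolynomial.X (some (i, 2))) a
  simp only [AlgHom.toRingHom_eq_coe, RingHom.coe_coe, MvPolynomial.aeval_X] at h2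
  rw [h2]
  rfl

private theorem vec_WR (q p : LX n) (s : Fin n → ℂ) (i : Fin n) :
    WR (fun a => MvPolynomial.aeval (scl p s) (vec q i a)) (p.P i) := by
  by_cases h : q.P i = 0
  · rw [vec_pos h]
    exact vO_WR _ _
  · rw [vec_neg h]
    exact vA_WR _ _

private theorem vec_ne (q : LX n) (i : Fin n) :
    ∃ c : ℂ, c ≠ 0 ∧ (fun a => MvPolynomial.aeval (scl q 1) (vec q i a)) = c • rp (q.P i) := by
  by_cases h : q.P i = 0
  · rw [vec_pos h, h]
    exact ⟨_, pow_ne_zero 2 one_ne_zero, vO_zero _⟩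
  · rw [vec_neg h]
    rcases lpt_cases (q.P i) with h1 | ⟨x, y, hh, h1⟩
    · exact absurd h1 h
    · rw [h1]
      exact ⟨_, pow_ne_zero 2 one_ne_zero, vA_aff hh _⟩

/-! ### the relations -/

/-- `St_B1` with variable parameters -/
private theorem rel_B1 (hB : St_B1) (q : LX n) (m : Fin n → ℤ) :
    ∃ g : Fin 4 → MvPolynomial (Option (Fin n × Fin 3)) Qb,
      (∃ c : ℂ, c ≠ 0 ∧
        (fun i => MvPolynomial.aeval (scl q 1) (g i)) = c • rp (cb q.P m)) ∧
      ∀ (p : LX n) (s : Fin n → ℂ),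
        WR (fun i => MvPolynomial.aeval (scl p s) (g i)) (cb p.P m) := by
  have key := hB (Option (Fin n × Fin 3)) (Fin n) (MvPolynomial.X none) (vec q) ℂ (scl q 1)
  have key' : ∀ τ : ℂ, MvPolynomial.aeval (scl q 1)
        (MvPolynomial.X none : MvPolynomial (Option (Fin n × Fin 3)) Qb) = τ → τ ≠ 0 → τ ≠ 1 →
      ∀ P₀ : Fin n → LPt τ, (∀ ν, ∃ c : ℂ, c ≠ 0 ∧
        (fun a => MvPolynomial.aeval (scl q 1) (vec q ν a)) = c • rp (P₀ ν)) →
      ∃ g : Fin 4 → MvPolynomial (Option (Fin n × Fin 3)) Qb,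
        (∃ c : ℂ, c ≠ 0 ∧ (fun i => MvPolynomial.aeval (scl q 1) (g i)) = c • rp (cb P₀ m)) ∧
        ∀ (p : LX n) (s : Fin n → ℂ) (τ' : ℂ), MvPolynomial.aeval (scl p s)
          (MvPolynomial.X none : MvPolynomial (Option (Fin n × Fin 3)) Qb) = τ' →
          τ' ≠ 0 → τ' ≠ 1 → ∀ P : Fin n → LPt τ',
          (∀ ν, WR (fun a => MvPolynomial.aeval (scl p s) (vec q ν a)) (P ν)) →
          WR (fun i => MvPolynomial.aeval (scl p s) (g i)) (cb P m) := by
    rintro τ rfl h0 h1 P₀ hP₀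
    obtain ⟨G, C, -, hG1, hG2⟩ := key h0 h1 P₀ hP₀
    refine ⟨G m, hG1 m, ?_⟩
    rintro p s τ' rfl h0' h1' P hP
    exact hG2 ℂ (scl p s) h0' h1' P hP m
  obtain ⟨g, hg1, hg2⟩ := key' q.t (by rw [MvPolynomial.aeval_X]; rfl) q.t0 q.t1 q.P (vec_ne q)
  refine ⟨g, hg1, fun p s => ?_⟩
  exact hg2 p s p.t (by rw [MvPolynomial.aeval_X]; rfl) p.t0 p.t1 p.P (vec_WR q p s)

private theorem rel_map (g : MvPolynomial (Option (Fin n × Fin 3)) Qb)
    (z : Option (Fin n × Fin 3) → ℂ) :
    MvPolynomial.eval z (MvPolynomial.map (algebraMap Qb ℂ) g) = MvPolynomial.aeval z g := by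
  rw [MvPolynomial.eval_map]
  rfl

private theorem rel_coeff (g : MvPolynomial (Option (Fin n × Fin 3)) Qb) (d : Fin n →₀ ℕ)
    (e : Option (Fin n × Fin 3) →₀ ℕ) :
    (cmpn (MvPolynomial.map (algebraMap Qb ℂ) g) d).coeff e ∈ kQ := by
  classical
  rw [cmpn_coeff]
  split_ifs with h
  · rw [MvPolynomial.coeff_map]
    exact ⟨_, rfl⟩
  · exact zero_mem _

end


/-! ### the maps -/

section

variable {n : ℕ}

/-- the triple from the Jacobi coordinates, away from the origin -/
private noncomputable def uA {R : Type} [CommRing R] (t : R) (X : Fin 4 → R) : Fin 3 → R :=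
  ![t * (X 2 - X 1), t * (1 - t) * X 0, X 2 - X 1 - (1 - t) * (X 3 - X 1)]

/-- the triple from the Jacobi coordinates, near the origin -/
private noncomputable def uO {R : Type} [CommRing R] (t : R) (X : Fin 4 → R) : Fin 3 → R :=
  ![t * X 0 * (X 3 + X 2 - t * X 3 - t * X 1), t * (1 - t) * ((X 3 + X 1) * (X 3 + X 2)),
    t * X 0 * (X 2 - X 1)]

private theorem uA_map {R S : Type} [CommRing R] [CommRing S] (φ : R →+* S) (t : R)
    (X : Fin 4 → R) (i : Fin 3) : φ (uA t X i) = uA (φ t) (fun a => φ (X a)) i := by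
  fin_cases i <;> simp [uA]

private theorem uO_map {R S : Type} [CommRing R] [CommRing S] (φ : R →+* S) (t : R)
    (X : Fin 4 → R) (i : Fin 3) : φ (uO t X i) = uO (φ t) (fun a => φ (X a)) i := by
  fin_cases i <;> simp [uO]

private theorem uA_rp {t : ℂ} (h0 : t ≠ 0) (h1 : t ≠ 1) (c : ℂ) (P : LPt t) :
    ∃ l : ℂ, uA t (c • rp P) = l • tri P ∧ (c ≠ 0 → P ≠ 0 → l ≠ 0) := by
  rcases lpt_cases P with rfl | ⟨x, y, hh, rfl⟩
  · refine ⟨0, ?_, fun _ h => absurd rfl h⟩
    have e3 : rp (0 : LPt t) = jo ℂ := rfl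
    rw [e3, zero_smul]
    funext i
    fin_cases i <;> simp [uA, jo]
  · refine ⟨2 * t * (1 - t) * c, ?_, fun hc _ => ?_⟩
    · have e3 : rp (laff hh) = jx t x y := rfl
      rw [e3, tri_laff]
      funext i
      fin_cases i
      · show t * (c * (x ^ 2 - 2 * t * x + t) - c * (x ^ 2 - 2 * x + t)) =
          2 * t * (1 - t) * c * x
        ring
      · show t * (1 - t) * (c * (2 * y)) = 2 * t * (1 - t) * c * y
        ring
      · show c * (x ^ 2 - 2 * t * x + t) - c * (x ^ 2 - 2 * x + t) -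
          (1 - t) * (c * (x ^ 2 - t) - c * (x ^ 2 - 2 * x + t)) = 2 * t * (1 - t) * c * 1
        ring
    · have h2 : (1 - t) ≠ 0 := sub_ne_zero.2 (Ne.symm h1)
      exact mul_ne_zero (mul_ne_zero (mul_ne_zero two_ne_zero h0) h2) hc

private theorem uO_rp {t : ℂ} (h0 : t ≠ 0) (h1 : t ≠ 1) (c : ℂ) (P : LPt t) :
    ∃ l : ℂ, uO t (c • rp P) = l • tri P ∧ (c ≠ 0 → P = 0 → l ≠ 0) := by
  rcases lpt_cases P with rfl | ⟨x, y, hh, rfl⟩
  · refine ⟨4 * t * (1 - t) * c ^ 2, ?_, fun hc _ => ?_⟩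
    · have e3 : rp (0 : LPt t) = jo ℂ := rfl
      rw [e3, tri_zero]
      funext i
      fin_cases i
      · show t * (c * 0) * (c * 1 + c * 1 - t * (c * 1) - t * (c * 1)) =
          4 * t * (1 - t) * c ^ 2 * 0
        ring
      · show t * (1 - t) * ((c * 1 + c * 1) * (c * 1 + c * 1)) = 4 * t * (1 - t) * c ^ 2 * 1
        ring
      · show t * (c * 0) * (c * 1 - c * 1) = 4 * t * (1 - t) * c ^ 2 * 0
        ring
    · have h2 : (1 - t) ≠ 0 := sub_ne_zero.2 (Ne.symm h1)
      exact mul_ne_zero (mul_ne_zero (mul_ne_zero (by norm_num) h0) h2) (pow_ne_zero 2 hc)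
  · refine ⟨4 * t * (1 - t) * c ^ 2 * (x * y), ?_, fun _ h => ?_⟩
    · have e3 : rp (laff hh) = jx t x y := rfl
      have hy := (leg_eq_iff x y).1 hh.1
      rw [e3, tri_laff]
      funext i
      fin_cases i
      · show t * (c * (2 * y)) * (c * (x ^ 2 - t) + c * (x ^ 2 - 2 * t * x + t) -
          t * (c * (x ^ 2 - t)) - t * (c * (x ^ 2 - 2 * x + t))) =
          4 * t * (1 - t) * c ^ 2 * (x * y) * x
        ring
      · show t * (1 - t) * ((c * (x ^ 2 - t) + c * (x ^ 2 - 2 * x + t)) *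
          (c * (x ^ 2 - t) + c * (x ^ 2 - 2 * t * x + t))) =
          4 * t * (1 - t) * c ^ 2 * (x * y) * y
        linear_combination (-(4 * t * (1 - t) * c ^ 2 * x)) * hy
      · show t * (c * (2 * y)) * (c * (x ^ 2 - 2 * t * x + t) - c * (x ^ 2 - 2 * x + t)) =
          4 * t * (1 - t) * c ^ 2 * (x * y) * 1
        ring
    · exfalso
      have h2 := congrFun (congrArg tri h) 2
      rw [tri_laff, tri_zero] at h2
      exact one_ne_zero h2

/-- the value at a scaled point -/
private theorem scl_hom {F : MvPolynomial (Option (Fin n × Fin 3)) ℂ} {d : Fin n → ℕ}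
    (hd : ∀ m ∈ F.support, ∀ i, ∑ j, m (some (i, j)) = d i) (p : LX n) (s : Fin n → ℂ) :
    MvPolynomial.eval (scl p s) F = (∏ i, s i ^ d i) * xval p F := by
  unfold xval
  rw [← scl_one, MvPolynomial.eval_eq', MvPolynomial.eval_eq', Finset.mul_sum]
  refine Finset.sum_congr rfl fun m hm => ?_
  rw [scl_prod p s m]
  have h1 : ∀ i, wt m i = d i := fun i => hd m hm i
  simp only [h1]
  ring

end

/-- [IMG] preimages of closed sets over `k` are closed sets over `k` -/
theorem thm_IMG (hB : St_B1) {n r : ℕ} (e : Fin r → Fin n → ℤ) {k : Subfield ℂ} (hk : kQ ≤ k)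
    {Z : Set (LX r)} (hZ : ClO k Z) : ClO k (img e ⁻¹' Z) := by
  classical
  obtain ⟨S, hS, rfl⟩ := hZ
  refine ⟨{H | (XHom H ∧ ∀ m, H.coeff m ∈ k) ∧
    ∀ p : LX n, (∀ F ∈ S, xval (img e p) F = 0) → xval p H = 0}, fun H hH => hH.1, ?_⟩
  ext q
  constructor
  · intro hq H hH
    exact hH.2 q hq
  · intro hq F hF
    by_contra hne
    obtain ⟨⟨d, hd⟩, hFk⟩ := hS F hF
    choose g hg1 hg2 using fun i => rel_B1 hB q (e i)
    let u : Fin r → Fin 3 → MvPolynomial (Option (Fin n × Fin 3)) ℂ := fun i =>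
      if cb q.P (e i) = 0 then uO (MvPolynomial.X none) (fun a => (g i a).map (algebraMap Qb ℂ))
      else uA (MvPolynomial.X none) (fun a => (g i a).map (algebraMap Qb ℂ))
    have hu : ∀ (p : LX n) (s : Fin n → ℂ) (i : Fin r) (c : ℂ),
        (fun a => MvPolynomial.aeval (scl p s) (g i a)) = c • rp (cb p.P (e i)) →
        ∃ l : ℂ, (fun a => MvPolynomial.eval (scl p s) (u i a)) = l • tri (cb p.P (e i)) ∧
          (c ≠ 0 → (cb q.P (e i) = 0 ↔ cb p.P (e i) = 0) → l ≠ 0) := by
      intro p s i c hc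
      by_cases hi : cb q.P (e i) = 0
      · obtain ⟨l, h1, h2⟩ := uO_rp p.t0 p.t1 c (cb p.P (e i))
        refine ⟨l, ?_, fun h3 h4 => h2 h3 (h4.1 hi)⟩
        rw [← h1, ← hc]
        funext a
        have h3 : u i = uO (MvPolynomial.X none) (fun a => (g i a).map (algebraMap Qb ℂ)) :=
          if_pos hi
        rw [h3, uO_map, MvPolynomial.eval_X]
        simp only [rel_map]
        rfl
      · obtain ⟨l, h1, h2⟩ := uA_rp p.t0 p.t1 c (cb p.P (e i))
        refine ⟨l, ?_, fun h3 h4 => h2 h3 (fun h => hi (h4.2 h))⟩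
        rw [← h1, ← hc]
        funext a
        have h3 : u i = uA (MvPolynomial.X none) (fun a => (g i a).map (algebraMap Qb ℂ)) :=
          if_neg hi
        rw [h3, uA_map, MvPolynomial.eval_X]
        simp only [rel_map]
        rfl
    let w : Option (Fin r × Fin 3) → MvPolynomial (Option (Fin n × Fin 3)) ℂ := fun o =>
      o.elim (MvPolynomial.X none) fun a => u a.1 a.2
    let H := MvPolynomial.bind₁ w F
    have hH : ∀ (p : LX n) (s : Fin n → ℂ), ∃ l : Fin r → ℂ,
        MvPolynomial.eval (scl p s) H = (∏ i, l i ^ d i) * xval (img e p) F ∧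
        (p = q → s = 1 → ∀ i, l i ≠ 0) := by
      intro p s
      choose c hc using fun i => hg2 i p s
      have h1 : ∀ i, ∃ c' : ℂ, (fun a => MvPolynomial.aeval (scl p s) (g i a)) =
          c' • rp (cb p.P (e i)) ∧ (p = q → s = 1 → c' ≠ 0) := by
        intro i
        by_cases h : p = q ∧ s = 1
        · obtain ⟨rfl, rfl⟩ := h
          obtain ⟨c', h2, h3⟩ := hg1 i
          exact ⟨c', h3, fun _ _ => h2⟩
        · exact ⟨c i, hc i, fun h2 h3 => absurd ⟨h2, h3⟩ h⟩
      choose c' h2 h3 using h1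
      choose l h4 h5 using fun i => hu p s i (c' i) (h2 i)
      refine ⟨l, ?_, ?_⟩
      · rw [← scl_hom hd (img e p) l]
        show MvPolynomial.eval (scl p s) (MvPolynomial.bind₁ w F) = _
        have h6 : MvPolynomial.eval (scl p s) (MvPolynomial.bind₁ w F) =
            MvPolynomial.eval (fun o => MvPolynomial.eval (scl p s) (w o)) F := by
          have := MvPolynomial.eval₂Hom_bind₁ (RingHom.id ℂ) (scl p s) w F
          exact this
        rw [h6]
        congr 2
        funext o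
        rcases o with _ | ⟨i, a⟩
        · show MvPolynomial.eval (scl p s) (MvPolynomial.X none) = _
          rw [MvPolynomial.eval_X]
          rfl
        · exact congrFun (h4 i) a
      · rintro rfl rfl i
        exact h5 i (h3 i rfl rfl) Iff.rfl
    have hHk : H ∈ LOC_R k _ := by
      refine LOC_bind (LOC_mem.2 hFk) ?_
      have hX : ∀ o, (MvPolynomial.X o : MvPolynomial (Option (Fin n × Fin 3)) ℂ) ∈
          LOC_R k (Option (Fin n × Fin 3)) := fun o => LOC_X o
      have hG : ∀ i a, (g i a).map (algebraMap Qb ℂ) ∈ LOC_R k (Option (Fin n × Fin 3)) := by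
        intro i a
        refine LOC_mem.2 fun m => hk ?_
        rw [MvPolynomial.coeff_map]
        exact ⟨_, rfl⟩
      rintro (_ | ⟨i, a⟩)
      · exact hX none
      · show u i a ∈ _
        have h1 := one_mem (LOC_R k (Option (Fin n × Fin 3)))
        by_cases hi : cb q.P (e i) = 0
        · have h3 : u i = uO (MvPolynomial.X none) (fun a => (g i a).map (algebraMap Qb ℂ)) :=
            if_pos hi
          rw [h3]
          fin_cases a
          · exact mul_mem (mul_mem (hX _) (hG _ _)) (sub_mem (sub_mem (add_mem (hG _ _) (hG _ _))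
              (mul_mem (hX _) (hG _ _))) (mul_mem (hX _) (hG _ _)))
          · exact mul_mem (mul_mem (hX _) (sub_mem h1 (hX _)))
              (mul_mem (add_mem (hG _ _) (hG _ _)) (add_mem (hG _ _) (hG _ _)))
          · exact mul_mem (mul_mem (hX _) (hG _ _)) (sub_mem (hG _ _) (hG _ _))
        · have h3 : u i = uA (MvPolynomial.X none) (fun a => (g i a).map (algebraMap Qb ℂ)) :=
            if_neg hi
          rw [h3]
          fin_cases a
          · exact mul_mem (hX _) (sub_mem (hG _ _) (hG _ _))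
          · exact mul_mem (mul_mem (hX _) (sub_mem h1 (hX _))) (hG _ _)
          · exact sub_mem (sub_mem (hG _ _) (hG _ _))
              (mul_mem (sub_mem h1 (hX _)) (sub_mem (hG _ _) (hG _ _)))
    obtain ⟨l, h1, h2⟩ := hH q 1
    have h3 : MvPolynomial.eval (scl q 1) H ≠ 0 := by
      rw [h1]
      exact mul_ne_zero (Finset.prod_ne_zero_iff.2 fun i _ => pow_ne_zero _ (h2 rfl rfl i)) hne
    obtain ⟨d', h4⟩ := cmpn_ne H q h3
    refine h4 (hq _ ⟨⟨cmpn_hom _ d', fun m => ?_⟩, fun p hp => ?_⟩)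
    · rw [cmpn_coeff]
      split_ifs with h
      · exact LOC_mem.1 hHk m
      · exact zero_mem _
    · refine cmpn_zero _ p (fun s => ?_) d'
      obtain ⟨l', h5, -⟩ := hH p s
      rw [h5, hp F hF, mul_zero]

end Pool.Agent.ZR
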