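import Pool.Agent.ZR.OA.St
import Pool.Agent.ZR.OA.IMG

/-!
# ZR, block OA, module DGD: the inequalities of `Degen` in terms of `dX`
-/

set_option autoImplicit false

open scoped BigOperators
open Filter Topology

namespace Pool.Agent.ZR

open Pool.Agent.ZPE (IsTorCoset IsSubvar IsComp kdim)

/-- `img e` is continuous -/
theorem continuous_img (hB : St_B1) {n r : ℕ} (e : Fin r → Fin n → ℤ) :
    Continuous (img e : LX n → LX r) := by
  rw [continuous_iff_isClosed]
  intro Z hZ
  obtain ⟨S, hS, hZS⟩ := LX_isClosed_iff.1 hZ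
  have h3 : ClO (⊤ : Subfield ℂ) Z := ⟨S, fun F hF => ⟨hS F hF, fun _ => trivial⟩, hZS⟩
  obtain ⟨S', hS', hZ'⟩ := thm_IMG hB e (le_top : kQ ≤ ⊤) h3
  exact LX_isClosed_iff.2 ⟨S', fun F hF => (hS' F hF).1, hZ'⟩

/-- the closure of the image of a subvariety is a subvariety -/
theorem IsSubvar.closure_img (hB : St_B1) {n r : ℕ} (e : Fin r → Fin n → ℤ) {W : Set (LX n)}
    (hW : IsSubvar W) : IsSubvar (closure (img e '' W)) :=
  ⟨isClosed_closure, (hW.2.image (img e) (continuous_img hB e).continuousOn).closure⟩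

/-- the inequalities of `Degen` in terms of `dX` -/
theorem thm_DGD (hB : St_B1) (hV : St_VAR) (hQ : St_QCL) : St_DGD := by
  intro n W m r e hW hfib he h1 h2 h5
  have hq := (hQ n W hW).1
  have h3 := (hV n).2.1 W hW
  have h3' := (hV n).2.1 _ hq
  have h4 := (hV r).2.1 _ (IsSubvar.closure_img hB e hq)
  refine ⟨hW, hfib, r, e, he, ?_, ?_, ?_⟩
  · rw [h3', h4]
    exact_mod_cast h1
  · rw [h3', h4]
    exact_mod_cast h2
  · rw [h3, h4]
    exact_mod_cast h5

end Pool.Agent.ZR
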