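import Pool.Agent.ZR.T3.Defs

/-!
# T4: the fibre powers of the Legendre family, every defect outside the degenerate subvarieties

Definitions and the final statement `ThmT4` (helper10).
-/

set_option autoImplicit false

open scoped BigOperators

namespace Pool.Agent.ZR

open Pool.Agent.ZPE (IsSubvar IsComp kdim)

/-- The map `LX n → LX r` given by `r` integral combinations of the points:
`(t, P) ↦ (t, ∑ e_i.P)`. -/
noncomputable def img {n r : ℕ} (e : Fin r → Fin n → ℤ) (p : LX n) : LX r where
  t := p.t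
  t0 := p.t0
  t1 := p.t1
  P := fun i => cb p.P (e i)

/-- `Z` is defined over the algebraic numbers: it is the set of the common zeros of polynomials
with algebraic coefficients. -/
def IsAlg {n : ℕ} (Z : Set (LX n)) : Prop :=
  ∃ S : Set (MvPolynomial (Option (Fin n × Fin 3)) ℂ),
    (∀ F ∈ S, XHom F ∧ ∀ e, IsAlgebraic ℚ (F.coeff e)) ∧ Z = {p | ∀ F ∈ S, xval p F = 0}

/-- The smallest closed set defined over the algebraic numbers which contains `V`. -/
def qcl {n : ℕ} (V : Set (LX n)) : Set (LX n) := ⋂₀ {Z | IsAlg Z ∧ V ⊆ Z}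

/-- The degenerate subvarieties `W` (of level `m`).  If `W` is defined over the algebraic numbers
(`qcl W = W`): `W` is in no fibre, and for some `r ≥ 0` and `r` independent integral combinations `e`
the map `img e : W → LX r` has fibres of dimension at least `max 1 (n - r - m)`: so a general point of
`W` is in a subvariety `B` of `W` of positive dimension which is contained in a coset `K`, of
dimension `n - r`, of an abelian subvariety of a fibre, and the codimension of `B` in `K` is at most
`m`.  In general the fibres of `img e : qcl W → LX r` have dimension at least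
`max 1 (n - r - m) (n - r - m - 1 + c)`, where `c = dim (qcl W) - dim W`. -/
def Degen {n : ℕ} (m : ℕ) (W : Set (LX n)) : Prop :=
  IsSubvar W ∧ (∀ b, ¬ W ⊆ fib n b) ∧
    ∃ (r : ℕ) (e : Fin r → Fin n → ℤ), LinearIndependent ℤ e ∧
      kdim (closure (img e '' qcl W)) + 1 ≤ kdim (qcl W) ∧
      kdim (closure (img e '' qcl W)) + n ≤ kdim (qcl W) + r + m ∧
      kdim (closure (img e '' qcl W)) + n ≤ kdim W + r + m + 1

/-- THEOREM T4: `ThmT3` with one more class of subvarieties in the finite sets: for all `δ` only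
finitely many maximal subvarieties of `V` of defect at most `δ` are contained in no degenerate
subvariety of `V` of level `δ - 2`; only finitely many maximal atypical subvarieties for `V` in
`T` are contained in no degenerate subvariety of `V` of level `m`, where `m + 3` is the
codimension of `V` in `T`. -/
def ThmT4 : Prop :=
  ∀ (n : ℕ) (V : Set (LX n)), IsSubvar V → ∃ F : Set ℂ, F.Finite ∧ (∀ b ∈ F, IsCMpt b) ∧
    ∀ F₁ : Set ℂ, F ⊆ F₁ → F₁.Finite → (∀ b ∈ F₁, IsCMpt b) →
      (∀ δ : ℕ, {A | Maximal (SubDef F₁ V δ) A ∧ (δ ≤ 2 ∨ (∀ b ∉ F₁, ¬ A ⊆ fib n b) ∨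
            ∀ W, Degen (δ - 2) W → W ⊆ V → ¬ A ⊆ W)}.Finite ∧
        ∀ A, SubDef F₁ V δ A → ∃ B, A ⊆ B ∧ Maximal (SubDef F₁ V δ) B) ∧
      ∀ T : Set (LX n), IsFlat T → V ⊆ T →
        {A | Maximal (IsAtypX F₁ V T) A ∧ (kdim T ≤ kdim V + 3 ∨ DefLE F₁ 2 A ∨
          (∀ b ∉ F₁, ¬ A ⊆ fib n b) ∨
            ∃ m : ℕ, kdim T = kdim V + m + 3 ∧ ∀ W, Degen m W → W ⊆ V → ¬ A ⊆ W)}.Finite ∧
        ∀ A, IsAtypX F₁ V T A → ∃ B, A ⊆ B ∧ Maximal (IsAtypX F₁ V T) B

end Pool.Agent.ZR
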