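import Pool.Agent.ZR.OA.Defs
import Pool.Agent.ZR.T3.Res

/-!
# T4: the explicit form of the theorem
-/

set_option autoImplicit false

namespace Pool.Agent.ZR

open Pool.Agent.ZPE (IsSubvar IsComp kdim)

/-- The explicit form of `ThmT4`. -/
theorem res4_of (hT : ThmT4) (n : ℕ) (V : Set (LX n)) (hV : IsSubvar V) :
    ∃ F : Set ℂ, F.Finite ∧ (∀ b ∈ F, IsCMpt b) ∧
      ∀ F₁ : Set ℂ, F ⊆ F₁ → F₁.Finite → (∀ b ∈ F₁, IsCMpt b) →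
        (∀ δ : ℕ,
          (δ ≤ 2 → {A | Maximal (SubDef F₁ V δ) A}.Finite ∧
            ∃ 𝓕 : Set (Set (LX n)), 𝓕.Finite ∧ (∀ A ∈ 𝓕, SubDef F₁ V δ A) ∧
              ⋃₀ {A | SubDef F₁ V δ A} = ⋃₀ 𝓕) ∧
          {A | Maximal (SubDef F₁ V δ) A ∧ ((∀ b ∉ F₁, ¬ A ⊆ fib n b) ∨
            ∀ W, Degen (δ - 2) W → W ⊆ V → ¬ A ⊆ W)}.Finite ∧
          ∀ A, SubDef F₁ V δ A → ∃ B, A ⊆ B ∧ Maximal (SubDef F₁ V δ) B) ∧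
        ∀ T : Set (LX n), IsFlat T → V ⊆ T →
          (kdim T ≤ kdim V + 3 → {A | Maximal (IsAtypX F₁ V T) A}.Finite ∧
            ∃ 𝓕 : Set (Set (LX n)), 𝓕.Finite ∧ (∀ A ∈ 𝓕, IsAtypX F₁ V T A) ∧
              ⋃₀ {A | IsAtypX F₁ V T A} = ⋃₀ 𝓕) ∧
          {A | Maximal (IsAtypX F₁ V T) A ∧
            (DefLE F₁ 2 A ∨ (∀ b ∉ F₁, ¬ A ⊆ fib n b) ∨
              ∃ m : ℕ, kdim T = kdim V + m + 3 ∧
                ∀ W, Degen m W → W ⊆ V → ¬ A ⊆ W)}.Finite ∧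
          ∀ A, IsAtypX F₁ V T A → ∃ B, A ⊆ B ∧ Maximal (IsAtypX F₁ V T) B := by
  obtain ⟨F, hF, hCM, h⟩ := hT n V hV
  refine ⟨F, hF, hCM, fun F₁ h1 h2 h3 => ?_⟩
  obtain ⟨ha, hb⟩ := h F₁ h1 h2 h3
  refine ⟨fun δ => ?_, fun T hTf hVT => ?_⟩
  · obtain ⟨h4, h5⟩ := ha δ
    refine ⟨fun hδ => ?_, h4.subset fun A hA => ⟨hA.1, Or.inr hA.2⟩, h5⟩
    have h6 : {A | Maximal (SubDef F₁ V δ) A}.Finite :=
      h4.subset fun A hA => ⟨hA, Or.inl hδ⟩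
    exact ⟨h6, res_union h6 h5⟩
  · obtain ⟨h4, h5⟩ := hb T hTf hVT
    refine ⟨fun hδ => ?_, h4.subset fun A hA => ⟨hA.1, Or.inr hA.2⟩, h5⟩
    have h6 : {A | Maximal (IsAtypX F₁ V T) A}.Finite :=
      h4.subset fun A hA => ⟨hA, Or.inl hδ⟩
    exact ⟨h6, res_union h6 h5⟩

end Pool.Agent.ZR
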