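import Pool.Agent.ZR.OA.Fin
import Pool.Agent.ZR.OA.Res

/-!
# T4: surfaces without degenerate subvarieties
-/

set_option autoImplicit false

namespace Pool.Agent.ZR

open Pool.Agent.ZPE (IsTorCoset IsSubvar IsComp kdim)

/-- A degenerate subvariety of level `m` of a surface `V` over the algebraic numbers: `r` independent
integral combinations, `r ≥ n - m - 1`, are constant on the (components of the) fibres of `V`. -/
theorem surface_degen {n : ℕ} {V : Set (LX n)} (hV : IsSubvar V) (hA : IsAlg V)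
    (h2 : kdim V = 2) {m : ℕ} {W : Set (LX n)} (hW : Degen m W) (hWV : W ⊆ V) :
    ∃ (r : ℕ) (e : Fin r → Fin n → ℤ), LinearIndependent ℤ e ∧ n ≤ r + m + 1 ∧
      kdim (closure (img e '' V)) = 1 := by
  have hFOD : St_FOD := thm_FOD thm_VAR
  have hQCL : St_QCL := thm_QCL thm_ALQ thm_LOC hFOD thm_GEN
  obtain ⟨hWs, hWf, r, e, he, h3, h4, -⟩ := hW
  obtain ⟨hZ, -, hWZ, -⟩ := hQCL n W hWs
  have hZV : qcl W ⊆ V := Set.sInter_subset_of_mem ⟨hA, hWV⟩
  have hI : IsSubvar (closure (img e '' qcl W)) := IsSubvar.closure_img thm_B1 e hZ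
  have hkV := (thm_VAR n).2.1 V hV
  have hkZ := (thm_VAR n).2.1 _ hZ
  have hkI := (thm_VAR r).2.1 _ hI
  have hdV : dX V = 2 := by
    rw [h2] at hkV
    exact_mod_cast hkV.symm
  rw [hkI, hkZ] at h3 h4
  have h3' : dX (closure (img e '' qcl W)) + 1 ≤ dX (qcl W) := by exact_mod_cast h3
  have h4' : dX (closure (img e '' qcl W)) + n ≤ dX (qcl W) + r + m := by exact_mod_cast h4
  obtain ⟨h5, h6⟩ := (thm_VAR n).2.2.1 _ _ hZ hV hZV
  have h7 : 1 ≤ dX (closure (img e '' qcl W)) := by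
    by_contra hcon
    have h8 : dX (closure (img e '' qcl W)) = 0 := by omega
    obtain ⟨p, hp⟩ := hI.2.1
    have hcl : IsSubvar (closure {p} : Set (LX r)) :=
      ⟨isClosed_closure, isIrreducible_singleton.closure⟩
    have h9 := ((thm_VAR r).2.2.1 _ _ hcl hI
      (closure_minimal (Set.singleton_subset_iff.2 hp) hI.1)).2 (by omega)
    have hfc : IsClosed (fib r p.t) := by
      have := (thm_INC r p.t p.t0 p.t1)
      rw [← this.2.1]
      exact this.1.isClosed_range
    have h10 : closure {p} ⊆ fib r p.t :=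
      closure_minimal (Set.singleton_subset_iff.2 rfl) hfc
    refine hWf p.t fun w hw => ?_
    have h11 : img e w ∈ fib r p.t := by
      apply h10
      rw [h9]
      exact subset_closure ⟨w, hWZ hw, rfl⟩
    exact h11
  have h8 : dX (qcl W) = 2 := by omega
  have h9 : qcl W = V := h6 (by omega)
  refine ⟨r, e, he, by omega, ?_⟩
  rw [← h9, hkI]
  have h10 : dX (closure (img e '' qcl W)) = 1 := by omega
  rw [h10]
  rfl

/-- The full statement for the surfaces `V` over the algebraic numbers such that no three independent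
integral combinations are constant on the fibres of `V` over the parameter. -/
theorem surface_full (n : ℕ) (V : Set (LX n)) (hV : IsSubvar V) (hA : IsAlg V)
    (h2 : kdim V = 2) (h3 : ∀ (r : ℕ) (e : Fin r → Fin n → ℤ), 3 ≤ r → LinearIndependent ℤ e →
      kdim (closure (img e '' V)) ≠ 1) :
    ∃ F : Set ℂ, F.Finite ∧ (∀ b ∈ F, IsCMpt b) ∧
      ∀ F₁ : Set ℂ, F ⊆ F₁ → F₁.Finite → (∀ b ∈ F₁, IsCMpt b) →
        ∀ T : Set (LX n), IsFlat T → V ⊆ T →
          {A | Maximal (IsAtypX F₁ V T) A}.Finite ∧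
            ∃ 𝓕 : Set (Set (LX n)), 𝓕.Finite ∧ (∀ A ∈ 𝓕, IsAtypX F₁ V T A) ∧
              ⋃₀ {A | IsAtypX F₁ V T A} = ⋃₀ 𝓕 := by
  obtain ⟨F, hF, hCM, h⟩ := thm_T4 n V hV
  refine ⟨F, hF, hCM, fun F₁ h4 h5 h6 T hT hVT => ?_⟩
  obtain ⟨h7, h8⟩ := (h F₁ h4 h5 h6).2 T hT hVT
  have hU : IsSubvar (Set.univ : Set (LX n)) ∧ dX (Set.univ : Set (LX n)) = n + 1 :=
    thm_IRR thm_LOC n
  obtain ⟨s, M, hM, hTM⟩ := id hT
  have hTs : IsSubvar T := hTM.prop.1
  have h9 := ((thm_VAR n).2.2.1 _ _ hTs hU.1 (Set.subset_univ _)).1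
  have h10 : {A | Maximal (IsAtypX F₁ V T) A}.Finite := by
    refine h7.subset fun B hB => ⟨hB, ?_⟩
    by_cases hc : kdim T ≤ kdim V + 3
    · exact Or.inl hc
    · refine Or.inr (Or.inr (Or.inr ?_))
      have hkT := (thm_VAR n).2.1 _ hTs
      have h11 : ¬ dX T ≤ 5 := by
        intro h12
        apply hc
        rw [hkT, h2]
        exact_mod_cast h12
      refine ⟨dX T - 5, ?_, fun W hW hWV _ => ?_⟩
      · rw [hkT, h2]
        have : dX T = 2 + (dX T - 5) + 3 := by omega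
        exact_mod_cast this
      · obtain ⟨r, e, he, h12, h13⟩ := surface_degen hV hA h2 hW hWV
        exact h3 r e (by omega) he h13
  exact ⟨h10, res_union h10 h8⟩

end Pool.Agent.ZR
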