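import Pool.Agent.ZR.OA.St
import Pool.Agent.ZR.T3.FIA

/-!
# OA, [FIG]: finiteness of the maximal subvarieties, also of those in no degenerate subvariety
-/

set_option autoImplicit false

open scoped BigOperators
open Filter Topology

namespace Pool.Agent.ZR

open Pool.Agent.ZPE (IsTorCoset IsSubvar IsComp kdim)

/-- the whole space is flat -/
theorem FIG_univ (hIRR : St_IRR) (n : ℕ) : IsFlat (Set.univ : Set (LX n)) := by
  refine ⟨0, fun i => Fin.elim0 i, linearIndependent_empty_type, ?_⟩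
  refine ⟨⟨(hIRR n).1, ?_⟩, fun B _ _ => Set.subset_univ B⟩
  intro p _ i
  exact Fin.elim0 i

/-- [FIG] part (a) of the theorem -/
theorem thm_FIG (hVAR : St_VAR) (hIRR : St_IRR) (hVRT : St_VRT) (hVRG : St_VRG) (hHOR : St_HOR)
    (hFBN : St_FBN) (hCZX : St_CZX) (hFTC : St_FTC) (hTCX : St_TCX) : St_FIG := by
  intro hkey hkeyG n V hV
  -- the exceptional set
  set Pd : ℕ → Set (LX n) → Prop := fun δ A =>
    δ ≤ 2 ∨ ∀ W, Degen (δ - 2) W → W ⊆ V → ¬ A ⊆ W with hPd
  have hbad : ∀ δ, {b : ℂ | ∃ A, Maximal (SubDef ∅ V δ) A ∧ A ⊆ fib n b ∧ Pd δ A}.Finite := by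
    intro δ
    by_cases hδ : δ ≤ 2
    · refine (hVRT hkey n V δ hV hδ).subset ?_
      rintro b ⟨A, h1, h2, -⟩
      exact ⟨A, h1, h2⟩
    · refine (hVRG hkeyG n V δ hV (by omega)).subset ?_
      rintro b ⟨A, h1, h2, h3 | h3⟩
      · exact absurd h3 hδ
      · exact ⟨A, h1, h2, h3⟩
  refine ⟨⋃ δ ∈ Finset.range (n + 3), {b : ℂ | IsCMpt b ∧ ∃ A, Maximal (SubDef ∅ V δ) A ∧
    A ⊆ fib n b ∧ Pd δ A}, ?_, ?_, ?_⟩
  · refine Set.Finite.biUnion (Finset.finite_toSet _) fun δ _ => ?_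
    exact (hbad δ).subset fun b hb => hb.2
  · intro b hb
    simp only [Set.mem_iUnion] at hb
    obtain ⟨δ, -, h, -⟩ := hb
    exact h
  intro F₁ hF hF₁ hCM δ
  have hfibeq : ∀ (A : Set (LX n)) (b b' : ℂ), A.Nonempty → A ⊆ fib n b → A ⊆ fib n b' →
      b = b' := by
    rintro A b b' ⟨p, hp⟩ h h'
    have h1 : p.t = b := h hp
    have h2 : p.t = b' := h' hp
    rw [← h1, ← h2]
  have hmono : ∀ B, SubDef ∅ V δ B → SubDef F₁ V δ B := by
    rintro B ⟨h1, h2, S, hS, h3, h4⟩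
    refine ⟨h1, h2, S, ?_, h3, h4⟩
    rcases hS with hS | ⟨b, hb, -⟩
    · exact Or.inl hS
    · exact absurd hb (Set.notMem_empty b)
  -- from `F₁` to the empty set, if the special subvariety is flat
  have hempty : ∀ A, Maximal (SubDef F₁ V δ) A → (∀ b ∈ F₁, ¬ A ⊆ fib n b) →
      Maximal (SubDef ∅ V δ) A := by
    intro A hA hAb
    obtain ⟨⟨h1, h2, S, hS, h3, h4⟩, hmax⟩ := hA
    refine ⟨⟨h1, h2, S, ?_, h3, h4⟩, fun B hB hAB => hmax (hmono B hB) hAB⟩
    rcases hS with hS | ⟨b, hb, hS⟩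
    · exact Or.inl hS
    · exact absurd (h3.trans (hTCX n b S S hS hS).2.1) (hAb b hb)
  constructor
  · -- finiteness
    by_cases hδn : δ < n + 3
    · have hfin1 := hHOR n V δ hV
      have hfin2 : (⋃ b ∈ F₁, {A | Maximal (fun B => IsSubvar B ∧ B ⊆ V ∩ fib n b ∧
          ∃ S, IsTorIn b S ∧ B ⊆ S ∧ dX S ≤ dX B + δ) A}).Finite := by
        refine hF₁.biUnion fun b _ => ?_
        exact hCZX n b (V ∩ fib n b) δ (hV.1.inter (FIA_fib n b)) Set.inter_subset_right
      have hfin3 : (⋃ b ∈ {b : ℂ | (∃ A, Maximal (SubDef ∅ V δ) A ∧ A ⊆ fib n b ∧ Pd δ A) ∧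
          ¬ IsCMpt b}, {A | Maximal (SubDef ∅ V δ) A ∧ A ⊆ fib n b}).Finite := by
        refine ((hbad δ).subset (fun b hb => hb.1)).biUnion fun b hb => ?_
        exact hFBN n V δ b hV hb.2
      refine ((hfin1.union hfin2).union hfin3).subset ?_
      rintro A ⟨hA, hcond⟩
      by_cases hno : ∀ b, ¬ A ⊆ fib n b
      · exact Or.inl (Or.inl ⟨hempty A hA fun b _ => hno b, hno⟩)
      · push Not at hno
        obtain ⟨b, hb⟩ := hno
        by_cases hbF : b ∈ F₁
        · refine Or.inl (Or.inr (Set.mem_iUnion₂.2 ⟨b, hbF, ?_⟩))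
          obtain ⟨⟨h1, h2, S, hS, h3, h4⟩, hmax⟩ := hA
          refine ⟨⟨h1, Set.subset_inter h2 hb, ?_⟩, ?_⟩
          · rcases hS with hS | ⟨b', hb', hS⟩
            · have hSs : IsSubvar S := by
                obtain ⟨r, M, -, hc⟩ := hS
                exact hc.1.1
              obtain ⟨⟨S₁, hS₁, hAS₁, hd⟩, -⟩ := hFTC n b S A hS h1 (Set.subset_inter h3 hb)
              have h5 := (FIA_le hVAR hSs h1 δ).1 h4
              exact ⟨S₁, hS₁, hAS₁, by omega⟩
            · obtain ⟨hSs, hSf, -⟩ := hTCX n b' S S hS hS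
              have h6 := hfibeq A b b' h1.2.1 hb (h3.trans hSf)
              subst h6
              exact ⟨S, hS, h3, (FIA_le hVAR hSs h1 δ).1 h4⟩
          · rintro B ⟨hB1, hB2, S', hS', hBS', hd'⟩ hAB
            refine hmax ⟨hB1, hB2.trans Set.inter_subset_left, S', Or.inr ⟨b, hbF, hS'⟩, hBS', ?_⟩
              hAB
            exact (FIA_le hVAR (hTCX n b S' S' hS' hS').1 hB1 δ).2 hd'
        · have hPdA : Pd δ A := by
            rcases hcond with h | h | h
            · exact Or.inl h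
            · exact absurd hb (h b hbF)
            · exact Or.inr h
          have hA' : Maximal (SubDef ∅ V δ) A := by
            refine hempty A hA fun b' hb' hAb' => hbF ?_
            rw [hfibeq A b b' hA.1.1.2.1 hb hAb']
            exact hb'
          refine Or.inr (Set.mem_iUnion₂.2 ⟨b, ⟨⟨A, hA', hb, hPdA⟩, fun hcm => hbF ?_⟩, hA', hb⟩)
          refine hF (Set.mem_iUnion₂.2 ⟨δ, ?_, hcm, A, hA', hb, hPdA⟩)
          exact Finset.mem_range.2 hδn
    · refine (Set.finite_singleton V).subset ?_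
      rintro A ⟨hA, -⟩
      have hVd : SubDef F₁ V δ V := by
        refine ⟨hV, subset_rfl, Set.univ, Or.inl (FIG_univ hIRR n), Set.subset_univ V, ?_⟩
        refine (FIA_le hVAR (hIRR n).1 hV δ).2 ?_
        rw [(hIRR n).2]
        omega
      exact Set.mem_singleton_iff.2 (Set.Subset.antisymm hA.1.2.1 (hA.2 hVd hA.1.2.1))
  · intro A hA
    exact FIA_max hVAR hV (SubDef F₁ V δ) (fun B hB => ⟨hB.1, hB.2.1⟩) A hA

end Pool.Agent.ZR
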