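import Pool.Agent.ZR.OA.Defs
import Pool.Agent.ZR.T3.St

/-!
# ZR, block OA: every defect, outside the degenerate subvarieties

Frozen statements (architects helper10, helper70, helper83).  On main: `ComparisonG` (OA/CMG.lean,
helper70), `thm_IMG` (OA/IMG.lean, helper70): preimages of `ClO k` sets under `img e` are `ClO k`,
`k ≥ kQ` (so `img e` is continuous).  Each module: file `Pool/Agent/ZR/OA/<NAME>.lean`, namespace
`Pool.Agent.ZR`, theorem `thm_<NAME> : St_<NAME>` (or with the other `St_...` named in the docstring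
as hypotheses, if they are not yet proved on main).  The docstrings are complete proofs.
-/

set_option autoImplicit false

open scoped BigOperators
open Filter Topology

namespace Pool.Agent.ZR

open Pool.Agent.ZPT (Qb hQ trd rsp)
open Pool.Agent.ZPE (IsTorCoset IsSubvar IsComp kdim)

/-- all coordinates are algebraic numbers -/
def IsQPt {n : ℕ} (p : LX n) : Prop := ∀ o, vx p o ∈ kQ

/-- THE KEY LEMMA FOR SEQUENCES (helper70): `W` over the algebraic numbers, in no fibre; `q j`
algebraic points of `W` with at least `ρ` relations, generic in `W` over the algebraic numbers.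
Proof (from ComparisonG).  `p : PreF` := the family of the `q j` over `Qb`, `U` nonprincipal, with
`hQ (t (q j)) → ∞` along `U` in the second claim.  `ALG U (dX W)`, `er = relS W` (REL), `NC` (the
fibres over algebraic points), and for every `e` the germs of the coordinates of `e.P` and `t` have
transcendence degree `trd kQ (vx (img e w0)) = dX (lk kQ (img e w0))` over the constants, `w0` the
generic point of `W`; `closure (img e '' W) ⊆ lk kQ (img e w0)` (IMG).  ComparisonG (with the strict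
form for `h(t) → ∞`; if the second alternative holds there it holds here). -/
def KeySeq : Prop := ∀ (n : ℕ) (W : Set (LX n)), IsSubvar W → ClO kQ W → (∀ b, ¬ W ⊆ fib n b) →
  ∀ (q : ℕ → LX n) (ρ : ℕ), (∀ j, q j ∈ W ∧ IsQPt (q j) ∧ ρ ≤ rk (q j).rel) →
    (∀ Z, ClO kQ Z → ¬ W ⊆ Z → ∀ᶠ j in atTop, q j ∉ Z) →
    (ρ ≤ dX W + rk (relS W) ∧
      ((∀ (B : ℝ), ∀ᶠ j in atTop, ∀ s : Qb, algebraMap Qb ℂ s = (q j).t → B ≤ hQ s) →
        ρ + 1 ≤ dX W + rk (relS W))) ∨
    ∃ (r : ℕ) (e : Fin r → Fin n → ℤ), LinearIndependent ℤ e ∧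
      dX (closure (img e '' W)) + 1 ≤ dX W ∧ dX (closure (img e '' W)) + ρ + 1 ≤ dX W + r

/-- THE GENERAL KEY LEMMA (helper83): `V` over `ℂ`, in no fibre, the points with at least `ρ`
relations are dense in `V`, `ρ` larger than expected.
Proof (from KeySeq, QCL, TRB, SLI, LOC, REL, KRU, QPT).  `W := qcl V = lk kQ w0` for a very generic
`w0 ∈ V`, `relS W = relS V`, `c := dX W - dX V`.  The closed sets over `kQ` are countably many:
`Z_0, Z_1, ..`; those which do not contain `V` are those which do not contain `W`.  `w_k ∈ V` with at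
least `ρ` relations outside the `Z` of TRB and the first `k` of these.  `L_k := lk kQ w_k ⊆ W`,
`dX L_k = trd kQ (vx w_k) ≥ c` (TRB; `d0 = dX W`), `w_k.rel ≤ relS L_k` (REL).
(1) `L_k` is in a fibre for infinitely many `k` (over an algebraic point): SLI gives points
`p ∈ L_k` outside the same sets with `rk p.rel ≥ ρ + c`, QPT an algebraic point `q_k ∈ lk kQ p` outside
the same sets.  KeySeq with `ρ + c`: the first alternative gives `ρ + c ≤ dX W + rk (relS W)`, i.e.
`ρ ≤ dX V + rk (relS V)`, excluded.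
(2) `L_k` is in no fibre for almost all `k`.  If `c = 0`: QPT for `w_k`, as in (1).  If `c ≥ 1`:
`t` is transcendental at `w_k`; SPG (as in STP, the variable `none`, `g` a product of equations of
the first `k` sets which do not vanish at `w_k`) gives an algebraic point `u_k ∈ L_k`, outside these
sets, with `t(u_k) = s_k`, `hQ s_k ≥ k`.  `A` := a component of `L_k ∩ fib n s_k` containing `u_k`:
`dX A ≥ dX L_k - 1` (KRU), and `A` is not contained in these sets.  SLI for `A`: points `p ∈ A`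
outside these sets with `rk p.rel ≥ ρ + c - 1`; QPT.  KeySeq with `ρ + c - 1` and `hQ → ∞`: the
first alternative gives `ρ + c ≤ dX W + rk (relS W)`, excluded; the second one
`dX (..) + (ρ + c - 1) + 1 ≤ dX W + r = dX V + c + r`, and `c ≥ 1`. -/
def KeyG : Prop := ∀ (n : ℕ) (V : Set (LX n)), IsSubvar V → (∀ b, ¬ V ⊆ fib n b) → ∀ ρ : ℕ,
  V ⊆ closure {p | p ∈ V ∧ ρ ≤ rk p.rel} → dX V + rk (relS V) < ρ →
    ∃ (r : ℕ) (e : Fin r → Fin n → ℤ), LinearIndependent ℤ e ∧
      dX (closure (img e '' qcl V)) + 1 ≤ dX (qcl V) ∧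
      dX (closure (img e '' qcl V)) + ρ + 1 ≤ dX (qcl V) + r ∧
      dX (closure (img e '' qcl V)) + ρ ≤ dX V + r

/-- [ALQ] the two forms of `defined over the algebraic numbers`.
Proof: an algebraic complex number is in the range of `Qb`, and conversely. -/
def St_ALQ : Prop := ∀ (n : ℕ) (V : Set (LX n)), IsAlg V ↔ ClO kQ V

/-- [QCL] (from ALQ, VAR, LOC, FOD, GEN) the closure over the algebraic numbers of a subvariety.
Proof: an intersection of `ClO kQ` sets is `ClO kQ` (union of the sets of equations).  If `V` is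
defined over `k` (FOD) and `w ∈ V` with `lk k w = V` (GEN), then `qcl V = lk kQ w` (a `ClO kQ` set is
`ClO k` and contains `w` iff it contains `V`): a subvariety (LOC).  It is in a fibre `fib n b` only if
`V` is. -/
def St_QCL : Prop := ∀ (n : ℕ) (V : Set (LX n)), IsSubvar V → IsSubvar (qcl V) ∧ ClO kQ (qcl V) ∧
  V ⊆ qcl V ∧ (∀ Z, ClO kQ Z → V ⊆ Z → qcl V ⊆ Z) ∧
  (∃ k : Subfield ℂ, ACC k ∧ kQ ≤ k ∧ ∃ w ∈ V, lk k w = V ∧ lk kQ w = qcl V) ∧
  ((∀ b, ¬ V ⊆ fib n b) → ∀ b, ¬ qcl V ⊆ fib n b)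

/-- [DGD] (from VAR, IMG, QCL) the inequalities of `Degen` in terms of `dX`.
Proof: `closure (img e '' qcl W)` is a subvariety (QCL; the image of an irreducible set under a
continuous map; `img e` is continuous by IMG with `k = ⊤`), VAR: `kdim = dX`. -/
def St_DGD : Prop := ∀ (n : ℕ) (W : Set (LX n)) (m r : ℕ) (e : Fin r → Fin n → ℤ), IsSubvar W →
  (∀ b, ¬ W ⊆ fib n b) → LinearIndependent ℤ e →
    dX (closure (img e '' qcl W)) + 1 ≤ dX (qcl W) →
    dX (closure (img e '' qcl W)) + n ≤ dX (qcl W) + r + m →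
    dX (closure (img e '' qcl W)) + n ≤ dX W + r + m + 1 → Degen m W

/-- [VRG] (from KeyG, VAR, LIMV, QCL, DGD, FLT, HUL, SLI) only finitely many fibres contain maximal
subvarieties of defect at most `δ` which are in no degenerate subvariety.
Proof: as VRT (T3/VRT.lean).  Otherwise there are `b_k`, pairwise different, and such `A_k ⊆
fib n (b_k)`.  `U` nonprincipal, `V'` the limit (LIMV), `V' ⊆ V`, in no fibre.  As in VRT: `V'` has
defect `> δ`, so `dX V' + rk (relS V') < n + 1 - δ =: ρ`, and the points `p ∈ V'` with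
`rk p.rel ≥ ρ` are dense in `V'`.  KeyG: for `W := qcl V'`, `W'' = closure (img e '' W)`:
`dX W'' + 1 ≤ dX W`, `dX W'' + (n + 1 - δ) + 1 ≤ dX W + r`, `dX W'' + (n + 1 - δ) ≤ dX V' + r`, so
`V'` is degenerate of level `δ - 2` (DGD), and `A_k ⊆ V' ⊆ V`: contradiction. -/
def St_VRG : Prop := KeyG → ∀ (n : ℕ) (V : Set (LX n)) (δ : ℕ), IsSubvar V → 2 ≤ δ →
  {b : ℂ | ∃ A, Maximal (SubDef ∅ V δ) A ∧ A ⊆ fib n b ∧
    ∀ W, Degen (δ - 2) W → W ⊆ V → ¬ A ⊆ W}.Finite

/-- [FIG] (from VAR, VRT, VRG, HOR, FBN, CZX, FTC, TCX) part (a) of the theorem.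
Proof: as FIA (T3/FIA.lean).  `F` := the CM points `b` such that `fib n b` contains a maximal `A` for
`SubDef ∅ V δ` for some `δ ≤ 2` (VRT), or for some `2 ≤ δ ≤ n` one in no degenerate subvariety of
`V` of level `δ - 2` (VRG).  If `δ ≥ n + 1` then `V` is the only maximal one (`V ⊆ univ`, flat of
dimension `n + 1`). -/
def St_FIG : Prop := KeyT3 → KeyG → ∀ (n : ℕ) (V : Set (LX n)), IsSubvar V → ∃ F : Set ℂ,
  F.Finite ∧ (∀ b ∈ F, IsCMpt b) ∧ ∀ F₁ : Set ℂ, F ⊆ F₁ → F₁.Finite → (∀ b ∈ F₁, IsCMpt b) →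
    ∀ δ : ℕ, {A | Maximal (SubDef F₁ V δ) A ∧ (δ ≤ 2 ∨ (∀ b ∉ F₁, ¬ A ⊆ fib n b) ∨
        ∀ W, Degen (δ - 2) W → W ⊆ V → ¬ A ⊆ W)}.Finite ∧
      ∀ A, SubDef F₁ V δ A → ∃ B, A ⊆ B ∧ Maximal (SubDef F₁ V δ) B

/-- [FNG] (from VAR, FIG, FIB) the theorem from the key lemmas.
Proof: as FIN (T3/FIN.lean); FIB: a maximal atypical `A` is `V`, or maximal for `SubDef F₁ V δ` with
`dX T = dX V + δ + 1`; if `kdim T = kdim V + m + 3` then `δ = m + 2`. -/
def St_FNG : Prop := KeyT3 → KeyG → ThmT4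

end Pool.Agent.ZR
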