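import Mathlib
import Pool.Agent.ZR.OA.St

/-!
# T4, module FNG: the theorem from its parts (a) and (b)
-/

set_option autoImplicit false

open scoped BigOperators
open Filter Topology

namespace Pool.Agent.ZR

open Pool.Agent.ZPE (IsSubvar IsComp kdim)

/-- bounded dimensions: maximal sets exist -/
private theorem FNG_max (hVAR : St_VAR) {n : ℕ} {V : Set (LX n)} (hV : IsSubvar V)
    (Pr : Set (LX n) → Prop) (hPr : ∀ A, Pr A → IsSubvar A ∧ A ⊆ V) :
    ∀ (d : ℕ) (A : Set (LX n)), Pr A → dX V ≤ dX A + d → ∃ B, A ⊆ B ∧ Maximal Pr B := by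
  intro d
  induction d with
  | zero =>
    intro A hA hd
    refine ⟨A, subset_rfl, hA, fun B hB hAB => ?_⟩
    have h1 := (hVAR n).2.2.1 A V (hPr A hA).1 hV (hPr A hA).2
    have h2 : A = V := h1.2 (by omega)
    exact (hPr B hB).2.trans h2.ge
  | succ d ih =>
    intro A hA hd
    by_cases h : Maximal Pr A
    · exact ⟨A, subset_rfl, h⟩
    · have h1 : ∃ B, Pr B ∧ A ⊆ B ∧ ¬ B ⊆ A := by
        by_contra hcon
        push Not at hcon
        exact h ⟨hA, fun B hB hAB => hcon B hB hAB⟩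
      obtain ⟨B, hB, hAB, hBA⟩ := h1
      have h2 := (hVAR n).2.2.1 A B (hPr A hA).1 (hPr B hB).1 hAB
      have h3 : dX A < dX B := by
        by_contra hcon
        exact hBA (h2.2 (by omega)).ge
      obtain ⟨C, hBC, hC⟩ := ih B hB (by omega)
      exact ⟨C, hAB.trans hBC, hC⟩

theorem thm_FNG (hVAR : St_VAR) (hFIG : St_FIG) (hFIB : St_FIB) : St_FNG := by
  classical
  intro hkey hkeyG n V hV
  obtain ⟨F, hF, hFC, hF1⟩ := hFIG hkey hkeyG n V hV
  refine ⟨F, hF, hFC, fun F₁ hFF hFf hFc => ⟨fun δ => hF1 F₁ hFF hFf hFc δ, ?_⟩⟩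
  intro T hT hVT
  have hTs : IsSubvar T := by
    obtain ⟨r, M, _, hM⟩ := hT
    exact hM.1.1
  have hkT : kdim T = ((dX T : ℕ) : WithBot ℕ∞) := (hVAR n).2.1 T hTs
  have hkV : kdim V = ((dX V : ℕ) : WithBot ℕ∞) := (hVAR n).2.1 V hV
  constructor
  · let δ : ℕ := dX T - dX V - 1
    have h1 := (hF1 F₁ hFF hFf hFc δ).1
    have h2 := (hF1 F₁ hFF hFf hFc (min δ 2)).1
    refine ((Set.finite_singleton V).union (h1.union h2)).subset ?_
    rintro A ⟨hA, hc⟩
    rcases hFIB n V T F₁ hV hT hVT hFc A hA with h | ⟨δ', hδ', hm, hm2⟩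
    · exact Or.inl h
    · have hδ : δ' = δ := by
        change δ' = dX T - dX V - 1
        omega
      subst hδ
      right
      rcases hc with hc | hc | hc | ⟨m, hkm, hW⟩
      · left
        refine ⟨hm, Or.inl ?_⟩
        rw [hkT, hkV] at hc
        have h3 : dX T ≤ dX V + 3 := by
          have h4 : ((dX T : ℕ) : WithBot ℕ∞) ≤ ((dX V + 3 : ℕ) : WithBot ℕ∞) := by
            push_cast
            exact hc
          exact_mod_cast h4
        omega
      · right
        exact ⟨hm2 hc, Or.inl (min_le_right _ _)⟩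
      · left
        exact ⟨hm, Or.inr (Or.inl hc)⟩
      · left
        refine ⟨hm, Or.inr (Or.inr ?_)⟩
        rw [hkT, hkV] at hkm
        have h3 : dX T = dX V + m + 3 := by
          have h4 : ((dX T : ℕ) : WithBot ℕ∞) = ((dX V + m + 3 : ℕ) : WithBot ℕ∞) := by
            push_cast
            exact hkm
          exact_mod_cast h4
        have h5 : δ - 2 = m := by
          change dX T - dX V - 1 - 2 = m
          omega
        intro W hW1 hW2
        rw [h5] at hW1
        exact hW W hW1 hW2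
  · intro A hA
    refine FNG_max hVAR hV (IsAtypX F₁ V T) (fun B hB => ?_) (dX V) A hA (by omega)
    obtain ⟨S, _, _, hS, _⟩ := hB
    exact ⟨hS.1.1, hS.1.2.trans Set.inter_subset_left⟩

end Pool.Agent.ZR
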