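import Pool.Agent.ZR.T3.FLT
import Pool.Agent.ZR.OA.IMG

/-!
# ZR, block OA: points over the algebraic numbers in loci (helper70; the homogenisation is from
T3/TRB.lean)
-/

set_option autoImplicit false

open scoped BigOperators

namespace Pool.Agent.ZR

open Pool.Agent.ZPT (Qb trd)

/-- homogenisation with respect to the points with index in `J` -/
noncomputable def OA_hm {n : ℕ} (J : Finset (Fin n))
    (f : MvPolynomial (Option (Fin n × Bool)) ℂ) : MvPolynomial (Option (Fin n × Fin 3)) ℂ :=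
  ∑ e ∈ f.support, MvPolynomial.C (f.coeff e) * (MvPolynomial.X none ^ e none *
    ∏ i, if i ∈ J then MvPolynomial.X (some (i, 0)) ^ e (some (i, false)) *
        MvPolynomial.X (some (i, 1)) ^ e (some (i, true)) *
        MvPolynomial.X (some (i, 2)) ^
          (2 * f.totalDegree - (e (some (i, false)) + e (some (i, true))))
      else MvPolynomial.C (0 ^ (e (some (i, false)) + e (some (i, true)))))

theorem OA_deg {n : ℕ} {f : MvPolynomial (Option (Fin n × Bool)) ℂ}
    {e : Option (Fin n × Bool) →₀ ℕ} (he : e ∈ f.support) (i : Fin n) :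
    e (some (i, false)) + e (some (i, true)) ≤ 2 * f.totalDegree := by
  have h1 : ∀ y, e y ≤ f.totalDegree := fun y =>
    (MvPolynomial.monomial_le_degreeOf y he).trans (MvPolynomial.degreeOf_le_totalDegree f y)
  have h2 := h1 (some (i, false))
  have h3 := h1 (some (i, true))
  omega

theorem OA_hm_hom {n : ℕ} (J : Finset (Fin n))
    (f : MvPolynomial (Option (Fin n × Bool)) ℂ) : XHom (OA_hm J f) := by
  classical
  rw [XHom_iff]
  refine ⟨fun i => if i ∈ J then 2 * f.totalDegree else 0, ?_⟩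
  unfold OA_hm
  refine MvPolynomial.IsWeightedHomogeneous.sum _ _ _ fun e he => ?_
  have h1 := (MvPolynomial.isWeightedHomogeneous_C (LX_w n) (f.coeff e)).mul
    (((MvPolynomial.isWeightedHomogeneous_X ℂ (LX_w n) none).pow (e none)).mul
      (MvPolynomial.IsWeightedHomogeneous.prod (w := LX_w n) Finset.univ
        (fun i => if i ∈ J then MvPolynomial.X (some (i, 0)) ^ e (some (i, false)) *
          MvPolynomial.X (some (i, 1)) ^ e (some (i, true)) *
          MvPolynomial.X (some (i, 2)) ^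
            (2 * f.totalDegree - (e (some (i, false)) + e (some (i, true))))
        else MvPolynomial.C (0 ^ (e (some (i, false)) + e (some (i, true)))))
        (fun i => Pi.single i (if i ∈ J then 2 * f.totalDegree else 0)) (fun i _ => ?_)))
  · rw [Finset.univ_sum_single] at h1
    have h2 : (0 : Fin n → ℕ) + (e none • LX_w n none + fun i => if i ∈ J then
        2 * f.totalDegree else 0) = fun i => if i ∈ J then 2 * f.totalDegree else 0 := by
      have h3 : LX_w n none = 0 := rfl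
      rw [h3, smul_zero, zero_add, zero_add]
    rw [h2] at h1
    exact h1
  · split_ifs with hi
    · have h3 := (((MvPolynomial.isWeightedHomogeneous_X ℂ (LX_w n) (some (i, 0))).pow
        (e (some (i, false)))).mul ((MvPolynomial.isWeightedHomogeneous_X ℂ (LX_w n)
        (some (i, 1))).pow (e (some (i, true))))).mul
        ((MvPolynomial.isWeightedHomogeneous_X ℂ (LX_w n) (some (i, 2))).pow
          (2 * f.totalDegree - (e (some (i, false)) + e (some (i, true)))))
      have h4 : ∀ j : Fin 3, LX_w n (some (i, j)) = Pi.single i 1 := fun j => rfl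
      rw [h4, h4, h4, ← add_smul, ← add_smul, Nat.add_sub_cancel' (OA_deg he i)] at h3
      have h5 : (2 * f.totalDegree) • (Pi.single i 1 : Fin n → ℕ) =
          Pi.single i (2 * f.totalDegree) := by
        rw [← Pi.single_smul, smul_eq_mul, mul_one]
      rw [h5] at h3
      exact h3
    · rw [Pi.single_zero]
      exact MvPolynomial.isWeightedHomogeneous_C _ _

theorem OA_hm_eval {n : ℕ} {J : Finset (Fin n)}
    (f : MvPolynomial (Option (Fin n × Bool)) ℂ) {p : LX n} (h : ∀ i ∈ J, p.P i ≠ 0)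
    (h' : ∀ i ∉ J, p.P i = 0) : xval p (OA_hm J f) = MvPolynomial.eval (vx p) f := by
  classical
  unfold xval OA_hm
  rw [map_sum, MvPolynomial.eval_eq']
  refine Finset.sum_congr rfl fun e he => ?_
  rw [map_mul, map_mul, map_pow, map_prod, MvPolynomial.eval_C, MvPolynomial.eval_X,
    Fintype.prod_option, Fintype.prod_prod_type]
  congr 2
  refine Finset.prod_congr rfl fun i _ => ?_
  rw [Fintype.prod_bool]
  split_ifs with hi
  · simp only [map_mul, map_pow, MvPolynomial.eval_X, Option.elim_some]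
    rw [tri_of_ne (h i hi)]
    show lx (p.P i) ^ e (some (i, false)) * ly (p.P i) ^ e (some (i, true)) *
      (1 : ℂ) ^ (2 * f.totalDegree - (e (some (i, false)) + e (some (i, true)))) =
      ly (p.P i) ^ e (some (i, true)) * lx (p.P i) ^ e (some (i, false))
    rw [one_pow, mul_one, mul_comm]
  · rw [MvPolynomial.eval_C]
    have h1 : vx p (some (i, true)) = 0 := by
      show ly (p.P i) = 0
      rw [h' i hi]
      rfl
    have h2 : vx p (some (i, false)) = 0 := by
      show lx (p.P i) = 0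
      rw [h' i hi]
      rfl
    rw [h1, h2, ← pow_add, add_comm]

theorem OA_hm_coeff {n : ℕ} {J : Finset (Fin n)} {k : Subfield ℂ}
    {f : MvPolynomial (Option (Fin n × Bool)) ℂ} (hf : ∀ e, f.coeff e ∈ k) (e') :
    (OA_hm J f).coeff e' ∈ k := by
  classical
  have h : OA_hm J f ∈
      (MvPolynomial.map (σ := Option (Fin n × Fin 3)) k.subtype).range := by
    have hX : ∀ y, (MvPolynomial.X y : MvPolynomial (Option (Fin n × Fin 3)) ℂ) ∈
        (MvPolynomial.map (σ := Option (Fin n × Fin 3)) k.subtype).range := fun y =>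
      ⟨MvPolynomial.X y, MvPolynomial.map_X _ _⟩
    unfold OA_hm
    refine Subring.sum_mem _ fun e _ => Subring.mul_mem _
      ⟨MvPolynomial.C ⟨_, hf e⟩, MvPolynomial.map_C _ _⟩
      (Subring.mul_mem _ (Subring.pow_mem _ (hX none) _) (Subring.prod_mem _ fun i _ => ?_))
    split_ifs
    · exact Subring.mul_mem _ (Subring.mul_mem _ (Subring.pow_mem _ (hX _) _)
        (Subring.pow_mem _ (hX _) _)) (Subring.pow_mem _ (hX _) _)
    · refine ⟨MvPolynomial.C (0 ^ (e (some (i, false)) + e (some (i, true)))), ?_⟩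
      rw [MvPolynomial.map_C, map_pow, map_zero]
  obtain ⟨P, hP⟩ := h
  rw [← hP, MvPolynomial.coeff_map]
  exact (MvPolynomial.coeff e' P).2

section coord

variable {K : Type} [Field K] {t : K}

private theorem OA_rp0 : rp (0 : LPt t) = jo K := rfl

private theorem OA_rp {x y : K} (h : (leg t).Nonsingular x y) : rp (laff h) = jx t x y := rfl

/-- the affine coordinates from the homogeneous coordinates -/
private theorem OA_lx (h0 : t ≠ 0) (h1 : t ≠ 1) (h2 : (2 : K) ≠ 0) (P : LPt t) :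
    lx P = t * (rp P 2 - rp P 1) / (rp P 2 - rp P 1 - (1 - t) * (rp P 3 - rp P 1)) ∧
    ly P = t * (1 - t) * rp P 0 / (rp P 2 - rp P 1 - (1 - t) * (rp P 3 - rp P 1)) := by
  have h1' : 1 - t ≠ 0 := sub_ne_zero.2 (Ne.symm h1)
  rcases lpt_cases P with rfl | ⟨x, y, hh, rfl⟩
  · rw [OA_rp0]
    constructor
    · show (0 : K) = t * ((1 : K) - 1) / (1 - 1 - (1 - t) * (1 - 1))
      simp
    · show (0 : K) = t * (1 - t) * (0 : K) / (1 - 1 - (1 - t) * (1 - 1))
      simp
  · rw [OA_rp, xc_laff, yc_laff, jx_0, jx_1, jx_2, jx_3]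
    have hM : x ^ 2 - 2 * t * x + t - (x ^ 2 - 2 * x + t) -
        (1 - t) * (x ^ 2 - t - (x ^ 2 - 2 * x + t)) = 2 * t * (1 - t) := by ring
    rw [hM]
    have hne : 2 * t * (1 - t) ≠ 0 := mul_ne_zero (mul_ne_zero h2 h0) h1'
    constructor
    · rw [eq_div_iff hne]
      ring
    · rw [eq_div_iff hne]
      ring

private theorem OA_map {L : Type} [Field L] (φ : K →+* L) (h0 : t ≠ 0) (h1 : t ≠ 1)
    (h2 : (2 : K) ≠ 0) (Q : LPt t) (R : LPt (φ t)) (h : ∀ i, rp R i = φ (rp Q i)) :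
    lx R = φ (lx Q) ∧ ly R = φ (ly Q) := by
  have k0 : φ t ≠ 0 := fun h => h0 (φ.injective (h.trans (map_zero φ).symm))
  have k1 : φ t ≠ 1 := fun h => h1 (φ.injective (h.trans (map_one φ).symm))
  have k2 : (2 : L) ≠ 0 := by
    intro h
    apply h2
    apply φ.injective
    rw [map_ofNat, map_zero]
    exact h
  obtain ⟨a1, a2⟩ := OA_lx h0 h1 h2 Q
  obtain ⟨b1, b2⟩ := OA_lx k0 k1 k2 R
  rw [a1, a2, b1, b2, h, h, h, h]
  constructor
  · rw [map_div₀]
    simp only [map_mul, map_sub, map_one]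
  · rw [map_div₀]
    simp only [map_mul, map_sub, map_one]

end coord

/-! ### spreading -/

section spread

variable {n : ℕ} {k : Subfield ℂ}

theorem OA_X {k : Subfield ℂ} (o : Option (Fin n × Fin 3)) :
    XHom (MvPolynomial.X o : MvPolynomial (Option (Fin n × Fin 3)) ℂ) ∧
      ∀ e, (MvPolynomial.X o : MvPolynomial (Option (Fin n × Fin 3)) ℂ).coeff e ∈ k :=
  ⟨XHom_iff.2 ⟨_, MvPolynomial.isWeightedHomogeneous_X ℂ (LX_w n) o⟩, fun e => by
    rw [MvPolynomial.coeff_X]
    split_ifs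
    · exact k.one_mem
    · exact k.zero_mem⟩

theorem OA_xv (q : LX n) (i : Fin n) (j : Fin 3) :
    xval q (MvPolynomial.X (some (i, j))) = tri (q.P i) j := by
  unfold xval
  rw [MvPolynomial.eval_X]
  rfl

theorem OA_zero (q : LX n) (i : Fin n) : tri (q.P i) 2 = 0 ↔ q.P i = 0 := by
  constructor
  · intro h
    by_contra hcon
    rw [tri_of_ne hcon] at h
    exact one_ne_zero h
  · intro h
    rw [h, tri_zero]
    rfl

theorem OA_mem {w p : LX n} (hp : p ∈ lk k w) {F : MvPolynomial (Option (Fin n × Fin 3)) ℂ}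
    (hF : XHom F) (hFk : ∀ e, F.coeff e ∈ k) (h : xval w F = 0) : xval p F = 0 :=
  (LOC_lk p).1 hp F hF (LOC_mem.2 hFk) h

theorem OA_pz {w p : LX n} (hp : p ∈ lk k w) (i : Fin n) (h : w.P i = 0) : p.P i = 0 := by
  have h1 := OA_mem hp (OA_X (k := k) (some (i, 2))).1 (OA_X (k := k) (some (i, 2))).2 (by
    rw [OA_xv, OA_zero]
    exact h)
  rwa [OA_xv, OA_zero] at h1

/-- a relation over `k` holds at the points of the locus with the same origins -/
theorem OA_gen {w p : LX n} (hp : p ∈ lk k w) (hpw : ∀ i, w.P i ≠ 0 → p.P i ≠ 0)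
    {f : MvPolynomial (Option (Fin n × Bool)) ℂ} (hf : ∀ e, f.coeff e ∈ k)
    (h0 : MvPolynomial.eval (vx w) f = 0) : MvPolynomial.eval (vx p) f = 0 := by
  classical
  let J : Finset (Fin n) := Finset.univ.filter fun i => w.P i ≠ 0
  have hJ1 : ∀ i, i ∈ J ↔ w.P i ≠ 0 := fun i => by simp [J]
  have e1 := OA_hm_eval (J := J) f (p := w) (fun i hi => (hJ1 i).1 hi)
    (fun i hi => not_not.1 fun h => hi ((hJ1 i).2 h))
  have e2 := OA_hm_eval (J := J) f (p := p) (fun i hi => hpw i ((hJ1 i).1 hi))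
    (fun i hi => OA_pz hp i (not_not.1 fun h => hi ((hJ1 i).2 h)))
  rw [← e2]
  exact OA_mem hp (OA_hm_hom J f) (OA_hm_coeff hf) (by rw [e1, h0])

/-- a polynomial over `k` which is not zero at a point is not zero at the points of the locus
outside a closed set over `k` -/
theorem OA_ne {w : LX n} {f : MvPolynomial (Option (Fin n × Bool)) ℂ} (hf : ∀ e, f.coeff e ∈ k)
    (h0 : MvPolynomial.eval (vx w) f ≠ 0) : ∃ Z : Set (LX n), ClO k Z ∧ w ∉ Z ∧
      ∀ q ∈ lk k w, q ∉ Z → (∀ i, w.P i ≠ 0 → q.P i ≠ 0) ∧ MvPolynomial.eval (vx q) f ≠ 0 := by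
  classical
  let J : Finset (Fin n) := Finset.univ.filter fun i => w.P i ≠ 0
  have hJ1 : ∀ i, i ∈ J ↔ w.P i ≠ 0 := fun i => by simp [J]
  let F : MvPolynomial (Option (Fin n × Fin 3)) ℂ :=
    OA_hm J f * ∏ i ∈ J, MvPolynomial.X (some (i, 2))
  have hF1 : XHom F := by
    refine XHom_mul (OA_hm_hom J f) ?_
    induction J using Finset.induction_on with
    | empty => simpa using XHom_one
    | insert i s hi ih =>
      rw [Finset.prod_insert hi]
      exact XHom_mul (OA_X (k := k) _).1 ih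
  have hF2 : F ∈ LOC_R k (Option (Fin n × Fin 3)) :=
    mul_mem (LOC_mem.2 (OA_hm_coeff hf)) (prod_mem fun i _ => LOC_X _)
  have hv : ∀ q : LX n, xval q F = xval q (OA_hm J f) * ∏ i ∈ J, tri (q.P i) 2 := by
    intro q
    show xval q (OA_hm J f * ∏ i ∈ J, MvPolynomial.X (some (i, 2))) = _
    rw [xval_mul]
    congr 1
    unfold xval
    rw [map_prod]
    refine Finset.prod_congr rfl fun i _ => ?_
    rw [MvPolynomial.eval_X]
    rfl
  refine ⟨{q | ∀ G ∈ ({F} : Set (MvPolynomial (Option (Fin n × Fin 3)) ℂ)), xval q G = 0},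
    ⟨{F}, ?_, rfl⟩, ?_, ?_⟩
  · rintro G rfl
    exact ⟨hF1, LOC_mem.1 hF2⟩
  · intro h
    have h1 : xval w F = 0 := h F rfl
    rw [hv, OA_hm_eval (J := J) f (p := w) (fun i hi => (hJ1 i).1 hi)
      (fun i hi => not_not.1 fun h => hi ((hJ1 i).2 h))] at h1
    refine mul_ne_zero h0 (Finset.prod_ne_zero_iff.2 fun i hi => ?_) h1
    exact fun h2 => (hJ1 i).1 hi ((OA_zero w i).1 h2)
  · intro q hq hqZ
    have h1 : xval q F ≠ 0 := by
      intro h
      apply hqZ
      rintro G rfl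
      exact h
    rw [hv] at h1
    have h2 := left_ne_zero_of_mul h1
    have h3 := Finset.prod_ne_zero_iff.1 (right_ne_zero_of_mul h1)
    have h4 : ∀ i, w.P i ≠ 0 → q.P i ≠ 0 := fun i hi h =>
      h3 i ((hJ1 i).2 hi) ((OA_zero q i).2 h)
    refine ⟨h4, ?_⟩
    rwa [OA_hm_eval (J := J) f (p := q) (fun i hi => h4 i ((hJ1 i).1 hi))
      (fun i hi => OA_pz hq i (not_not.1 fun h => hi ((hJ1 i).2 h)))] at h2

end spread

/-! ### base change -/

/-- a point over the algebraic numbers -/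
def QP {n : ℕ} (q : LX n) (s : Qb) (P : Fin n → LPt s) : Prop :=
  algebraMap Qb ℂ s = q.t ∧ ∀ m : Fin n → ℤ, lx (cb q.P m) = algebraMap Qb ℂ (lx (cb P m)) ∧
    ly (cb q.P m) = algebraMap Qb ℂ (ly (cb P m)) ∧ (cb q.P m = 0 ↔ cb P m = 0)

theorem OA_bc (hM : St_MAP) (s : Qb) (h0 : s ≠ 0) (h1 : s ≠ 1) :
    ∃ f : LPt s →+ LPt (algebraMap Qb ℂ s), Function.Injective f ∧
      (∀ P, lx (f P) = algebraMap Qb ℂ (lx P) ∧ ly (f P) = algebraMap Qb ℂ (ly P)) ∧
      ∀ P' : LPt (algebraMap Qb ℂ s), lx P' ∈ kQ → ly P' ∈ kQ → ∃ P, f P = P' := by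
  obtain ⟨f, hf1, hf2⟩ := hM Qb ℂ (algebraMap Qb ℂ) s h0 h1 two_ne_zero
  have hc : ∀ P, lx (f P) = algebraMap Qb ℂ (lx P) ∧ ly (f P) = algebraMap Qb ℂ (ly P) :=
    fun P => OA_map (algebraMap Qb ℂ) h0 h1 two_ne_zero P (f P) (hf2 P)
  refine ⟨f, hf1, hc, ?_⟩
  rintro P' ⟨x, hx⟩ ⟨y, hy⟩
  have hinj : Function.Injective (algebraMap Qb ℂ) := (algebraMap Qb ℂ).injective
  by_cases hP : P' = 0
  · exact ⟨0, by rw [map_zero, hP]⟩
  · have h2 := lpt_eq P' hP
    change algebraMap Qb ℂ x = lx P' at hx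
    change algebraMap Qb ℂ y = ly P' at hy
    rw [← hx, ← hy] at h2
    have h3 : y ^ 2 = x * (x - 1) * (x - s) := by
      apply hinj
      rw [map_pow, map_mul, map_mul, map_sub, map_sub, map_one]
      exact h2
    have hns := (leg_ns_iff h0 h1 x y).2 h3
    refine ⟨laff hns, ?_⟩
    have h4 := hc (laff hns)
    have h5 : f (laff hns) ≠ 0 := by
      intro h
      have h6 : laff hns = 0 := hf1 (by rw [h, map_zero])
      have h7 := congrArg (fun Q => rp Q 1) h6
      have h8 : rp (laff hns) = jx s x y := rfl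
      have h9 : rp (0 : LPt s) = jo Qb := rfl
      have h10 : (laff hns : LPt s) ≠ 0 := by
        rcases lpt_cases (laff hns) with h | h
        · intro _
          exact absurd h (by intro hh; cases hh)
        · intro hh
          cases hh
      exact h10 h6
    rw [lpt_eta (f (laff hns)) h5, lpt_eta P' hP]
    have e1 : lx (f (laff hns)) = lx P' := h4.1.trans hx
    have e2 : ly (f (laff hns)) = ly P' := h4.2.trans hy
    have key : ∀ {a b c d : ℂ} (h : (leg (algebraMap Qb ℂ s)).Nonsingular a b)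
        (h' : (leg (algebraMap Qb ℂ s)).Nonsingular c d), a = c → b = d →
        (laff h : LPt (algebraMap Qb ℂ s)) = laff h' := by
      rintro a b c d h h' rfl rfl
      rfl
    exact key _ _ e1 e2

/-- points with coordinates in `kQ` come from the algebraic numbers -/
theorem OA_QP (hM : St_MAP) {n : ℕ} (q : LX n) (ht : q.t ∈ kQ)
    (h : ∀ i, lx (q.P i) ∈ kQ ∧ ly (q.P i) ∈ kQ) :
    ∃ s : Qb, s ≠ 0 ∧ s ≠ 1 ∧ ∃ P : Fin n → LPt s, QP q s P := by
  obtain ⟨t, t0, t1, P'⟩ := q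
  obtain ⟨s, hs⟩ := ht
  change algebraMap Qb ℂ s = t at hs
  subst hs
  have h0 : s ≠ 0 := fun h => t0 (by rw [h, map_zero])
  have h1 : s ≠ 1 := fun h => t1 (by rw [h, map_one])
  obtain ⟨f, hf1, hf2, hf3⟩ := OA_bc hM s h0 h1
  choose P hP using fun i => hf3 (P' i) (h i).1 (h i).2
  refine ⟨s, h0, h1, P, rfl, fun m => ?_⟩
  have h2 : cb P' m = f (cb P m) := by
    unfold cb
    rw [map_sum]
    refine Finset.sum_congr rfl fun i _ => ?_
    rw [map_zsmul, hP]
  show lx (cb P' m) = _ ∧ ly (cb P' m) = _ ∧ (cb P' m = 0 ↔ cb P m = 0)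
  rw [h2]
  exact ⟨(hf2 _).1, (hf2 _).2, ⟨fun h => hf1 (by rw [h, map_zero]), fun h => by
    rw [h, map_zero]⟩⟩

/-- [QPT] points over the algebraic numbers in a locus, outside a closed set over `kQ` -/
theorem thm_QPT (hM : St_MAP) {n : ℕ} (w : LX n) {Z : Set (LX n)} (hZ : ClO kQ Z) (hw : w ∉ Z) :
    ∃ q ∈ lk kQ w, q ∉ Z ∧ ∃ s : Qb, s ≠ 0 ∧ s ≠ 1 ∧ ∃ P : Fin n → LPt s, QP q s P := by
  obtain ⟨S, hS, rfl⟩ := hZ
  have h1 : ∃ F ∈ S, xval w F ≠ 0 := by
    by_contra h
    push Not at h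
    exact hw h
  obtain ⟨F, hF, hwF⟩ := h1
  obtain ⟨A, σ, q, hq, hT, hσk, hσ0, hσc, ht, hP⟩ := LOC_pt FLT_acf w {xval w F} (by simp)
  refine ⟨q, hq, ?_, OA_QP hM q ?_ fun i => ?_⟩
  · intro h
    have h2 := h F hF
    obtain ⟨h3, h4⟩ := LOC_xval hσc ht hP (LOC_mem.2 (hS F hF).2)
    rw [h4] at h2
    exact hσ0 ⟨_, h3⟩ hwF (hT _ rfl).2 h2
  · obtain ⟨h3, h4⟩ := ht
    rw [h4]
    exact hσk _
  · have h3 : ∀ l, tri (q.P i) l ∈ kQ := by
      intro l
      obtain ⟨h3, h4⟩ := hP i l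
      rw [h4]
      exact hσk _
    by_cases h : q.P i = 0
    · rw [h]
      exact ⟨kQ.zero_mem, kQ.zero_mem⟩
    · have h4 := tri_of_ne h
      have h5 := h3 0
      have h6 := h3 1
      rw [h4] at h5 h6
      exact ⟨h5, h6⟩

end Pool.Agent.ZR
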