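import Pool.Agent.ZPT.TRD
import Pool.Agent.ZR.OA.QPT

/-!
# ZR, block OA: sequences of points over the algebraic numbers which converge to a generic point
(helper70)
-/

set_option autoImplicit false

open scoped BigOperators
open Filter Topology

namespace Pool.Agent.ZR

open Pool.Agent.ZPT (Qb hQ trd rsp FG LL FCst le_trd_iff trd_le_iff)
open Pool.Agent.ZPE (IsSubvar)

/-! ### the sequence -/

section seq

variable {n : ℕ}

/-- the polynomials over `kQ` which do not vanish at `w` -/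
def NZ (w : LX n) : Set (MvPolynomial (Option (Fin n × Fin 3)) ℂ) :=
  {F | XHom F ∧ F ∈ LOC_R kQ (Option (Fin n × Fin 3)) ∧ xval w F ≠ 0}

theorem NZ_countable (w : LX n) : (NZ w).Countable := by
  have h1 : Countable kQ := FLT_accQ.cnt.to_subtype
  have h2 : Countable (MvPolynomial (Option (Fin n × Fin 3)) kQ) := by
    rw [← Cardinal.mk_le_aleph0_iff]
    refine MvPolynomial.cardinalMk_le_max.trans ?_
    simp only [Cardinal.mk_fintype, max_le_iff, Cardinal.mk_le_aleph0, le_refl, and_true, true_and]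
    exact Cardinal.natCast_lt_aleph0.le
  have h3 : ((LOC_R kQ (Option (Fin n × Fin 3)) : Subring _) :
      Set (MvPolynomial (Option (Fin n × Fin 3)) ℂ)).Countable := by
    unfold LOC_R
    rw [RingHom.coe_range]
    exact Set.countable_range _
  exact h3.mono fun F hF => hF.2.1

/-- a sequence in the union of the loci of the points of `S`, which leaves all closed sets over
`kQ` which do not contain the generic point -/
theorem SEQ (hM : St_MAP) (w : LX n) (S : Set (LX n)) (hS : ∀ Z, ClO kQ Z → S ⊆ Z → w ∈ Z) :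
    ∃ (x q : ℕ → LX n), (∀ k, x k ∈ S) ∧ (∀ k, q k ∈ lk kQ (x k)) ∧
      (∀ Z, ClO kQ Z → w ∉ Z → ∃ k₀, ∀ k ≥ k₀, q k ∉ Z) ∧
      ∀ k, ∃ s : Qb, s ≠ 0 ∧ s ≠ 1 ∧ ∃ P : Fin n → LPt s, QP (q k) s P := by
  classical
  have hc : Countable (NZ w) := (NZ_countable w).to_subtype
  obtain ⟨enc, henc⟩ := exists_injective_nat (NZ w)
  have hfin : ∀ k : ℕ, {F : NZ w | enc F ≤ k}.Finite := fun k =>
    (Set.finite_Iic k).preimage (henc.injOn)
  let G : ℕ → MvPolynomial (Option (Fin n × Fin 3)) ℂ := fun k =>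
    ∏ F ∈ (hfin k).toFinset, (F : MvPolynomial (Option (Fin n × Fin 3)) ℂ)
  have hG1 : ∀ (t : Finset (NZ w)),
      XHom (∏ F ∈ t, (F : MvPolynomial (Option (Fin n × Fin 3)) ℂ)) := by
    intro t
    induction t using Finset.induction_on with
    | empty => simpa using XHom_one
    | insert F s hi ih =>
      rw [Finset.prod_insert hi]
      exact XHom_mul F.2.1 ih
  have hG2 : ∀ k, G k ∈ LOC_R kQ (Option (Fin n × Fin 3)) := fun k =>
    prod_mem fun F _ => F.2.2.1
  have hGv : ∀ (k : ℕ) (q : LX n), xval q (G k) =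
      ∏ F ∈ (hfin k).toFinset, xval q (F : MvPolynomial (Option (Fin n × Fin 3)) ℂ) := by
    intro k q
    show xval q (∏ F ∈ (hfin k).toFinset, _) = _
    unfold xval
    rw [map_prod]
  have hG3 : ∀ k, xval w (G k) ≠ 0 := by
    intro k
    rw [hGv]
    exact Finset.prod_ne_zero_iff.2 fun F _ => F.2.2.2
  let Zk : ℕ → Set (LX n) := fun k =>
    {q | ∀ H ∈ ({G k} : Set (MvPolynomial (Option (Fin n × Fin 3)) ℂ)), xval q H = 0}
  have hZk : ∀ k, ClO kQ (Zk k) := fun k => ⟨{G k}, by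
    rintro H rfl
    exact ⟨hG1 _, LOC_mem.1 (hG2 k)⟩, rfl⟩
  have hZm : ∀ k q, q ∈ Zk k ↔ xval q (G k) = 0 := by
    intro k q
    constructor
    · exact fun h => h _ rfl
    · rintro h H rfl
      exact h
  have key : ∀ k, ∃ x ∈ S, x ∉ Zk k := by
    intro k
    by_contra h
    push Not at h
    exact hG3 k ((hZm k w).1 (hS _ (hZk k) h))
  choose x hx hxZ using key
  choose q hq hqZ hqP using fun k => thm_QPT hM (x k) (hZk k) (hxZ k)
  refine ⟨x, q, hx, hq, ?_, hqP⟩
  rintro Z ⟨T, hT, rfl⟩ hw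
  have h1 : ∃ F ∈ T, xval w F ≠ 0 := by
    by_contra h
    push Not at h
    exact hw h
  obtain ⟨F, hF, hwF⟩ := h1
  let F' : NZ w := ⟨F, (hT F hF).1, LOC_mem.2 (hT F hF).2, hwF⟩
  refine ⟨enc F', fun k hk hZ => ?_⟩
  have h2 : xval (q k) (G k) ≠ 0 := fun h => hqZ k ((hZm k _).2 h)
  rw [hGv] at h2
  exact Finset.prod_ne_zero_iff.1 h2 F' ((Set.Finite.mem_toFinset _).2 hk) (hZ F hF)

end seq

/-! ### algebraic independence over the constants -/

noncomputable def cQ : Qb →+* Subfield.closure (kQ : Set ℂ) :=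
  (algebraMap Qb ℂ).codRestrict _ fun a => Subfield.subset_closure ⟨a, rfl⟩

theorem cQ_surj : Function.Surjective cQ := by
  rintro ⟨z, hz⟩
  have h1 : z ∈ kQ := by
    have h2 : Subfield.closure (kQ : Set ℂ) ≤ kQ := Subfield.closure_le.2 le_rfl
    exact h2 hz
  obtain ⟨a, ha⟩ := h1
  exact ⟨a, Subtype.ext ha⟩

theorem ind_kQ {ι : Type} (t : ι → ℂ) :
    AlgebraicIndependent (Subfield.closure (kQ : Set ℂ)) t ↔ AlgebraicIndependent Qb t :=
  ⟨fun h => AlgebraicIndependent.of_ringHom_of_comp_eq cQ (RingHom.id ℂ) h cQ.injective rfl,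
    fun h => h.ringHom_of_comp_eq cQ (RingHom.id ℂ) cQ_surj Function.injective_id rfl⟩

noncomputable def cU {Q : Type} (U : Ultrafilter Q) : Qb →+* Subfield.closure (FCst U) :=
  (algebraMap Qb (LL U)).codRestrict _ fun a => Subfield.subset_closure ⟨a, rfl⟩

theorem cU_surj {Q : Type} (U : Ultrafilter Q) : Function.Surjective (cU U) := by
  rintro ⟨z, hz⟩
  have h1 : z ∈ (algebraMap Qb (LL U)).fieldRange := by
    have h2 : Subfield.closure (FCst U) ≤ (algebraMap Qb (LL U)).fieldRange := by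
      rw [Subfield.closure_le]
      rintro _ ⟨a, rfl⟩
      exact ⟨a, rfl⟩
    exact h2 hz
  obtain ⟨a, ha⟩ := h1
  exact ⟨a, Subtype.ext ha⟩

theorem ind_cU {Q : Type} (U : Ultrafilter Q) {ι : Type} (t : ι → LL U) :
    AlgebraicIndependent (Subfield.closure (FCst U)) t ↔ AlgebraicIndependent Qb t :=
  ⟨fun h => AlgebraicIndependent.of_ringHom_of_comp_eq (cU U) (RingHom.id (LL U)) h
    (cU U).injective rfl,
    fun h => h.ringHom_of_comp_eq (cU U) (RingHom.id (LL U)) (cU_surj U) Function.injective_id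
      rfl⟩

theorem germ_aeval {Q ι : Type} (U : Ultrafilter Q) (f : ι → Q → Qb) (R : MvPolynomial ι Qb) :
    MvPolynomial.aeval (fun i => ((f i : Q → Qb) : LL U)) R =
      ((fun k => MvPolynomial.aeval (fun i => f i k) R : Q → Qb) : LL U) := by
  induction R using MvPolynomial.induction_on with
  | C a =>
    simp only [MvPolynomial.aeval_C]
    rfl
  | add p q hp hq =>
    simp only [map_add, hp, hq]
    rfl
  | mul_X p i hp =>
    simp only [map_mul, hp, MvPolynomial.aeval_X]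
    rfl

/-! ### generic sequences -/

/-- the values in `Qb` -/
structure GSq {n : ℕ} (U : Ultrafilter ℕ) (y₀ : LX n) (y : ℕ → LX n)
    (v : ℕ → Option (Fin n × Bool) → Qb) : Prop where
  loc : ∀ k, y k ∈ lk kQ y₀
  gen : ∀ Z, ClO kQ Z → y₀ ∉ Z → ∀ᶠ k in (U : Filter ℕ), y k ∉ Z
  val : ∀ k o, vx (y k) o = algebraMap Qb ℂ (v k o)

section gsq

variable {n : ℕ} {U : Ultrafilter ℕ} {y₀ : LX n} {y : ℕ → LX n}
  {v : ℕ → Option (Fin n × Bool) → Qb}

theorem GSq.rel (h : GSq U y₀ y v) (R : MvPolynomial (Option (Fin n × Bool)) Qb) :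
    MvPolynomial.aeval (vx y₀) R = 0 ↔ ∀ᶠ k in (U : Filter ℕ), MvPolynomial.aeval (v k) R = 0 := by
  have hNB : (U : Filter ℕ).NeBot := U.neBot
  have e0 : ∀ w : Option (Fin n × Bool) → ℂ, MvPolynomial.aeval w R =
      MvPolynomial.eval w (R.map (algebraMap Qb ℂ)) := by
    intro w
    rw [MvPolynomial.eval_map]
    rfl
  have hf : ∀ e, (R.map (algebraMap Qb ℂ)).coeff e ∈ kQ := by
    intro e
    rw [MvPolynomial.coeff_map]
    exact ⟨_, rfl⟩
  have e1 : ∀ k, algebraMap Qb ℂ (MvPolynomial.aeval (v k) R) =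
      MvPolynomial.eval (vx (y k)) (R.map (algebraMap Qb ℂ)) := by
    intro k
    have h1 : vx (y k) = fun o => algebraMap Qb ℂ (v k o) := funext (h.val k)
    rw [← e0, h1]
    exact (MvPolynomial.aeval_algebraMap_apply ℂ (v k) R).symm
  have e2 : ∀ k, MvPolynomial.aeval (v k) R = 0 ↔
      MvPolynomial.eval (vx (y k)) (R.map (algebraMap Qb ℂ)) = 0 := by
    intro k
    rw [← e1]
    exact (map_eq_zero_iff (algebraMap Qb ℂ) (algebraMap Qb ℂ).injective).symm
  rw [e0]
  simp only [e2]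
  constructor
  · intro h0
    obtain ⟨Z, hZ1, hZ2, hZ3⟩ := OA_ne (k := kQ) (w := y₀)
      (f := (1 : MvPolynomial (Option (Fin n × Bool)) ℂ)) (LOC_mem.1 (one_mem _)) (by simp)
    filter_upwards [h.gen Z hZ1 hZ2] with k hk
    exact OA_gen (h.loc k) (hZ3 _ (h.loc k) hk).1 hf h0
  · intro h0
    by_contra hne
    obtain ⟨Z, hZ1, hZ2, hZ3⟩ := OA_ne (k := kQ) hf hne
    obtain ⟨k, hk1, hk2⟩ := ((h.gen Z hZ1 hZ2).and h0).exists
    exact (hZ3 _ (h.loc k) hk1).2 hk2

theorem GSq.ind (h : GSq U y₀ y v) {ι : Type} (o : ι → Option (Fin n × Bool)) :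
    AlgebraicIndependent Qb (fun i => vx y₀ (o i)) ↔
      AlgebraicIndependent Qb (fun i => ((fun k => v k (o i) : ℕ → Qb) : LL U)) := by
  rw [algebraicIndependent_iff, algebraicIndependent_iff]
  have h1 : ∀ R : MvPolynomial ι Qb, MvPolynomial.aeval (fun i => vx y₀ (o i)) R = 0 ↔
      MvPolynomial.aeval (fun i => ((fun k => v k (o i) : ℕ → Qb) : LL U)) R = 0 := by
    intro R
    have h2 := h.rel (MvPolynomial.rename o R)
    rw [MvPolynomial.aeval_rename] at h2
    have h3 : MvPolynomial.aeval (fun i => vx y₀ (o i)) R =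
      MvPolynomial.aeval (vx y₀ ∘ o) R := rfl
    rw [h3, h2, germ_aeval]
    constructor
    · intro h4
      refine (Filter.Germ.coe_eq (f := fun k => MvPolynomial.aeval (fun i => v k (o i)) R)
        (g := fun _ => (0 : Qb))).2 ?_
      filter_upwards [h4] with k hk
      rw [MvPolynomial.aeval_rename] at hk
      exact hk
    · intro h4
      have h5 := (Filter.Germ.coe_eq (f := fun k => MvPolynomial.aeval (fun i => v k (o i)) R)
        (g := fun _ => (0 : Qb))).1 h4
      filter_upwards [h5] with k hk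
      rw [MvPolynomial.aeval_rename]
      exact hk
  simp only [h1]

/-- the transcendence degree of the generic point is that of the germ -/
theorem GSq.trd_eq (h : GSq U y₀ y v) : trd (kQ : Set ℂ) (Set.range (vx y₀)) =
    trd (FCst U) (Set.range fun o => ((fun k => v k o : ℕ → Qb) : LL U)) := by
  have hf1 : FG (kQ : Set ℂ) (Set.range (vx y₀)) :=
    ⟨(Set.finite_range (vx y₀)).toFinset, fun y hy => Subfield.subset_closure
      (Or.inr (by simpa using hy))⟩
  have hf2 : FG (FCst U) (Set.range fun o => ((fun k => v k o : ℕ → Qb) : LL U)) :=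
    ⟨(Set.finite_range fun o => ((fun k => v k o : ℕ → Qb) : LL U)).toFinset, fun y hy =>
      Subfield.subset_closure (Or.inr (by simpa using hy))⟩
  have h1 : ∀ d, d ≤ trd (kQ : Set ℂ) (Set.range (vx y₀)) ↔
      d ≤ trd (FCst U) (Set.range fun o => ((fun k => v k o : ℕ → Qb) : LL U)) := by
    intro d
    rw [le_trd_iff hf1, le_trd_iff hf2]
    constructor
    · rintro ⟨t, ht, hi⟩
      choose o ho using ht
      refine ⟨fun i => ((fun k => v k (o i) : ℕ → Qb) : LL U), fun i => ⟨o i, rfl⟩, ?_⟩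
      rw [ind_cU, ← h.ind o]
      have h2 : (fun i => vx y₀ (o i)) = t := funext ho
      rw [h2, ← ind_kQ]
      exact hi
    · rintro ⟨t, ht, hi⟩
      choose o ho using ht
      refine ⟨fun i => vx y₀ (o i), fun i => ⟨o i, rfl⟩, ?_⟩
      rw [ind_kQ, h.ind o]
      have h2 : (fun i => ((fun k => v k (o i) : ℕ → Qb) : LL U)) = t := funext ho
      rw [h2, ← ind_cU]
      exact hi
  exact le_antisymm ((h1 _).1 le_rfl) ((h1 _).2 le_rfl)

end gsq

end Pool.Agent.ZR
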