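import Pool.Agent.ZR.OA.CMG
import Pool.Agent.ZR.OA.GSQ
import Pool.Agent.ZR.OA.St

/-!
# ZR, block OA: the key lemma for generic sequences of algebraic points (helper70)
-/

set_option autoImplicit false

open scoped BigOperators
open Filter Topology

namespace Pool.Agent.ZR

open Pool.Agent.ZPT (Qb hQ trd rsp FG LL FCst le_trd_iff trd_le_iff)
open Pool.Agent.ZPE (IsSubvar)

theorem ClO_closed {n : ℕ} {k : Subfield ℂ} {Z : Set (LX n)} (h : ClO k Z) : IsClosed Z := by
  obtain ⟨S, hS, rfl⟩ := h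
  exact LX_isClosed_iff.2 ⟨S, fun F hF => (hS F hF).1, rfl⟩

theorem ClO_top {n : ℕ} {Z : Set (LX n)} (h : IsClosed Z) : ClO ⊤ Z := by
  obtain ⟨S, hS, rfl⟩ := LX_isClosed_iff.1 h
  exact ⟨S, fun F hF => ⟨hS F hF, fun e => trivial⟩, rfl⟩

theorem img_cont (hB : St_B1) {n r : ℕ} (e : Fin r → Fin n → ℤ) : Continuous (img e) :=
  continuous_iff_isClosed.2 fun _ hZ =>
    ClO_closed (thm_IMG hB e (k := ⊤) le_top (ClO_top hZ))

theorem lk_sub {n : ℕ} {k : Subfield ℂ} {Z : Set (LX n)} (h : ClO k Z) {p : LX n} (hp : p ∈ Z) :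
    lk k p ⊆ Z := Set.sInter_subset_of_mem ⟨h, hp⟩

theorem ClO_fib {n : ℕ} {k : Subfield ℂ} {b : ℂ} (hb : b ∈ k) : ClO k (fib n b) := by
  classical
  refine ⟨{MvPolynomial.X none - MvPolynomial.C b}, ?_, ?_⟩
  · rintro F rfl
    refine ⟨⟨0, fun m hm i => ?_⟩, fun e => ?_⟩
    · have h1 : ∀ j, m (some (i, j)) = 0 := by
        intro j
        rcases Finset.mem_union.1 (MvPolynomial.support_sub _ _ _ hm) with h | h
        · rw [MvPolynomial.support_X, Finset.mem_singleton] at h
          rw [h, Finsupp.single_apply, if_neg (by simp)]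
        · have h2 := MvPolynomial.support_C (σ := Option (Fin n × Fin 3)) (c := b)
          rw [h2] at h
          split_ifs at h with h3
          · exact absurd h (Finset.notMem_empty _)
          · rw [Finset.mem_singleton] at h
            rw [h]
            rfl
      simp only [h1, Finset.sum_const_zero, Pi.zero_apply]
    · exact LOC_mem.1 (sub_mem (LOC_X none) (LOC_C hb)) e
  · ext p
    constructor
    · rintro h F rfl
      have h1 : p.t = b := h
      simp only [xval, map_sub, MvPolynomial.eval_X, MvPolynomial.eval_C]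
      exact sub_eq_zero.2 h1
    · intro h
      have h1 := h _ rfl
      simp only [xval, map_sub, MvPolynomial.eval_X, MvPolynomial.eval_C] at h1
      exact sub_eq_zero.1 h1

theorem rk_mono {N : Type} [Fintype N] {R R' : AddSubgroup (N → ℤ)} (h : R ≤ R') :
    rk R ≤ rk R' := by
  unfold rk
  refine Submodule.finrank_mono ?_
  unfold rsp
  exact Submodule.span_mono (Set.image_mono h)

/-- the coordinates in `Qb` -/
noncomputable def vQ {n : ℕ} {s : Qb} (P : Fin n → LPt s) : Option (Fin n × Bool) → Qb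
  | none => s
  | some (i, false) => lx (P i)
  | some (i, true) => ly (P i)

theorem thm_KSQ (hM : St_MAP) (hB : St_B1) (hREL : St_REL) (hVAR : St_VAR) (hLOC : St_LOC)
    (hGEN : St_GEN) (hC : ComparisonG) : KeySeq := by
  classical
  intro n V hV hVk hfib q ρ hqP hqg
  obtain ⟨w, hwV, -, hw⟩ := hGEN n kQ FLT_accQ V hV hVk (fun _ => ∅) (fun _ => ⟨isClosed_empty,
    fun h => by
      obtain ⟨x, hx⟩ := hV.2.nonempty
      exact h hx⟩)
  have hqV : ∀ k, q k ∈ V := fun k => (hqP k).1
  choose s s0 s1 P hP using fun k => OA_QP hM (q k) ((hqP k).2.1 none)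
    (fun i => ⟨(hqP k).2.1 (some (i, false)), (hqP k).2.1 (some (i, true))⟩)
  let U : Ultrafilter ℕ := hyperfilter ℕ
  have hU : (U : Filter ℕ) ≤ atTop := Nat.hyperfilter_le_atTop
  have hNB : (U : Filter ℕ).NeBot := U.neBot
  have hgen : ∀ Z, ClO kQ Z → w ∉ Z → ∀ᶠ k in (U : Filter ℕ), q k ∉ Z := by
    intro Z hZ hwZ
    exact hU (hqg Z hZ fun h => hwZ (h hwV))
  let p : PreF (Fin n) ℕ := ⟨s, s0, s1, P⟩
  have hgs0 : GSq U w q fun k => vQ (P k) := by
    refine ⟨fun k => by rw [hw]; exact hqV k, hgen, fun k o => ?_⟩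
    have h1 : ∀ i, cb (q k).P (Pi.single i 1) = (q k).P i := fun i => KEY.cb_single _ i
    have h2 : ∀ i, cb (P k) (Pi.single i 1) = P k i := fun i => KEY.cb_single _ i
    rcases o with _ | ⟨i, _ | _⟩
    · exact (hP k).1.symm
    · have h3 := ((hP k).2 (Pi.single i 1)).1
      rw [h1, h2] at h3
      exact h3
    · have h3 := ((hP k).2 (Pi.single i 1)).2.1
      rw [h1, h2] at h3
      exact h3
  have hgse : ∀ {r : ℕ} (e : Fin r → Fin n → ℤ), GSq U (img e w) (fun k => img e (q k))
      fun k => vQ fun i => cb (P k) (e i) := by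
    intro r e
    refine ⟨fun k => ?_, fun Z hZ hwZ => ?_, fun k o => ?_⟩
    · rintro Z ⟨hZ, hwZ⟩
      have h1 := lk_sub (thm_IMG hB e le_rfl hZ) (p := w) hwZ
      rw [hw] at h1
      exact h1 (hqV k)
    · exact hgen _ (thm_IMG hB e le_rfl hZ) hwZ
    · rcases o with _ | ⟨i, _ | _⟩
      · exact (hP k).1.symm
      · exact ((hP k).2 (e i)).1
      · exact ((hP k).2 (e i)).2.1
  have hdim : ∀ {m : ℕ} (z : LX m), dX (lk kQ z) = trd (kQ : Set ℂ) (Set.range (vx z)) :=
    fun z => (hLOC _ kQ FLT_acf z).2.2.2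
  have hdV : dX V = trd (kQ : Set ℂ) (Set.range (vx w)) := by rw [← hw, hdim]
  -- the algebraic condition
  have hALG : p.ALG U (dX V) := by
    intro Y hY
    let o : Y → Option (Fin n × Bool) := fun i => i.1.map fun a => (a, false)
    have hni : ¬ AlgebraicIndependent Qb (fun i : Y => vx w (o i)) := by
      intro h
      have h1 : dX V + 1 ≤ trd (kQ : Set ℂ) (Set.range (vx w)) := by
        rw [le_trd_iff ⟨(Set.finite_range (vx w)).toFinset, fun y hy => Subfield.subset_closure
          (Or.inr (by simpa using hy))⟩]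
        have h2 : Fintype.card Y = dX V + 1 := by rw [Fintype.card_coe, hY]
        let eq : Fin (dX V + 1) ≃ Y := (finCongr h2.symm).trans (Fintype.equivFin _).symm
        refine ⟨fun i => vx w (o (eq i)), fun i => ⟨_, rfl⟩, ?_⟩
        rw [ind_kQ]
        exact h.comp eq eq.injective
      omega
    rw [algebraicIndependent_iff] at hni
    push Not at hni
    obtain ⟨R₀, hR₀, hR₀'⟩ := hni
    refine ⟨MvPolynomial.rename Subtype.val R₀, ?_, ?_, ?_⟩
    · intro h
      exact hR₀' (MvPolynomial.rename_injective _ Subtype.val_injective (by rw [h, map_zero]))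
    · intro a ha
      have h1 := MvPolynomial.vars_rename Subtype.val R₀ ha
      obtain ⟨b, -, rfl⟩ := Finset.mem_image.1 h1
      exact b.2
    · have h1 := (hgs0.rel (MvPolynomial.rename o R₀)).1 (by
        rw [MvPolynomial.aeval_rename]
        exact hR₀)
      filter_upwards [h1] with k hk
      rw [MvPolynomial.aeval_rename] at hk ⊢
      have h2 : p.crd k ∘ Subtype.val = vQ (P k) ∘ o := by
        funext i
        obtain ⟨_ | i, hi⟩ := i
        · rfl
        · rfl
      rw [h2]
      exact hk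
  have hNC : p.NC U := by
    intro z
    have hz : algebraMap Qb ℂ z ∈ kQ := ⟨z, rfl⟩
    have h1 : w ∉ fib n (algebraMap Qb ℂ z) := by
      intro h
      refine hfib (algebraMap Qb ℂ z) ?_
      rw [← hw]
      exact lk_sub (ClO_fib hz) h
    filter_upwards [hgen _ (ClO_fib hz) h1] with k hk hz
    apply hk
    show (q k).t = algebraMap Qb ℂ z
    rw [← (hP k).1]
    exact congrArg _ hz
  have her : p.er U ≤ relS V := by
    intro m hm
    have hm' : ∀ᶠ k in (U : Filter ℕ), cb (P k) m = 0 := hm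
    have h1 : w ∈ {p : LX n | cb p.P m = 0} := by
      by_contra h
      obtain ⟨k, hk1, hk2⟩ := ((hgen _ (hREL n m) h).and hm').exists
      exact hk1 (((hP k).2 m).2.2.2 hk2)
    have h2 := lk_sub (hREL n m) h1
    rw [hw] at h2
    unfold relS
    rw [AddSubgroup.mem_iInf]
    intro p
    rw [AddSubgroup.mem_iInf]
    intro hp
    exact h2 hp
  have hrank : ∀ᶠ k in (U : Filter ℕ),
      ρ ≤ Module.finrank ℝ (rsp (p.rl k : Set (Fin n → ℤ))) := by
    refine Eventually.of_forall fun k => (hqP k).2.2.trans ?_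
    exact rk_mono (R' := p.rl k) fun m hm => ((hP k).2 m).2.2.1 hm
  rcases hC (Fin n) ℕ U p (dX V) ρ hALG hNC hrank with ⟨h, h'⟩ | ⟨r, e, hli, h1, h2⟩
  · left
    have h3 := Nat.add_le_add_left (rk_mono her) (dX V)
    refine ⟨h.trans h3, fun ht => (h' ?_).trans h3⟩
    have ht' : Tendsto (fun k => hQ (s k)) atTop atTop := tendsto_atTop.2 fun B => by
      filter_upwards [ht B] with k hk
      exact hk (s k) (hP k).1
    exact ht'.mono_left hU
  · right
    have h3 : (p.sub e).co U Set.univ ∪ {p.tg U} =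
        Set.range fun o => ((fun k => vQ (fun i => cb (P k) (e i)) o : ℕ → Qb) : LL U) := by
      ext z
      constructor
      · rintro (⟨i, -, hz | hz⟩ | hz)
        · exact ⟨some (i, false), hz.symm⟩
        · exact ⟨some (i, true), hz.symm⟩
        · exact ⟨none, (Set.mem_singleton_iff.1 hz).symm⟩
      · rintro ⟨_ | ⟨i, _ | _⟩, rfl⟩
        · exact Or.inr rfl
        · exact Or.inl ⟨i, trivial, Or.inl rfl⟩
        · exact Or.inl ⟨i, trivial, Or.inr rfl⟩
    rw [h3, ← (hgse e).trd_eq, ← hdim] at h1 h2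
    have h4 : closure (img e '' V) ⊆ lk kQ (img e w) := by
      refine closure_minimal ?_ (hLOC r kQ FLT_acf _).2.2.1.1
      rintro _ ⟨p', hp', rfl⟩ Z ⟨hZ, hwZ⟩
      have h5 := lk_sub (thm_IMG hB e le_rfl hZ) (p := w) hwZ
      rw [hw] at h5
      exact h5 hp'
    have h5 : IsSubvar (closure (img e '' V)) :=
      ⟨isClosed_closure, (hV.2.image _ (img_cont hB e).continuousOn).closure⟩
    have h6 := ((hVAR r).2.2.1 _ _ h5 (hLOC r kQ FLT_acf (img e w)).2.2.1 h4).1
    exact ⟨r, e, hli, by omega, by omega⟩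

end Pool.Agent.ZR
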