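import Pool.Agent.ZR.OA.St
import Pool.Agent.ZR.OA.GSQ

/-!
# ZR, block OA: the general key lemma from the key lemma for sequences
-/

set_option autoImplicit false

open scoped BigOperators
open Filter Topology

namespace Pool.Agent.ZR

open Pool.Agent.ZPT (Qb hQ trd rsp FG le_trd_iff trd_le_iff trd_congr)
open Pool.Agent.ZPE (IsSubvar IsComp)

/-! ### general facts -/

private theorem KYG_rk {N : Type} [Fintype N] {R R' : AddSubgroup (N → ℤ)} (h : R ≤ R') :
    rk R ≤ rk R' := by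
  unfold rk
  refine Submodule.finrank_mono ?_
  unfold rsp
  exact Submodule.span_mono (Set.image_mono h)

private theorem KYG_sub {n : ℕ} {k : Subfield ℂ} {Z : Set (LX n)} (h : ClO k Z) {p : LX n}
    (hp : p ∈ Z) : lk k p ⊆ Z := Set.sInter_subset_of_mem ⟨h, hp⟩

private theorem KYG_le {n : ℕ} {k k' : Subfield ℂ} (hk : k ≤ k') {Z : Set (LX n)}
    (h : ClO k Z) : ClO k' Z := by
  obtain ⟨S, hS, rfl⟩ := h
  exact ⟨S, fun F hF => ⟨(hS F hF).1, fun e => hk ((hS F hF).2 e)⟩, rfl⟩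

private theorem KYG_relS {n : ℕ} {V : Set (LX n)} {m : Fin n → ℤ} :
    m ∈ relS V ↔ V ⊆ {p : LX n | cb p.P m = 0} := by
  unfold relS
  simp only [AddSubgroup.mem_iInf]
  exact ⟨fun h p hp => h p hp, fun h p hp => h hp⟩

private theorem KYG_fib {n : ℕ} {k : Subfield ℂ} {b : ℂ} (hb : b ∈ k) : ClO k (fib n b) := by
  classical
  refine ⟨{MvPolynomial.X none - MvPolynomial.C b}, ?_, ?_⟩
  · rintro F rfl
    refine ⟨⟨0, fun m hm i => ?_⟩, fun e => ?_⟩
    · have h1 : ∀ j, m (some (i, j)) = 0 := by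
        intro j
        rcases Finset.mem_union.1 (MvPolynomial.support_sub _ _ _ hm) with h | h
        · rw [MvPolynomial.support_X, Finset.mem_singleton] at h
          rw [h, Finsupp.single_apply, if_neg (by simp)]
        · have h2 := MvPolynomial.support_C (σ := Option (Fin n × Fin 3)) (c := b)
          rw [h2] at h
          split_ifs at h with h3
          · exact absurd h (Finset.notMem_empty _)
          · rw [Finset.mem_singleton] at h
            rw [h]
            rfl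
      simp only [h1, Finset.sum_const_zero, Pi.zero_apply]
    · exact LOC_mem.1 (sub_mem (LOC_X none) (LOC_C hb)) e
  · ext p
    constructor
    · rintro h F rfl
      have h1 : p.t = b := h
      simp only [xval, map_sub, MvPolynomial.eval_X, MvPolynomial.eval_C]
      exact sub_eq_zero.2 h1
    · intro h
      have h1 := h _ rfl
      simp only [xval, map_sub, MvPolynomial.eval_X, MvPolynomial.eval_C] at h1
      exact sub_eq_zero.1 h1

/-- the closed sets over `kQ` which do not contain `w` -/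
private theorem KYG_enum {n : ℕ} (w : LX n) : ∃ Zk : ℕ → Set (LX n),
    (∀ k, ClO kQ (Zk k) ∧ w ∉ Zk k) ∧
      ∀ Z, ClO kQ Z → w ∉ Z → ∃ k₀, ∀ k ≥ k₀, Z ⊆ Zk k := by
  classical
  have hc : Countable (NZ w) := (NZ_countable w).to_subtype
  obtain ⟨enc, henc⟩ := exists_injective_nat (NZ w)
  have hfin : ∀ k : ℕ, {F : NZ w | enc F ≤ k}.Finite := fun k =>
    (Set.finite_Iic k).preimage (henc.injOn)
  let G : ℕ → MvPolynomial (Option (Fin n × Fin 3)) ℂ := fun k =>
    ∏ F ∈ (hfin k).toFinset, (F : MvPolynomial (Option (Fin n × Fin 3)) ℂ)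
  have hG1 : ∀ (t : Finset (NZ w)),
      XHom (∏ F ∈ t, (F : MvPolynomial (Option (Fin n × Fin 3)) ℂ)) := by
    intro t
    induction t using Finset.induction_on with
    | empty => simpa using XHom_one
    | insert F s hi ih =>
      rw [Finset.prod_insert hi]
      exact XHom_mul F.2.1 ih
  have hG2 : ∀ k, G k ∈ LOC_R kQ (Option (Fin n × Fin 3)) := fun k =>
    prod_mem fun F _ => F.2.2.1
  have hGv : ∀ (k : ℕ) (q : LX n), xval q (G k) =
      ∏ F ∈ (hfin k).toFinset, xval q (F : MvPolynomial (Option (Fin n × Fin 3)) ℂ) := by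
    intro k q
    show xval q (∏ F ∈ (hfin k).toFinset, _) = _
    unfold xval
    rw [map_prod]
  have hG3 : ∀ k, xval w (G k) ≠ 0 := by
    intro k
    rw [hGv]
    exact Finset.prod_ne_zero_iff.2 fun F _ => F.2.2.2
  let Zk : ℕ → Set (LX n) := fun k =>
    {q | ∀ H ∈ ({G k} : Set (MvPolynomial (Option (Fin n × Fin 3)) ℂ)), xval q H = 0}
  have hZk : ∀ k, ClO kQ (Zk k) := fun k => ⟨{G k}, by
    rintro H rfl
    exact ⟨hG1 _, LOC_mem.1 (hG2 k)⟩, rfl⟩
  have hZm : ∀ k q, q ∈ Zk k ↔ xval q (G k) = 0 := by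
    intro k q
    constructor
    · exact fun h => h _ rfl
    · rintro h H rfl
      exact h
  refine ⟨Zk, fun k => ⟨hZk k, fun h => hG3 k ((hZm k w).1 h)⟩, ?_⟩
  rintro Z ⟨T, hT, rfl⟩ hw
  have h1 : ∃ F ∈ T, xval w F ≠ 0 := by
    by_contra h
    push Not at h
    exact hw h
  obtain ⟨F, hF, hwF⟩ := h1
  let F' : NZ w := ⟨F, (hT F hF).1, LOC_mem.2 (hT F hF).2, hwF⟩
  refine ⟨enc F', fun k hk q hq => ?_⟩
  rw [hZm, hGv]
  exact Finset.prod_eq_zero ((Set.Finite.mem_toFinset _).2 hk) (hq F hF)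

/-! ### the transcendence degree in terms of the parameter and the abscissas -/

private theorem KYG_crd {n : ℕ} (w : LX n) (d : ℕ)
    (hR : ∀ Y : Finset (Option (Fin n)), Y.card = d + 1 →
      ∃ R : MvPolynomial (Option (Fin n)) Qb, R ≠ 0 ∧ R.vars ⊆ Y ∧
        MvPolynomial.aeval w.crd R = 0) :
    trd (kQ : Set ℂ) (Set.range (vx w)) ≤ d := by
  classical
  have hf1 : FG (kQ : Set ℂ) (Set.range (vx w)) :=
    ⟨(Set.finite_range (vx w)).toFinset, fun y hy => Subfield.subset_closure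
      (Or.inr (by simpa using hy))⟩
  have hf2 : FG (kQ : Set ℂ) (Set.range w.crd) :=
    ⟨(Set.finite_range w.crd).toFinset, fun y hy => Subfield.subset_closure
      (Or.inr (by simpa using hy))⟩
  have halg : ∀ {S : Subfield ℂ} {x : ℂ}, x ∈ S → IsAlgebraic S x := fun {S x} hx =>
    isAlgebraic_algebraMap (⟨x, hx⟩ : S)
  have e1 : trd (kQ : Set ℂ) (Set.range (vx w)) = trd (kQ : Set ℂ) (Set.range w.crd) := by
    refine trd_congr hf1 (fun x hx => halg (Subfield.subset_closure hx))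
      (fun x hx => halg (Subfield.subset_closure hx)) hf2 ?_ ?_
    · rintro _ ⟨o, rfl⟩
      rcases o with _ | i
      · exact halg (Subfield.subset_closure (Or.inr ⟨none, rfl⟩))
      · exact halg (Subfield.subset_closure (Or.inr ⟨some (i, false), rfl⟩))
    · set S := Subfield.closure ((kQ : Set ℂ) ∪ Set.range w.crd) with hS
      have hc : ∀ o, w.crd o ∈ S := fun o => Subfield.subset_closure (Or.inr ⟨o, rfl⟩)
      rintro _ ⟨o, rfl⟩
      rcases o with _ | ⟨i, _ | _⟩
      · exact halg (hc none)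
      · exact halg (hc (some i))
      · by_cases hi : w.P i = 0
        · have h0 : vx w (some (i, true)) = 0 := by
            change ly (w.P i) = 0
            rw [hi]
            rfl
          rw [h0]
          exact isAlgebraic_zero
        · have h1 := lpt_eq (w.P i) hi
          have h2 : ly (w.P i) ^ 2 ∈ S := by
            rw [h1]
            exact S.mul_mem (S.mul_mem (hc (some i)) (S.sub_mem (hc (some i)) S.one_mem))
              (S.sub_mem (hc (some i)) (hc none))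
          exact (halg h2).of_pow two_pos
  rw [e1]
  by_contra hcon
  push Not at hcon
  obtain ⟨t, ht, hi⟩ := (le_trd_iff hf2 (d + 1)).1 hcon
  choose o ho using ht
  have hinj : Function.Injective o := by
    intro a b hab
    apply hi.injective
    rw [← ho a, ← ho b, hab]
  have hi' : AlgebraicIndependent Qb (fun i => w.crd (o i)) := by
    have h2 : (fun i => w.crd (o i)) = t := funext ho
    rw [h2, ← ind_kQ]
    exact hi
  obtain ⟨R, hR0, hRv, hRe⟩ := hR (Finset.univ.image o) (by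
    rw [Finset.card_image_of_injective _ hinj, Finset.card_univ, Fintype.card_fin])
  obtain ⟨R', rfl⟩ : ∃ R', MvPolynomial.rename o R' = R := by
    obtain ⟨Q, hQ⟩ := MvPolynomial.exists_rename_eq_of_vars_subset_range R o hinj (by
      intro x hx
      have h1 := hRv hx
      obtain ⟨i, -, hi⟩ := Finset.mem_image.1 h1
      exact ⟨i, hi⟩)
    exact ⟨Q, hQ⟩
  rw [MvPolynomial.aeval_rename] at hRe
  have h3 := (algebraicIndependent_iff.1 hi') R' hRe
  exact hR0 (by rw [h3, map_zero])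

/-! ### points over a given parameter -/

private theorem KYG_large (B : ℝ) : {s : Qb | B ≤ hQ s}.Infinite := by
  have h1 : ∃ N : ℕ, 2 ≤ N ∧ Real.exp B ≤ N := by
    obtain ⟨N, hN⟩ := exists_nat_ge (Real.exp B)
    refine ⟨max 2 N, le_max_left _ _, hN.trans ?_⟩
    exact_mod_cast le_max_right _ _
  obtain ⟨N, hN2, hN⟩ := h1
  have h2 : (Set.range fun k : ℕ => (((N + k : ℕ) : ℤ) : Qb)).Infinite := by
    refine Set.infinite_range_of_injective ?_
    intro a b hab
    have h3 : ((N + a : ℕ) : ℤ) = ((N + b : ℕ) : ℤ) := Int.cast_injective hab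
    omega
  refine h2.mono ?_
  rintro _ ⟨k, rfl⟩
  show B ≤ hQ (((N + k : ℕ) : ℤ) : Qb)
  rw [Pool.Agent.ZPT.hQ_int]
  refine le_trans ?_ (le_max_right _ _)
  have h3 : Real.exp B ≤ |(((N + k : ℕ) : ℤ) : ℝ)| := by
    refine hN.trans (le_trans ?_ (le_abs_self _))
    push_cast
    exact le_add_of_nonneg_right (Nat.cast_nonneg k)
  calc B = Real.log (Real.exp B) := (Real.log_exp B).symm
    _ ≤ _ := Real.log_le_log (Real.exp_pos B) h3

/-- points of the locus over an algebraic parameter of large height -/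
private theorem KYG_spec (hG : St_SPG) {n : ℕ} (p : LX n) (ht : p.t ∉ kQ) {Z : Set (LX n)}
    (hZ : ClO kQ Z) (hp : p ∉ Z) (B : ℝ) :
    ∃ s : Qb, B ≤ hQ s ∧ ∃ u ∈ lk kQ p, u ∉ Z ∧ u.t = algebraMap Qb ℂ s := by
  classical
  have hac : IsAlgClosed kQ := LOC_acl FLT_acf
  obtain ⟨S, hS, rfl⟩ := hZ
  have h1 : ∃ F ∈ S, xval p F ≠ 0 := by
    by_contra h
    push Not at h
    exact hp h
  obtain ⟨F, hF, hpF⟩ := h1
  obtain ⟨G, rfl⟩ : F ∈ LOC_R kQ (Option (Fin n × Fin 3)) := LOC_mem.2 (hS F hF).2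
  let w : Option (Fin n × Fin 3) → ℂ := fun o => o.elim p.t (fun q => tri (p.P q.1) q.2)
  have hw : ∀ H : MvPolynomial (Option (Fin n × Fin 3)) kQ,
      xval p (MvPolynomial.map kQ.subtype H) = MvPolynomial.aeval w H := by
    intro H
    unfold xval
    rw [MvPolynomial.eval_map]
    rfl
  set 𝔭 : Ideal (MvPolynomial (Option (Fin n × Fin 3)) kQ) :=
    RingHom.ker (MvPolynomial.aeval (R := kQ) w) with h𝔭
  have hpp : 𝔭.IsPrime := RingHom.ker_isPrime _
  have hmem : ∀ H : MvPolynomial (Option (Fin n × Fin 3)) kQ,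
      H ∈ 𝔭 ↔ MvPolynomial.aeval w H = 0 := fun H => by
    rw [h𝔭, RingHom.mem_ker]
  let J : Finset (Option (Fin n × Fin 3)) := {none}
  have htr : AlgebraicIndependent kQ (fun _ : Unit => p.t) := by
    rw [algebraicIndependent_unique_type_iff]
    exact fun h => ht (FLT_acf _ h)
  have hJ : AlgebraicIndependent kQ (fun j : J => w j) := by
    have h2 := htr.comp (fun _ : J => ()) (by
      rintro ⟨a, ha⟩ ⟨b, hb⟩ _
      apply Subtype.ext
      rw [Finset.mem_singleton] at ha hb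
      exact ha.trans hb.symm)
    have h3 : (fun j : J => w j) = (fun _ : Unit => p.t) ∘ fun _ : J => () := by
      funext j
      obtain ⟨j, hj⟩ := j
      rw [Finset.mem_singleton] at hj
      subst hj
      rfl
    rw [h3]
    exact h2
  have hind : AlgebraicIndependent kQ
      (fun i : J => (Ideal.Quotient.mk 𝔭 (MvPolynomial.X (i : Option (Fin n × Fin 3))) :
        MvPolynomial (Option (Fin n × Fin 3)) kQ ⧸ 𝔭)) := by
    rw [algebraicIndependent_iff] at hJ ⊢
    intro P hP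
    apply hJ
    have h1 : ∀ P : MvPolynomial J kQ, MvPolynomial.aeval
        (fun i : J => (Ideal.Quotient.mk 𝔭 (MvPolynomial.X (i : Option (Fin n × Fin 3))) :
          MvPolynomial (Option (Fin n × Fin 3)) kQ ⧸ 𝔭)) P =
        Ideal.Quotient.mk 𝔭 (MvPolynomial.rename
          (fun i : J => (i : Option (Fin n × Fin 3))) P) := by
      intro P
      have h2 : MvPolynomial.aeval
          (fun i : J => (Ideal.Quotient.mk 𝔭 (MvPolynomial.X (i : Option (Fin n × Fin 3))) :
            MvPolynomial (Option (Fin n × Fin 3)) kQ ⧸ 𝔭)) =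
          (Ideal.Quotient.mkₐ kQ 𝔭).comp
            (MvPolynomial.rename (fun i : J => (i : Option (Fin n × Fin 3)))) := by
        refine MvPolynomial.algHom_ext fun i => ?_
        rw [MvPolynomial.aeval_X, AlgHom.comp_apply, MvPolynomial.rename_X]
        rfl
      rw [h2]
      rfl
    rw [h1, Ideal.Quotient.eq_zero_iff_mem, hmem, MvPolynomial.aeval_rename] at hP
    exact hP
  let g : MvPolynomial (Option (Fin n × Fin 3)) kQ :=
    G * (MvPolynomial.X none * (1 - MvPolynomial.X none))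
  have hg : g ∉ 𝔭 := by
    rw [hmem]
    show MvPolynomial.aeval w (G * (MvPolynomial.X none * (1 - MvPolynomial.X none))) ≠ 0
    rw [map_mul, map_mul, map_sub, map_one, MvPolynomial.aeval_X, ← hw]
    exact mul_ne_zero hpF (mul_ne_zero p.t0 (sub_ne_zero.2 (Ne.symm p.t1)))
  obtain ⟨f, hf, hlift⟩ := hG kQ (Option (Fin n × Fin 3)) 𝔭 hpp J hind g hg
  let Sb : Set kQ := {z | ∃ s : Qb, B ≤ hQ s ∧ algebraMap Qb ℂ s = z}
  have hSb : Sb.Infinite := by
    let φ : Qb → kQ := fun s => ⟨algebraMap Qb ℂ s, ⟨s, rfl⟩⟩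
    have hφ : Function.Injective φ := by
      intro a b hab
      have h5 : (φ a : ℂ) = φ b := congrArg Subtype.val hab
      exact (algebraMap Qb ℂ).injective h5
    refine ((KYG_large B).image hφ.injOn).mono ?_
    rintro _ ⟨s, hs, rfl⟩
    exact ⟨s, hs, rfl⟩
  obtain ⟨ξ, hξ, hξf⟩ : ∃ ξ : J → kQ, (∀ i, ξ i ∈ Sb) ∧ MvPolynomial.eval ξ f ≠ 0 := by
    by_contra hcon
    push Not at hcon
    apply hf
    refine MvPolynomial.funext_set (fun _ => Sb) (fun _ => hSb) fun x hx => ?_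
    rw [map_zero]
    exact hcon x fun i => hx i (Set.mem_univ i)
  obtain ⟨q, hq1, hq2, hq3⟩ := hlift ξ hξf
  have hn : none ∈ J := Finset.mem_singleton_self _
  obtain ⟨s, hsB, hs⟩ := hξ ⟨none, hn⟩
  have hqn : q none = ξ ⟨none, hn⟩ := hq3 ⟨none, hn⟩
  rw [← hqn] at hs
  -- relations
  have hrel : ∀ H : MvPolynomial (Option (Fin n × Fin 3)) kQ, MvPolynomial.aeval w H = 0 →
      MvPolynomial.eval q H = 0 := fun H hH => hq1 H ((hmem H).2 hH)
  have hq2' : MvPolynomial.eval q G ≠ 0 ∧ q none ≠ 0 ∧ q none ≠ 1 := by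
    have h2 : MvPolynomial.eval q (G * (MvPolynomial.X none * (1 - MvPolynomial.X none))) ≠ 0 :=
      hq2
    rw [map_mul, map_mul, map_sub, map_one, MvPolynomial.eval_X] at h2
    refine ⟨left_ne_zero_of_mul h2, left_ne_zero_of_mul (right_ne_zero_of_mul h2), ?_⟩
    intro h3
    exact right_ne_zero_of_mul (right_ne_zero_of_mul h2) (by rw [h3, sub_self])
  have h0 : ((q none : kQ) : ℂ) ≠ 0 := fun h => hq2'.2.1 (Subtype.ext h)
  have h1 : ((q none : kQ) : ℂ) ≠ 1 := fun h => hq2'.2.2 (Subtype.ext h)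
  have hwn : w none = p.t := rfl
  have hws : ∀ i l, w (some (i, l)) = tri (p.P i) l := fun i l => rfl
  have hP : ∀ i, ∃ P' : LPt ((q none : kQ) : ℂ), ∀ l, tri P' l = ((q (some (i, l)) : kQ) : ℂ) := by
    intro i
    by_cases hi : p.P i = 0
    · have e0 := hrel (MvPolynomial.X (some (i, 0))) (by
        rw [MvPolynomial.aeval_X, hws, hi]
        rfl)
      have e1 := hrel (MvPolynomial.X (some (i, 1)) - 1) (by
        rw [map_sub, map_one, MvPolynomial.aeval_X, hws, hi]
        exact sub_self _)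
      have e2 := hrel (MvPolynomial.X (some (i, 2))) (by
        rw [MvPolynomial.aeval_X, hws, hi]
        rfl)
      rw [MvPolynomial.eval_X] at e0 e2
      rw [map_sub, map_one, MvPolynomial.eval_X, sub_eq_zero] at e1
      refine ⟨0, fun l => ?_⟩
      fin_cases l
      · show tri (0 : LPt ((q none : kQ) : ℂ)) 0 = ((q (some (i, 0)) : kQ) : ℂ)
        rw [e0]
        rfl
      · show tri (0 : LPt ((q none : kQ) : ℂ)) 1 = ((q (some (i, 1)) : kQ) : ℂ)
        rw [e1]
        rfl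
      · show tri (0 : LPt ((q none : kQ) : ℂ)) 2 = ((q (some (i, 2)) : kQ) : ℂ)
        rw [e2]
        rfl
    · have ht' := tri_of_ne hi
      have e2 := hrel (MvPolynomial.X (some (i, 2)) - 1) (by
        rw [map_sub, map_one, MvPolynomial.aeval_X, hws, ht']
        exact sub_self _)
      rw [map_sub, map_one, MvPolynomial.eval_X, sub_eq_zero] at e2
      have e3 := hrel (MvPolynomial.X (some (i, 1)) ^ 2 - MvPolynomial.X (some (i, 0)) *
        (MvPolynomial.X (some (i, 0)) - 1) *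
          (MvPolynomial.X (some (i, 0)) - MvPolynomial.X none)) (by
        simp only [map_sub, map_mul, map_pow, map_one, MvPolynomial.aeval_X, hws, hwn]
        rw [ht', sub_eq_zero]
        exact lpt_eq (p.P i) hi)
      simp only [map_sub, map_mul, map_pow, map_one, MvPolynomial.eval_X] at e3
      have e4 : ((q (some (i, 1)) : kQ) : ℂ) ^ 2 = (q (some (i, 0)) : kQ) *
          ((q (some (i, 0)) : kQ) - 1) * ((q (some (i, 0)) : kQ) - (q none : kQ)) := by
        have e5 := congrArg (fun z : kQ => (z : ℂ)) (sub_eq_zero.1 e3)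
        simpa using e5
      have hns := (leg_ns_iff h0 h1 _ _).2 e4
      refine ⟨laff hns, fun l => ?_⟩
      rw [tri_laff]
      fin_cases l
      · rfl
      · rfl
      · show (1 : ℂ) = ((q (some (i, 2)) : kQ) : ℂ)
        rw [e2]
        rfl
  choose P' hP' using hP
  let u : LX n := ⟨_, h0, h1, P'⟩
  have hu : ∀ H : MvPolynomial (Option (Fin n × Fin 3)) kQ,
      xval u (MvPolynomial.map kQ.subtype H) = ((MvPolynomial.eval q H : kQ) : ℂ) := by
    intro H
    have h2 : (fun o : Option (Fin n × Fin 3) => o.elim u.t (fun q => tri (u.P q.1) q.2)) =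
        fun o => algebraMap kQ ℂ (q o) := by
      funext o
      rcases o with _ | ⟨i, l⟩
      · rfl
      · exact hP' i l
    unfold xval
    rw [MvPolynomial.eval_map, h2]
    have h3 := MvPolynomial.aeval_algebraMap_apply ℂ q H
    rw [MvPolynomial.aeval_eq_eval] at h3
    exact h3
  refine ⟨s, hsB, u, ?_, ?_, ?_⟩
  · rw [LOC_lk]
    rintro F' hF1 ⟨G', rfl⟩ h2
    rw [hu, hrel G' (by
      rw [← hw]
      exact h2)]
    rfl
  · intro h2
    have h3 := h2 _ hF
    rw [hu] at h3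
    exact hq2'.1 (Subtype.ext h3)
  · exact hs.symm

/-- **KYG** the general key lemma from the key lemma for sequences -/
theorem thm_KYG (hS : KeySeq) (hQCL : St_QCL) (hTRB : St_TRB) (hSLI : St_SLI) (hLOC : St_LOC)
    (hREL : St_REL) (hKRU : St_KRU) (hVAR : St_VAR) (hFOD : St_FOD) (hGEN : St_GEN)
    (hSPG : St_SPG) (hM : St_MAP) : KeyG := by
  classical
  intro n V hV hfib ρ hd hlt
  obtain ⟨hWs, hWk, hVW, hWmin, -, hWf'⟩ := hQCL n V hV
  have hWf := hWf' hfib
  obtain ⟨W, hW⟩ : ∃ W, W = qcl V := ⟨_, rfl⟩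
  rw [← hW] at hWs hWk hVW hWmin hWf ⊢
  obtain ⟨d0, ZT, hZT, hVZT, htr, hR⟩ := hTRB n V hV
  -- the very generic point
  obtain ⟨k, hk, hQk, -, hVk⟩ := hFOD n (fun _ => V) (fun _ => hV.1) ∅ Set.countable_empty
  obtain ⟨w, hwV, hwZ, hw⟩ := hGEN n k hk V hV (hVk 0) (fun _ => ZT) (fun _ => ⟨hZT, hVZT⟩)
  have hwW : lk kQ w = W := by
    apply Set.Subset.antisymm
    · exact KYG_sub hWk (hVW hwV)
    · refine hWmin _ (hLOC n kQ FLT_acf w).1 ?_
      rw [← hw]
      exact KYG_sub (KYG_le hQk (hLOC n kQ FLT_acf w).1) (hLOC n kQ FLT_acf w).2.1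
  have hdW : dX W = trd (kQ : Set ℂ) (Set.range (vx w)) := by
    rw [← hwW]
    exact (hLOC n kQ FLT_acf w).2.2.2
  have hd0 : dX W ≤ d0 := by
    rw [hdW]
    refine KYG_crd w d0 fun Y hY => ?_
    obtain ⟨R, h1, h2, h3⟩ := hR Y hY
    exact ⟨R, h1, h2, h3 w hwV (hwZ 0)⟩
  have hVWd : dX V ≤ dX W := ((hVAR n).2.2.1 V W hV hWs hVW).1
  obtain ⟨c, hc⟩ : ∃ c, c = dX W - dX V := ⟨_, rfl⟩
  have hrelS : relS W = relS V := by
    apply le_antisymm
    · intro m hm
      rw [KYG_relS] at *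
      exact hVW.trans hm
    · intro m hm
      rw [KYG_relS] at *
      exact hWmin _ (hREL n m) hm
  obtain ⟨Zk, hZk1, hZk2⟩ := KYG_enum w
  have key : ∀ k : ℕ, ∃ q, q ∈ W ∧ IsQPt q ∧ q ∉ Zk k ∧ (ρ + c ≤ rk q.rel ∨
      (1 ≤ c ∧ ρ + c ≤ rk q.rel + 1 ∧
        ∀ s : Qb, algebraMap Qb ℂ s = q.t → (k : ℝ) ≤ hQ s)) := by
    intro k
    have hZc : IsClosed (Zk k) := FLT_closed (hZk1 k).1
    -- algebraic points
    have fin : ∀ p ∈ W, p ∉ Zk k → ∃ q ∈ lk kQ p, q ∈ W ∧ IsQPt q ∧ q ∉ Zk k ∧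
        rk p.rel ≤ rk q.rel := by
      intro p hpW hpZ
      obtain ⟨q, hq, hqZ, s, s0, s1, P, hP⟩ := thm_QPT hM p (hZk1 k).1 hpZ
      refine ⟨q, hq, KYG_sub hWk hpW hq, ?_, hqZ, KYG_rk fun m hm => ?_⟩
      · have h1 : ∀ i, cb q.P (Pi.single i 1) = q.P i := by
          intro i
          unfold cb
          rw [Finset.sum_eq_single i]
          · rw [Pi.single_eq_same, one_smul]
          · intro j _ hj
            rw [Pi.single_eq_of_ne hj, zero_smul]
          · intro h
            exact absurd (Finset.mem_univ i) h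
        intro o
        rcases o with _ | ⟨i, _ | _⟩
        · exact ⟨s, hP.1⟩
        · have h2 := (hP.2 (Pi.single i 1)).1
          rw [h1] at h2
          exact ⟨_, h2.symm⟩
        · have h2 := (hP.2 (Pi.single i 1)).2.1
          rw [h1] at h2
          exact ⟨_, h2.symm⟩
      · exact KYG_sub (hREL n m) (p := p) hm hq
    -- a point with many relations
    have hVZ : ¬ V ⊆ Zk k := fun h => (hZk1 k).2 (h hwV)
    obtain ⟨x, ⟨hxV, hxρ⟩, hxZ⟩ : ∃ x ∈ {p | p ∈ V ∧ ρ ≤ rk p.rel}, x ∉ Zk k ∪ ZT := by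
      by_contra hcon
      push Not at hcon
      have h1 : V ⊆ Zk k ∪ ZT := hd.trans (closure_minimal hcon (hZc.union hZT))
      rcases (isPreirreducible_iff_isClosed_union_isClosed.1 hV.2.2) _ _ hZc hZT h1 with h | h
      · exact hVZ h
      · exact hVZT h
    have hxZ1 : x ∉ Zk k := fun h => hxZ (Or.inl h)
    have hxZ2 : x ∉ ZT := fun h => hxZ (Or.inr h)
    have hxW := hVW hxV
    obtain ⟨hLk, hxL, hLs, hLd⟩ := hLOC n kQ FLT_acf x
    obtain ⟨L, hL⟩ : ∃ L, L = lk kQ x := ⟨_, rfl⟩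
    have hLW : lk kQ x ⊆ W := KYG_sub hWk hxW
    rw [← hL] at hLk hxL hLs hLd hLW
    have hcL : c ≤ dX L := by
      have h1 := htr x hxV hxZ2
      omega
    have hrelL : x.rel ≤ relS L := by
      intro m hm
      rw [KYG_relS, hL]
      exact KYG_sub (hREL n m) hm
    have hrL := KYG_rk hrelL
    have hLZ : ¬ L ⊆ Zk k := fun h => hxZ1 (h hxL)
    by_cases hb : ∃ b, L ⊆ fib n b
    · obtain ⟨b, hb⟩ := hb
      obtain ⟨p, hpL, hpZ, hp⟩ := hSLI n b L hLs hb (Zk k) hZc hLZ
      obtain ⟨q, -, hqW, hqQ, hqZ, hq⟩ := fin p (hLW hpL) hpZ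
      exact ⟨q, hqW, hqQ, hqZ, Or.inl (by omega)⟩
    · rcases Nat.eq_zero_or_pos c with hc0 | hc0
      · obtain ⟨q, -, hqW, hqQ, hqZ, hq⟩ := fin x hxW hxZ1
        exact ⟨q, hqW, hqQ, hqZ, Or.inl (by omega)⟩
      · have hxt : x.t ∉ kQ := fun h => hb ⟨x.t, by
          rw [hL]
          exact KYG_sub (KYG_fib h) rfl⟩
        obtain ⟨s, hs, u, huL, huZ, hut⟩ := KYG_spec hSPG x hxt (hZk1 k).1 hxZ1 (k : ℝ)
        rw [← hL] at huL
        have hfc : IsClosed (fib n (algebraMap Qb ℂ s)) := FLT_closed (KYG_fib (k := kQ) ⟨s, rfl⟩)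
        obtain ⟨A, hA, huA⟩ := (hVAR n).2.2.2.1 {u} (L ∩ fib n (algebraMap Qb ℂ s))
          (hLs.1.inter hfc) isIrreducible_singleton (Set.singleton_subset_iff.2 ⟨huL, hut⟩)
        have hAd := (hKRU n L A hLs).2 _ hA
        have hAL : A ⊆ L := hA.prop.2.trans Set.inter_subset_left
        have hAf : A ⊆ fib n (algebraMap Qb ℂ s) := hA.prop.2.trans Set.inter_subset_right
        have hAZ : ¬ A ⊆ Zk k := fun h => huZ (h (huA rfl))
        obtain ⟨p, hpA, hpZ, hp⟩ := hSLI n _ A hA.prop.1 hAf (Zk k) hZc hAZ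
        have hrA : rk (relS L) ≤ rk (relS A) := KYG_rk fun m hm => by
          rw [KYG_relS] at *
          exact hAL.trans hm
        obtain ⟨q, hqp, hqW, hqQ, hqZ, hq⟩ := fin p (hLW (hAL hpA)) hpZ
        refine ⟨q, hqW, hqQ, hqZ, Or.inr ⟨hc0, by omega, fun s' hs' => ?_⟩⟩
        have hqt : q.t = algebraMap Qb ℂ s :=
          KYG_sub (KYG_fib (k := kQ) (b := algebraMap Qb ℂ s) ⟨s, rfl⟩) (hAf hpA) hqp
        have h1 : s' = s := (algebraMap Qb ℂ).injective (hs'.trans hqt)
        rw [h1]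
        exact hs
  choose q hqW hqQ hqZ hqc using key
  have hgen : ∀ Z, ClO kQ Z → ¬ W ⊆ Z → ∃ k₀, ∀ k ≥ k₀, q k ∉ Z := by
    intro Z hZ hWZ
    obtain ⟨k₀, hk₀⟩ := hZk2 Z hZ fun h => hWZ (by
      rw [← hwW]
      exact KYG_sub hZ h)
    exact ⟨k₀, fun k hk h => hqZ k (hk₀ k hk h)⟩
  by_cases hfr : ∃ᶠ k in atTop, ρ + c ≤ rk (q k).rel
  · obtain ⟨φ, hφ, hφr⟩ := extraction_of_frequently_atTop hfr
    rcases hS n W hWs hWk hWf (fun j => q (φ j)) (ρ + c)
      (fun j => ⟨hqW _, hqQ _, hφr j⟩) (fun Z hZ hWZ => by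
        obtain ⟨k₀, hk₀⟩ := hgen Z hZ hWZ
        filter_upwards [hφ.tendsto_atTop.eventually (eventually_ge_atTop k₀)] with j hj
        exact hk₀ _ hj) with ⟨h1, -⟩ | ⟨r, e, hli, h1, h2⟩
    · rw [hrelS] at h1
      omega
    · exact ⟨r, e, hli, h1, by omega⟩
  · rw [Filter.not_frequently] at hfr
    obtain ⟨N, hN⟩ := eventually_atTop.1 hfr
    have hq2 : ∀ j, 1 ≤ c ∧ ρ + c ≤ rk (q (j + N)).rel + 1 ∧
        ∀ s : Qb, algebraMap Qb ℂ s = (q (j + N)).t → ((j + N : ℕ) : ℝ) ≤ hQ s := fun j =>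
      (hqc (j + N)).resolve_left (hN _ (Nat.le_add_left _ _))
    have hc1 : 1 ≤ c := (hq2 0).1
    rcases hS n W hWs hWk hWf (fun j => q (j + N)) (ρ + c - 1)
      (fun j => ⟨hqW _, hqQ _, by
        have h1 := (hq2 j).2.1
        show ρ + c - 1 ≤ rk (q (j + N)).rel
        omega⟩) (fun Z hZ hWZ => by
        obtain ⟨k₀, hk₀⟩ := hgen Z hZ hWZ
        filter_upwards [eventually_ge_atTop k₀] with j hj
        exact hk₀ _ (hj.trans (Nat.le_add_right _ _))) with ⟨-, h1⟩ | ⟨r, e, hli, h1, h2⟩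
    · have h2 := h1 fun B => by
        obtain ⟨m, hm⟩ := exists_nat_ge B
        filter_upwards [eventually_ge_atTop m] with j hj s hs
        refine (hm.trans ?_).trans ((hq2 j).2.2 s hs)
        exact_mod_cast hj.trans (Nat.le_add_right _ _)
      rw [hrelS] at h2
      omega
    · exact ⟨r, e, hli, h1, by omega⟩

end Pool.Agent.ZR
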