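import Pool.Agent.ZR.OA.St
import Pool.Agent.ZR.T3.FLT
import Pool.Agent.ZR.T3.CMP

/-!
# ZR, OA, [QCL] (helper38): the closure over the algebraic numbers of a subvariety
-/

set_option autoImplicit false

open Filter Topology

namespace Pool.Agent.ZR

open Pool.Agent.ZPE (IsTorCoset IsSubvar IsComp kdim)

theorem thm_QCL (hALQ : St_ALQ) (hLOC : St_LOC) (hFOD : St_FOD) (hGEN : St_GEN) : St_QCL := by
  intro n V hV
  obtain ⟨k, hk, hQk, -, hVk⟩ := hFOD n (fun _ => V) (fun _ => hV.1) ∅ Set.countable_empty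
  obtain ⟨w, hw, -, hlk⟩ := hGEN n k hk V hV (hVk 0) (fun _ => ∅) (fun _ =>
    ⟨isClosed_empty, fun h => (hV.2.1.mono h).ne_empty rfl⟩)
  have hiff : ∀ Z : Set (LX n), ClO kQ Z → (w ∈ Z ↔ V ⊆ Z) := by
    intro Z hZ
    refine ⟨fun h => ?_, fun h => h hw⟩
    have h1 : lk k w ⊆ Z := Set.sInter_subset_of_mem ⟨CMP_mono hQk hZ, h⟩
    rw [hlk] at h1
    exact h1
  have heq : lk kQ w = qcl V := by
    have h1 : {Z : Set (LX n) | ClO kQ Z ∧ w ∈ Z} = {Z | IsAlg Z ∧ V ⊆ Z} := by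
      ext Z
      show (ClO kQ Z ∧ w ∈ Z) ↔ (IsAlg Z ∧ V ⊆ Z)
      rw [hALQ n Z]
      exact ⟨fun h => ⟨h.1, (hiff Z h.1).1 h.2⟩, fun h => ⟨h.1, (hiff Z h.1).2 h.2⟩⟩
    unfold lk qcl
    rw [h1]
  obtain ⟨h1, -, h3, -⟩ := hLOC n kQ FLT_acf w
  rw [heq] at h1 h3
  have hsub : V ⊆ qcl V := Set.subset_sInter fun Z hZ => hZ.2
  refine ⟨h3, h1, hsub, fun Z hZ hVZ => Set.sInter_subset_of_mem ⟨(hALQ n Z).2 hZ, hVZ⟩,
    ⟨k, hk, hQk, w, hw, hlk, heq⟩, fun hb b hq => hb b (hsub.trans hq)⟩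

end Pool.Agent.ZR
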