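import Pool.Agent.ZR.OA.St
import Pool.Agent.ZR.T3.VRT

/-!
# T4, module VRG: only finitely many fibres contain maximal subvarieties of defect at most `δ` which
are in no degenerate subvariety (helper57)
-/

set_option autoImplicit false

open scoped BigOperators
open Filter Topology

namespace Pool.Agent.ZR

open Pool.Agent.ZPT (Qb hQ trd rsp)
open Pool.Agent.ZPE (IsTorCoset IsSubvar IsComp kdim)

theorem thm_VRG (hVAR : St_VAR) (hLIM : St_LIMV) (hDGD : St_DGD) (hFLT : St_FLT)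
    (hHUL : St_HUL) (hSLI : St_SLI) : St_VRG := by
  intro hKey n V δ hV hδ
  by_contra hinf
  have hinf' : {b : ℂ | ∃ A, Maximal (SubDef ∅ V δ) A ∧ A ⊆ fib n b ∧
    ∀ W, Degen (δ - 2) W → W ⊆ V → ¬ A ⊆ W}.Infinite := hinf
  obtain ⟨hN, hdim, -, -, -⟩ := hVAR n
  obtain ⟨e, he⟩ : ∃ e : ℕ → ℂ, Function.Injective e ∧
      ∀ k, ∃ A, Maximal (SubDef ∅ V δ) A ∧ A ⊆ fib n (e k) ∧
        ∀ W, Degen (δ - 2) W → W ⊆ V → ¬ A ⊆ W :=
    ⟨fun k => (hinf'.natEmbedding _ k : ℂ), fun i j hij =>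
      (hinf'.natEmbedding _).injective (Subtype.ext hij), fun k => (hinf'.natEmbedding _ k).2⟩
  obtain ⟨hinj, hex⟩ := he
  choose A hA hAb hAd using hex
  obtain ⟨V', hV', hev, hmin⟩ := hLIM n hN (hyperfilter ℕ) A (fun k => (hA k).prop.1)
  have hV'V : V' ⊆ V := hmin V hV.1 (Eventually.of_forall fun k => (hA k).prop.2.1)
  -- the limit is in no fibre
  have hnf : ∀ c, ¬ V' ⊆ fib n c := by
    intro c hc
    have h1 : ∀ᶠ k in (hyperfilter ℕ : Filter ℕ), e k = c := by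
      filter_upwards [hev] with k hk
      obtain ⟨p, hp⟩ := (hA k).prop.1.2.1
      have h2 : p.t = e k := hAb k hp
      have h3 : p.t = c := hc (hk hp)
      rw [← h2, h3]
    have h2 : {k | e k = c}.Finite :=
      Set.Subsingleton.finite fun i hi j hj => hinj (hi.trans hj.symm)
    have h3 : {k | e k = c}ᶜ ∈ (hyperfilter ℕ : Filter ℕ) := h2.compl_mem_hyperfilter
    obtain ⟨k, hk, hk'⟩ := (h1.and h3).exists
    exact hk' hk
  have hdef : ¬ DefLE ∅ δ V' := by
    intro hD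
    obtain ⟨k, hk⟩ := hev.exists
    exact hnf (e k) (((hA k).2 ⟨hV', hV'V, hD⟩ hk).trans (hAb k))
  obtain ⟨S, hSf, hVS, hSd⟩ := (hHUL n).1 V' hV'
  have hSsub : IsSubvar S := by
    obtain ⟨r, M, -, hc⟩ := hSf
    exact hc.prop.1
  have hlt : dX V' + δ < dX S := by
    by_contra hcon
    push Not at hcon
    refine hdef ⟨S, Or.inl hSf, hVS, ?_⟩
    rw [hdim S hSsub, hdim V' hV']
    exact_mod_cast hcon
  -- the points with many relations are dense
  have hdense : V' ⊆ closure {p | p ∈ V' ∧ n + 1 - δ ≤ rk p.rel} := by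
    refine hmin _ isClosed_closure ?_
    filter_upwards [hev] with k hk
    by_contra hcon
    obtain ⟨p, hp, hpZ, hrk⟩ := hSLI n (e k) (A k) (hA k).prop.1 (hAb k) _ isClosed_closure hcon
    refine hpZ (subset_closure ⟨hk hp, ?_⟩)
    obtain ⟨S', hS', hAS', hd'⟩ := (hA k).prop.2.2
    have hfl : IsFlat S' := by
      rcases hS' with h | ⟨b, hb, -⟩
      · exact h
      · exact absurd hb (Set.notMem_empty b)
    obtain ⟨r, M, hM, hc⟩ := hfl
    obtain ⟨h1, h2, -, -⟩ := (hFLT n).1 r M S' hM hc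
    rw [hdim S' hc.prop.1, hdim (A k) (hA k).prop.1] at hd'
    have h3 : dX S' ≤ dX (A k) + δ := by exact_mod_cast hd'
    have h4 := VRT_rk (VRT_relS hAS')
    omega
  obtain ⟨r, e', he', h1, h2, h3⟩ := hKey n V' hV' hnf (n + 1 - δ) hdense (by omega)
  have hdeg : Degen (δ - 2) V' :=
    hDGD n V' (δ - 2) r e' hV' hnf he' h1 (by omega) (by omega)
  obtain ⟨k, hk⟩ := hev.exists
  exact hAd k V' hdeg hV'V hk

end Pool.Agent.ZR
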