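import Pool.Agent.ZR.T3.Fin
import Pool.Agent.ZR.OA.ALQ
import Pool.Agent.ZR.OA.CMGA
import Pool.Agent.ZR.OA.DGD
import Pool.Agent.ZR.OA.FIG
import Pool.Agent.ZR.OA.FNG
import Pool.Agent.ZR.OA.KSQ
import Pool.Agent.ZR.OA.KYG
import Pool.Agent.ZR.OA.QCL
import Pool.Agent.ZR.OA.VRG

/-!
# T4, final assembly: `ThmT4`
-/

set_option autoImplicit false

namespace Pool.Agent.ZR

/-- THEOREM T4 -/
theorem thm_T4 : ThmT4 := by
  have hREL : St_REL := thm_REL thm_S1 thm_B1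
  have hFOD : St_FOD := thm_FOD thm_VAR
  have hCMP : St_CMP := thm_CMP thm_LOC hFOD thm_GEN
  have hTRR : St_TRR := thm_TRR thm_DIV
  have hUBD : St_UBD := thm_UBD thm_LOC hFOD thm_GEN hTRR
  have hIRR : St_IRR := thm_IRR thm_LOC
  have hFLT : St_FLT := thm_FLT thm_VAR hREL thm_KRU hUBD hIRR hCMP
  have hHUL : St_HUL := thm_HUL thm_VAR hREL thm_KRU hUBD hFLT
  have hTCX : St_TCX := thm_TCX thm_BRG thm_INC
  have hCZX : St_CZX := thm_CZX thm_BRG thm_INC thm_VAR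
  have hFTC : St_FTC := thm_FTC thm_BRG thm_INC thm_VAR hUBD hFLT thm_KRU hTCX hREL
  have hNCM : St_NCM := thm_NCM (thm_NCG thm_BRG) hREL thm_INC thm_VAR hFLT thm_BRG hTCX
  have hHOR : St_HOR := thm_HOR thm_VAR thm_LOC hFOD thm_GEN hCZX hNCM thm_TCM hFTC hFLT
    (thm_AUT thm_MAP)
  have hIND : St_IND := thm_IND thm_DIV
  have hTRB : St_TRB := thm_TRB thm_VAR thm_LOC hFOD thm_GEN
  have hSPR : St_SPR := thm_SPR thm_S1 thm_B1
  have hSTP : St_STP := thm_STP hSPR thm_SPG thm_TOR hIND thm_RKI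
  have hKEY : KeyT3 := thm_KEYT hREL hSTP hTRB thm_comparison
  have hSLI : St_SLI := thm_SLI thm_TOR hIND thm_RKI thm_LOC hFOD thm_GEN
  have hVRT : St_VRT := thm_VRT thm_VAR thm_LIMV hFLT hHUL hSLI
  have hFBN : St_FBN := thm_FBN thm_VAR hCZX hNCM hFTC
  have hFIB : St_FIB := thm_FIB thm_VAR hHUL hFTC hTCX
  have hQCL : St_QCL := thm_QCL thm_ALQ thm_LOC hFOD thm_GEN
  have hDGD : St_DGD := thm_DGD thm_B1 thm_VAR hQCL
  have hKSQ : KeySeq := thm_KSQ thm_MAP thm_B1 hREL thm_VAR thm_LOC thm_GEN thm_comparisonG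
  have hKYG : KeyG := thm_KYG hKSQ hQCL hTRB hSLI thm_LOC hREL thm_KRU thm_VAR hFOD thm_GEN
    thm_SPG thm_MAP
  have hVRG : St_VRG := thm_VRG thm_VAR thm_LIMV hDGD hFLT hHUL hSLI
  have hFIG : St_FIG := thm_FIG thm_VAR hIRR hVRT hVRG hHOR hFBN hCZX hFTC hTCX
  exact thm_FNG thm_VAR hFIG hFIB hKEY hKYG

end Pool.Agent.ZR
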